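import Pool.Agent.Helper87.OB.N2K
import Pool.Agent.Helper87.OB.BdG

/-!
# Project OB (MP_0f6f3f_an), layer TZ, node 2: the geometry `geoJ`

`kJ g`: the orthogonal part, `rJ0 g = (kJ g)⁻¹ g ∈ HQ`, `rJ : GJ → QJ`, `geoJ : Geo GJ SL KG`.
-/

set_option autoImplicit false
set_option linter.unusedSectionVars false

open Filter Topology Matrix

namespace Pool.Agent.Helper87.OB

open Pool.Agent.Helper90.RK Pool.Agent.Helper84.NI Pool.Agent.Helper78.BI Pool.Agent.Helper55.OB Pool.Agent.Helper9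
open Pool.Agent.Helper35.FP Pool.Agent.Helper55.TZ
open Pool.Agent.Helper9.Lin (cjM cjM_apply cjM_mul cjM_add cjM_one cjM_star cjM_cjM)

variable {N : ℕ} (hN : 5 ≤ N) {q : Fin N} (hq : (q : ℕ) = 1)

/-- the other copy of the real matrices -/
noncomputable def toM' (g : (sr q).M) : (sr (q' q)).M := ⟨g.1, g.2⟩

theorem continuous_toM' : Continuous (toM' (q := q)) := Continuous.subtype_mk continuous_subtype_val _

/-- the inverse of the triangular part for the last two coordinates -/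
noncomputable def Ri (g : (sr q).M) : MN N := (sr (q' q)).mt ((sr (q' q)).rh (toM' g) : (sr (q' q)).M)⁻¹

theorem continuous_Ri : Continuous (Ri (q := q)) :=
  (sr (q' q)).continuous_mt.comp (continuous_inv.comp
    (continuous_subtype_val.comp ((sr (q' q)).continuous_rh.comp continuous_toM')))

theorem Ri_gram (g : (sr q).M) : (Ri g)ᴴ * ((sr q).mt g)ᴴ * ((sr q).mt g * Ri g) = 1 := by
  have h1 := (sr (q' q)).rh_star_mul (toM' g)
  have h2 : (sr (q' q)).mt ((sr (q' q)).rh (toM' g) : (sr (q' q)).M) * Ri g = 1 := (sr (q' q)).mt_mul_inv _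
  change _ = ((sr q).mt g)ᴴ * (sr q).mt g at h1
  calc (Ri g)ᴴ * ((sr q).mt g)ᴴ * ((sr q).mt g * Ri g) = (Ri g)ᴴ * (((sr q).mt g)ᴴ * (sr q).mt g) * Ri g := by
        simp only [Matrix.mul_assoc]
    _ = ((sr (q' q)).mt ((sr (q' q)).rh (toM' g) : (sr (q' q)).M) * Ri g)ᴴ *
        ((sr (q' q)).mt ((sr (q' q)).rh (toM' g) : (sr (q' q)).M) * Ri g) := by
        rw [← h1, conjTranspose_mul]
        simp only [Matrix.mul_assoc]
    _ = 1 := by rw [h2, conjTranspose_one, Matrix.mul_one]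

include hN hq in
theorem Ri_E2 (g : (sr q).M) : Ri g * E2 q = E2 q * Ri g * E2 q := by
  have h1 : Lb (q' q) (Ri g) := by
    have h2 := ((sr (q' q)).Qh.inv_mem ((sr (q' q)).rh (toM' g)).2)
    exact h2
  have h2 : Ef (q' q) = 1 - E2 q := by
    rw [E2_eq hN hq, Ee_eq]
    abel
  have h3 : Ef (q' q) * Ri g * Ee (q' q) = 0 := h1
  rw [h2, ← E2_eq hN hq, Matrix.sub_mul, Matrix.sub_mul, Matrix.one_mul] at h3
  exact sub_eq_zero.1 h3

/-- the coordinates of the last two vectors -/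
noncomputable def Tt (g : (sr q).M) : MN N := E2 q * Ri g * E2 q

/-- the orthonormalised last two columns -/
noncomputable def Uu (g : (sr q).M) : MN N := (sr q).mt g * E2 q * Tt g

theorem continuous_Uu : Continuous (Uu (q := q)) :=
  ((sr q).continuous_mt.mul continuous_const).mul ((continuous_const.mul continuous_Ri).mul continuous_const)

include hN in
theorem Tt_E2 (g : (sr q).M) : Tt g * E2 q = Tt g := by
  unfold Tt
  rw [Matrix.mul_assoc _ (E2 q) (E2 q), E2_E2 hN]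

include hN hq in
theorem Uu_eq (g : (sr q).M) : Uu g = (sr q).mt g * Ri g * E2 q := by
  unfold Uu Tt
  calc (sr q).mt g * E2 q * (E2 q * Ri g * E2 q) = (sr q).mt g * (E2 q * E2 q * Ri g * E2 q) := by simp only [Matrix.mul_assoc]
    _ = _ := by rw [E2_E2 hN, ← Ri_E2 hN hq, Matrix.mul_assoc]

include hN hq in
theorem Uu_gram (g : (sr q).M) : (Uu g)ᴴ * Uu g = E2 q := by
  rw [Uu_eq hN hq, conjTranspose_mul, conjTranspose_mul, E2_star hN]
  calc E2 q * ((Ri g)ᴴ * ((sr q).mt g)ᴴ) * ((sr q).mt g * Ri g * E2 q)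
      = E2 q * ((Ri g)ᴴ * ((sr q).mt g)ᴴ * ((sr q).mt g * Ri g)) * E2 q := by simp only [Matrix.mul_assoc]
    _ = _ := by rw [Ri_gram, Matrix.mul_one, E2_E2 hN]

theorem σ_JJ : (sr q).σ (JJ N) = JJ N := JJ_cj

theorem σ_E2 : (sr q).σ (E2 q) = E2 q := by
  unfold E2
  rw [(sr q).mul, (sr q).mul, (sr q).blk, σ_JJ]

theorem σ_Em : (sr q).σ (Em q) = Em q := by
  unfold Em
  rw [(sr q).sub, (sr q).sub, (sr q).blk, σ_E2, (sr q).one]

theorem σ_Ri (g : (sr q).M) : (sr q).σ (Ri g) = Ri g := (sr (q' q)).σ_mt _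

theorem σ_Uu (g : (sr q).M) : (sr q).σ (Uu g) = Uu g := by
  unfold Uu Tt
  rw [(sr q).mul, (sr q).mul, (sr q).mul, (sr q).mul, σ_E2, σ_Ri, (sr q).σ_mt]

theorem σ_kk (g : (sr q).M) : (sr q).σ (kk q ((sr q).mt g) (Uu g)) = kk q ((sr q).mt g) (Uu g) := by
  unfold kk mm
  rw [(sr q).add, (sr q).add, (sr q).mul, (sr q).mul, (sr q).mul, (sr q).sub, (sr q).one, (sr q).mul, (sr q).mul, (sr q).star,
    σ_JJ, σ_Uu, σ_Em, (sr q).σ_mt]

include hq in
theorem isU_kk (g : MJ hN q) : IsU (kk q ((sr q).mt g) (Uu (g : (sr q).M))) :=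
  kk_isU hN hq ((mem_MJ hN q).1 g.2) rfl (Tt_E2 hN _) (Uu_gram hN hq _)

/-- the orthogonal part -/
noncomputable def kJ (g : MJ hN q) : MJ hN q :=
  ⟨(sr q).mkm (kk q ((sr q).mt g) (Uu (g : (sr q).M))) (kk q ((sr q).mt g) (Uu (g : (sr q).M)))ᴴ
    (mul_eq_one_comm.1 (isU_kk hN hq g)) (σ_kk _), by
      rw [mem_MJ, Sg.mt_mkm]
      exact kk_form hN hq ((mem_MJ hN q).1 g.2) rfl (Tt_E2 hN _) (Uu_gram hN hq _)⟩

theorem mt_kJ (g : MJ hN q) : (sr q).mt (kJ hN hq g : (sr q).M) = kk q ((sr q).mt g) (Uu (g : (sr q).M)) := rfl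

theorem mt_kJ_inv (g : MJ hN q) : (sr q).mt (kJ hN hq g : (sr q).M)⁻¹ = (kk q ((sr q).mt g) (Uu (g : (sr q).M)))ᴴ := rfl

theorem continuous_kk : Continuous fun g : (sr q).M => kk q ((sr q).mt g) (Uu g) := by
  unfold kk mm
  have h1 : Continuous fun g : (sr q).M => Uu g := continuous_Uu
  have h2 : Continuous fun g : (sr q).M => (sr q).mt g := (sr q).continuous_mt
  exact (((continuous_const.mul h1).mul continuous_const).add
    ((continuous_const.sub (h1.mul h1.matrix_conjTranspose)).mul (h2.mul continuous_const))).add h1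

theorem continuous_kJ : Continuous (kJ hN hq) := by
  refine Continuous.subtype_mk (f := fun g : MJ hN q => (kJ hN hq g : (sr q).M)) ?_ _
  refine (sr q).continuous_to ?_ ?_
  · exact continuous_kk.comp continuous_subtype_val
  · exact (continuous_kk.comp continuous_subtype_val).matrix_conjTranspose

/-- the triangular part -/
noncomputable def rJ0 (g : MJ hN q) : HQ hN q :=
  ⟨((kJ hN hq g)⁻¹ * g : MJ hN q), ((kJ hN hq g)⁻¹ * g : MJ hN q).2, by
    change Lb q ((sr q).mt ((kJ hN hq g : (sr q).M)⁻¹ * g))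
    rw [Sg.mt_mul, mt_kJ_inv]
    exact kk_lb hN hq ((mem_MJ hN q).1 g.2) rfl (Tt_E2 hN _)⟩

theorem rJ0_coe (g : MJ hN q) : (rJ0 hN hq g : (sr q).M) = (kJ hN hq g : (sr q).M)⁻¹ * g := rfl

theorem continuous_rJ0 : Continuous (rJ0 hN hq) := by
  refine Continuous.subtype_mk (f := fun g : MJ hN q => (((kJ hN hq g)⁻¹ * g : MJ hN q) : (sr q).M)) ?_ _
  exact continuous_subtype_val.comp ((continuous_kJ hN hq).inv.mul continuous_id)

theorem rJ0_eq {g g' : MJ hN q} (h : (g : (sr q).M)⁻¹ * g' ∈ (sr q).Z0) : rJ0 hN hq g = rJ0 hN hq g' := by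
  obtain ⟨c, hc, h2⟩ := h
  have h3 : (sr q).mt g' = c • (sr q).mt g := by
    have h4 : (sr q).mt g * (sr q).mt ((g : (sr q).M)⁻¹ * g') = (sr q).mt g' := by rw [← Sg.mt_mul, mul_inv_cancel_left]
    rw [← h4, h2, Matrix.mul_smul, Matrix.mul_one]
  have hcc := star_mul_self_of_norm hc
  have hcc' : c * star c = 1 := by rw [mul_comm, hcc]
  have h4 : Ri (g' : (sr q).M) = Ri (g : (sr q).M) := by
    unfold Ri
    rw [(sr (q' q)).rh_congr (g := toM' (g' : (sr q).M)) (h := toM' (g : (sr q).M))]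
    change ((sr q).mt g')ᴴ * (sr q).mt g' = ((sr q).mt g)ᴴ * (sr q).mt g
    rw [h3, conjTranspose_smul, Matrix.smul_mul, Matrix.mul_smul, smul_smul, hcc, one_smul]
  have h5 : Uu (g' : (sr q).M) = c • Uu (g : (sr q).M) := by
    unfold Uu Tt
    rw [h3, h4, Matrix.smul_mul, Matrix.smul_mul]
  have h6 : kk q ((sr q).mt g') (Uu (g' : (sr q).M)) = c • kk q ((sr q).mt g) (Uu (g : (sr q).M)) := by
    unfold kk mm
    rw [h5, h3, conjTranspose_smul, Matrix.smul_mul c (Uu _) _, Matrix.mul_smul _ (star c) _, smul_smul c (star c), hcc', one_smul,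
      Matrix.smul_mul, Matrix.mul_smul _ c, Matrix.mul_smul _ c, Matrix.smul_mul, smul_add, smul_add]
  refine Subtype.ext ((sr q).mt_inj ?_)
  rw [rJ0_coe, rJ0_coe, Sg.mt_mul, Sg.mt_mul, mt_kJ_inv, mt_kJ_inv, h6, h3, conjTranspose_smul, Matrix.smul_mul, Matrix.mul_smul,
    smul_smul, hcc, one_smul]

/-- the decomposition -/
noncomputable def rJ (x : GJ hN q) : QJ hN q := prQJ hN q (rJ0 hN hq (Function.surjInv (prJ_surj hN q) x))

theorem prJ_eq {g g' : MJ hN q} (h : prJ hN q g = prJ hN q g') : (g : (sr q).M)⁻¹ * g' ∈ (sr q).Z0 :=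
  QuotientGroup.eq.1 (congrArg Subtype.val h)

theorem rJ_prJ (g : MJ hN q) : rJ hN hq (prJ hN q g) = prQJ hN q (rJ0 hN hq g) := by
  unfold rJ
  rw [rJ0_eq hN hq (prJ_eq hN (Function.surjInv_eq (prJ_surj hN q) (prJ hN q g)))]

theorem continuous_rJ : Continuous (rJ hN hq) := by
  rw [(isQuotientMap_prJ hN q).continuous_iff]
  exact ((continuous_prQJ hN q).comp (continuous_rJ0 hN hq)).congr fun g => (rJ_prJ hN hq g).symm

/-- the orthogonal elements -/
def UJ : Set (MJ hN q) := {g | IsU ((sr q).mt g)}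

theorem isCompact_UJ : IsCompact (UJ hN (q := q)) :=
  (isClosed_MJ hN q).isClosedEmbedding_subtypeVal.isCompact_preimage (sr q).isCompact_UU

theorem KK_J {g g' : GJ hN q} (hg : g ∈ prJ hN q '' UJ hN) (hg' : g' ∈ prJ hN q '' UJ hN) (x : QJ hN q) (h : g = g' * x) :
    nbJ hN q x ∈ (sr q).KG := by
  obtain ⟨u, hu, rfl⟩ := hg
  obtain ⟨u', hu', rfl⟩ := hg'
  exact (sr q).geo.KK _ ⟨u, hu, rfl⟩ _ ⟨u', hu', rfl⟩ (inQ hN q x) (congrArg Subtype.val h)

theorem kr_J (x : GJ hN q) : x * (rJ hN hq x : GJ hN q)⁻¹ ∈ prJ hN q '' UJ hN := by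
  obtain ⟨g, rfl⟩ := prJ_surj hN q x
  refine ⟨kJ hN hq g, isU_kk hN hq g, ?_⟩
  rw [rJ_prJ]
  have h1 : ((prQJ hN q (rJ0 hN hq g) : QJ hN q) : GJ hN q) = prJ hN q ((kJ hN hq g)⁻¹ * g) := Subtype.ext rfl
  rw [h1, ← map_inv, ← map_mul]
  congr 1
  group

/-- **The geometry.** -/
noncomputable def geoJ : Geo (GJ hN q) (sr q).SL (sr q).KG where
  Q := QJ hN q
  nb := nbJ hN q
  nbc := continuous_nbJ hN q
  nbs := nbJ_surj hN q hq
  K := prJ hN q '' UJ hN
  Kc := (isCompact_UJ hN).image (continuous_prJ hN q)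
  r := rJ hN hq
  rc := continuous_rJ hN hq
  kr := kr_J hN hq
  rK g hg := by
    have h1 := kr_J hN hq g
    refine KK_J hN hg h1 (rJ hN hq g) ?_
    rw [inv_mul_cancel_right]
  KK g hg g' hg' x h := KK_J hN hg hg' x h

end Pool.Agent.Helper87.OB
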