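import Pool.Agent.Helper87.OB.N1K
import Pool.Agent.Helper87.OB.N2R

/-!
# Project OB (MP_0f6f3f_an), layer TZ, node 1: the decomposition

`q = 0`. `kJ g`: the orthogonal part of `g ∈ MJ`, `rJ0 g = (kJ g)⁻¹ g ∈ HQ`, `rJ : GJ → QJ`, `exists_dec`.
-/

set_option autoImplicit false
set_option linter.unusedSectionVars false

open Filter Topology Matrix

namespace Pool.Agent.Helper87.OB1

open Pool.Agent.Helper90.RK Pool.Agent.Helper84.NI Pool.Agent.Helper78.BI Pool.Agent.Helper55.OB Pool.Agent.Helper9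
open Pool.Agent.Helper35.FP Pool.Agent.Helper55.TZ
open Pool.Agent.Helper9.Lin (cjM cjM_apply cjM_mul cjM_add cjM_one cjM_star cjM_cjM)
open Pool.Agent.Helper87.OB (E2 Em E2_star E2_E2 JJ_JJ JJ_star mm kk σ_JJ σ_E2 σ_Em sr MJ mem_MJ GJ HQ QJ prJ prQJ prJ_surj continuous_prJ
  continuous_prQJ isQuotientMap_prJ prJ_eq UJ prQJ_surj)
open Pool.Agent.Helper46.OB (lst E2_mul_E2)


variable {N : ℕ} (hN : 5 ≤ N) {q : Fin N} (hq : (q : ℕ) = 0)

/-- the squared norm of the last column -/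
noncomputable def nl (A : MN N) : ℝ := ∑ k, ‖A k (lst hN)‖ ^ 2

theorem nl_eq (A : MN N) : (Aᴴ * A) (lst hN) (lst hN) = (nl hN A : ℂ) := by
  unfold nl
  rw [Matrix.mul_apply]
  push_cast
  refine Finset.sum_congr rfl fun k _ => ?_
  rw [Matrix.conjTranspose_apply, RCLike.star_def, RCLike.conj_mul]
  norm_cast

theorem nl_pos (g : (sr q).M) : 0 < nl hN ((sr q).mt g) := by
  have h0 : 0 ≤ nl hN ((sr q).mt g) := Finset.sum_nonneg fun _ _ => by positivity
  refine lt_of_le_of_ne h0 fun h => ?_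
  have h1 : ∀ k, (sr q).mt g k (lst hN) = 0 := by
    intro k
    have h2 := (Finset.sum_eq_zero_iff_of_nonneg (fun k _ => by positivity)).1 h.symm k (Finset.mem_univ k)
    exact norm_eq_zero.1 (pow_eq_zero_iff (two_ne_zero) |>.1 h2)
  have h2 := congrFun (congrFun ((sr q).mt_inv_mul g) (lst hN)) (lst hN)
  rw [Matrix.mul_apply, Matrix.one_apply_eq] at h2
  rw [Finset.sum_eq_zero fun k _ => by rw [h1 k, mul_zero]] at h2
  exact zero_ne_one h2

/-- the inverse norm of the last column -/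
noncomputable def ci (g : (sr q).M) : ℂ := (((Real.sqrt (nl hN ((sr q).mt g)))⁻¹ : ℝ) : ℂ)

theorem ci_sq (g : (sr q).M) : ci hN g * ci hN g * (nl hN ((sr q).mt g) : ℂ) = 1 := by
  unfold ci
  rw [← Complex.ofReal_mul, ← Complex.ofReal_mul, ← Complex.ofReal_one]
  congr 1
  have h := nl_pos hN g
  have h2 := Real.mul_self_sqrt h.le
  have h3 : Real.sqrt (nl hN ((sr q).mt g)) ≠ 0 := (Real.sqrt_pos.2 h).ne'
  field_simp
  rw [pow_two]
  exact h2.symm

theorem star_ci (g : (sr q).M) : star (ci hN g) = ci hN g := by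
  unfold ci
  rw [RCLike.star_def, Complex.conj_ofReal]

theorem continuous_ci : Continuous (ci hN (q := q)) := by
  have h1 : Continuous fun g : (sr q).M => nl hN ((sr q).mt g) := by
    unfold nl
    refine continuous_finsetSum _ fun k _ => ?_
    exact ((((sr q).continuous_mt.matrix_elem k (lst hN)).norm).pow 2)
  exact Complex.continuous_ofReal.comp ((Real.continuous_sqrt.comp h1).inv₀ fun g => (Real.sqrt_pos.2 (nl_pos hN g)).ne')

/-- the coordinates of the last vector -/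
noncomputable def Tt (g : (sr q).M) : MN N := ci hN g • E2 q

/-- the normalised last column -/
noncomputable def Uu (g : (sr q).M) : MN N := (sr q).mt g * E2 q * Tt hN g

theorem Tt_E2 (g : (sr q).M) : Tt hN g * E2 q = Tt hN g := by
  unfold Tt
  rw [Matrix.smul_mul, E2_E2 hN]

theorem Uu_eq (g : (sr q).M) : Uu hN g = ci hN g • ((sr q).mt g * E2 q) := by
  unfold Uu Tt
  rw [Matrix.mul_smul, Matrix.mul_assoc, E2_E2 hN]

theorem continuous_Uu : Continuous (Uu hN (q := q)) := by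
  have h : (Uu hN (q := q)) = fun g => ci hN g • ((sr q).mt g * E2 q) := funext fun g => Uu_eq hN g
  rw [h]
  exact (continuous_ci hN).smul ((sr q).continuous_mt.mul continuous_const)

include hq in
theorem Uu_gram (g : (sr q).M) : (Uu hN g)ᴴ * Uu hN g = E2 q := by
  rw [Uu_eq, conjTranspose_smul, conjTranspose_mul, E2_star hN, Matrix.smul_mul, Matrix.mul_smul, smul_smul, star_ci]
  have h : E2 q * ((sr q).mt g)ᴴ * ((sr q).mt g * E2 q) = (nl hN ((sr q).mt g) : ℂ) • E2 q := by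
    rw [← nl_eq, ← E2_mul_E2 hN hq]
    simp only [Matrix.mul_assoc]
  rw [h, smul_smul, ci_sq, one_smul]

theorem σ_smul_ci (g : (sr q).M) (A : MN N) : (sr q).σ (ci hN g • A) = ci hN g • (sr q).σ A := by
  have h1 : ∀ (c : ℂ) (A : MN N), (sr q).σ (c • A) = star c • (sr q).σ A := by
    intro c A
    change cjM (c • A) = star c • cjM A
    ext i j
    rw [cjM_apply, Matrix.smul_apply, Matrix.smul_apply, cjM_apply, smul_eq_mul, smul_eq_mul, map_mul]
    rfl
  rw [h1, star_ci]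

theorem σ_Uu (g : (sr q).M) : (sr q).σ (Uu hN g) = Uu hN g := by
  rw [Uu_eq, σ_smul_ci, (sr q).mul, σ_E2, (sr q).σ_mt]

theorem σ_kk (g : (sr q).M) : (sr q).σ (kk q ((sr q).mt g) (Uu hN g)) = kk q ((sr q).mt g) (Uu hN g) := by
  unfold kk mm
  rw [(sr q).add, (sr q).add, (sr q).mul, (sr q).mul, (sr q).mul, (sr q).sub, (sr q).one, (sr q).mul, (sr q).mul, (sr q).star,
    σ_JJ, σ_Uu, σ_Em, (sr q).σ_mt]

theorem σ_ko (g : (sr q).M) : (sr q).σ (ko q ((sr q).mt g) (Uu hN g)) = ko q ((sr q).mt g) (Uu hN g) := by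
  have h : (sr q).σ (gg q ((sr q).mt g) (Uu hN g)) = gg q ((sr q).mt g) (Uu hN g) := by
    unfold gg
    rw [(sr q).mul, (sr q).star, σ_kk]
  unfold ko ri
  rw [(sr q).mul, (sr q).mul, (sr q).mul, σ_JJ, σ_kk, (sr q).σ_sq gg_psd h]

include hq in
theorem isU_ko' (g : MJ hN q) : IsU (ko q ((sr q).mt g) (Uu hN (g : (sr q).M))) :=
  ko_isU hN hq ((mem_MJ hN q).1 g.2) rfl (Tt_E2 hN _) (Uu_gram hN hq _)

/-- the orthogonal part -/
noncomputable def kJ (g : MJ hN q) : MJ hN q :=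
  ⟨(sr q).mkm (ko q ((sr q).mt g) (Uu hN (g : (sr q).M))) (ko q ((sr q).mt g) (Uu hN (g : (sr q).M)))ᴴ
    (mul_eq_one_comm.1 (isU_ko' hN hq g)) (σ_ko hN _), by
      rw [mem_MJ, Sg.mt_mkm]
      exact ko_form hN hq ((mem_MJ hN q).1 g.2) rfl (Tt_E2 hN _) (Uu_gram hN hq _)⟩

theorem mt_kJ (g : MJ hN q) : (sr q).mt (kJ hN hq g : (sr q).M) = ko q ((sr q).mt g) (Uu hN (g : (sr q).M)) := rfl

theorem mt_kJ_inv (g : MJ hN q) : (sr q).mt (kJ hN hq g : (sr q).M)⁻¹ = (ko q ((sr q).mt g) (Uu hN (g : (sr q).M)))ᴴ := rfl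

theorem continuous_kk : Continuous fun g : (sr q).M => kk q ((sr q).mt g) (Uu hN g) := by
  unfold kk mm
  have h1 : Continuous fun g : (sr q).M => Uu hN g := continuous_Uu hN
  have h2 : Continuous fun g : (sr q).M => (sr q).mt g := (sr q).continuous_mt
  exact (((continuous_const.mul h1).mul continuous_const).add
    ((continuous_const.sub (h1.mul h1.matrix_conjTranspose)).mul (h2.mul continuous_const))).add h1

theorem continuous_ko : Continuous fun g : (sr q).M => ko q ((sr q).mt g) (Uu hN g) := by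
  have h1 : Continuous fun g : (sr q).M => kk q ((sr q).mt g) (Uu hN g) := continuous_kk hN
  have h2 : Continuous fun g : (sr q).M => gg q ((sr q).mt g) (Uu hN g) := h1.matrix_conjTranspose.mul h1
  have h3 : Continuous fun g : (sr q).M => Pool.Agent.Helper78.BI.sq (gg q ((sr q).mt g) (Uu hN g)) :=
    continuousOn_sq.comp_continuous h2 fun g => gg_psd
  unfold ko ri
  exact h1.mul ((continuous_const.mul h3).mul continuous_const)

theorem continuous_kJ : Continuous (kJ hN hq) := by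
  refine Continuous.subtype_mk (f := fun g : MJ hN q => (kJ hN hq g : (sr q).M)) ?_ _
  refine (sr q).continuous_to ?_ ?_
  · exact (continuous_ko hN).comp continuous_subtype_val
  · exact ((continuous_ko hN).comp continuous_subtype_val).matrix_conjTranspose

/-- the triangular part -/
noncomputable def rJ0 (g : MJ hN q) : HQ hN q :=
  ⟨((kJ hN hq g)⁻¹ * g : MJ hN q), ((kJ hN hq g)⁻¹ * g : MJ hN q).2, by
    change Lb q ((sr q).mt ((kJ hN hq g : (sr q).M)⁻¹ * g))
    rw [Sg.mt_mul, mt_kJ_inv]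
    exact ko_lb hN hq ((mem_MJ hN q).1 g.2) rfl (Tt_E2 hN _) (Uu_gram hN hq _)⟩

theorem rJ0_coe (g : MJ hN q) : (rJ0 hN hq g : (sr q).M) = (kJ hN hq g : (sr q).M)⁻¹ * g := rfl

theorem continuous_rJ0 : Continuous (rJ0 hN hq) := by
  refine Continuous.subtype_mk (f := fun g : MJ hN q => (((kJ hN hq g)⁻¹ * g : MJ hN q) : (sr q).M)) ?_ _
  exact continuous_subtype_val.comp ((continuous_kJ hN hq).inv.mul continuous_id)

theorem rJ0_eq {g g' : MJ hN q} (h : (g : (sr q).M)⁻¹ * g' ∈ (sr q).Z0) : rJ0 hN hq g = rJ0 hN hq g' := by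
  obtain ⟨c, hc, h2⟩ := h
  have h3 : (sr q).mt g' = c • (sr q).mt g := by
    have h4 : (sr q).mt g * (sr q).mt ((g : (sr q).M)⁻¹ * g') = (sr q).mt g' := by rw [← Sg.mt_mul, mul_inv_cancel_left]
    rw [← h4, h2, Matrix.mul_smul, Matrix.mul_one]
  have hcc := star_mul_self_of_norm hc
  have hcc' : c * star c = 1 := by rw [mul_comm, hcc]
  have h4 : ci hN (g' : (sr q).M) = ci hN (g : (sr q).M) := by
    have h5 : nl hN ((sr q).mt g') = nl hN ((sr q).mt g) := by
      unfold nl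
      refine Finset.sum_congr rfl fun k _ => ?_
      rw [h3, Matrix.smul_apply, smul_eq_mul, norm_mul, hc, one_mul]
    unfold ci
    rw [h5]
  have h5 : Uu hN (g' : (sr q).M) = c • Uu hN (g : (sr q).M) := by
    rw [Uu_eq, Uu_eq, h3, h4, Matrix.smul_mul, smul_comm]
  have h6 : kk q ((sr q).mt g') (Uu hN (g' : (sr q).M)) = c • kk q ((sr q).mt g) (Uu hN (g : (sr q).M)) := by
    unfold kk mm
    rw [h5, h3, conjTranspose_smul, Matrix.smul_mul c (Uu hN _) _, Matrix.mul_smul _ (star c) _, smul_smul c (star c), hcc', one_smul,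
      Matrix.smul_mul, Matrix.mul_smul _ c, Matrix.mul_smul _ c, Matrix.smul_mul, smul_add, smul_add]
  have h7 : gg q ((sr q).mt g') (Uu hN (g' : (sr q).M)) = gg q ((sr q).mt g) (Uu hN (g : (sr q).M)) := by
    unfold gg
    rw [h6, conjTranspose_smul, Matrix.smul_mul, Matrix.mul_smul, smul_smul, hcc, one_smul]
  have h8 : ko q ((sr q).mt g') (Uu hN (g' : (sr q).M)) = c • ko q ((sr q).mt g) (Uu hN (g : (sr q).M)) := by
    unfold ko ri
    rw [h6, h7, Matrix.smul_mul]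
  refine Subtype.ext ((sr q).mt_inj ?_)
  rw [rJ0_coe, rJ0_coe, Sg.mt_mul, Sg.mt_mul, mt_kJ_inv, mt_kJ_inv, h8, h3, conjTranspose_smul, Matrix.smul_mul, Matrix.mul_smul,
    smul_smul, hcc, one_smul]

/-- the decomposition -/
noncomputable def rJ (x : GJ hN q) : QJ hN q := prQJ hN q (rJ0 hN hq (Function.surjInv (prJ_surj hN q) x))

theorem rJ_prJ (g : MJ hN q) : rJ hN hq (prJ hN q g) = prQJ hN q (rJ0 hN hq g) := by
  unfold rJ
  rw [rJ0_eq hN hq (prJ_eq hN (Function.surjInv_eq (prJ_surj hN q) (prJ hN q g)))]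

theorem continuous_rJ : Continuous (rJ hN hq) := by
  rw [(isQuotientMap_prJ hN q).continuous_iff]
  exact ((continuous_prQJ hN q).comp (continuous_rJ0 hN hq)).congr fun g => (rJ_prJ hN hq g).symm

theorem kr_J (x : GJ hN q) : x * (rJ hN hq x : GJ hN q)⁻¹ ∈ prJ hN q '' UJ hN := by
  obtain ⟨g, rfl⟩ := prJ_surj hN q x
  refine ⟨kJ hN hq g, isU_ko' hN hq g, ?_⟩
  rw [rJ_prJ]
  have h1 : ((prQJ hN q (rJ0 hN hq g) : QJ hN q) : GJ hN q) = prJ hN q ((kJ hN hq g)⁻¹ * g) := Subtype.ext rfl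
  rw [h1, ← map_inv, ← map_mul]
  congr 1
  group

include hq in
/-- **The decomposition.** -/
theorem exists_dec : ∃ r : GJ hN q → QJ hN q, Continuous r ∧ ∀ x, x * (r x : GJ hN q)⁻¹ ∈ prJ hN q '' UJ hN :=
  ⟨rJ hN hq, continuous_rJ hN hq, kr_J hN hq⟩

end Pool.Agent.Helper87.OB1
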