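import Pool.Agent.Helper87.OB.N2J
import Pool.Agent.Helper55.TZ.Am

/-!
# Project OB (MP_0f6f3f_an), layer TZ, node 2: the group `O(J)` modulo `± 1`

`th g = J (g⁻¹)ᴴ J`, `MJ`: the real matrices `g` with `gᴴ J g = J`, `GJ`: its image in `GG`, `HQ = MJ ∩ Qh`, `QJ`: its image in `GJ`. `nbJ : QJ → SL`: the block `{0, 1}`, normalised.
-/

set_option autoImplicit false
set_option linter.unusedSectionVars false

open Filter Topology Matrix

namespace Pool.Agent.Helper87.OB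

open Pool.Agent.Helper90.RK Pool.Agent.Helper84.NI Pool.Agent.Helper78.BI Pool.Agent.Helper55.OB Pool.Agent.Helper9
open Pool.Agent.Helper35.FP Pool.Agent.Helper55.TZ
open Pool.Agent.Helper9.Lin (cjM cjM_apply cjM_mul cjM_add cjM_one cjM_star cjM_cjM)

variable {N : ℕ}

/-- the real matrices -/
noncomputable abbrev sr (q : Fin N) : Sg N q := Pool.Agent.Helper9.Fra.sgR N q

theorem open_of {q : Fin N} (s : Sg N q) {H : Subgroup s.M} (hZ : s.Z0 ≤ H) {Y : Type} [TopologicalSpace Y] {ι : Y → s.GG}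
    (hι : Continuous ι) (hi : Function.Injective ι) {f : H → Y} (hf : ∀ g : H, ι (f g) = s.pr (g : s.M))
    (hs : Function.Surjective f) : IsOpenMap f := by
  intro U hU
  obtain ⟨V, hV, rfl⟩ := isOpen_induced_iff.1 hU
  have h : f '' (Subtype.val ⁻¹' V) = ι ⁻¹' (s.pr '' V) := by
    ext x
    constructor
    · rintro ⟨g, hg, rfl⟩
      exact ⟨g, hg, (hf g).symm⟩
    · rintro ⟨v, hv, hx⟩
      obtain ⟨g, rfl⟩ := hs x
      rw [hf] at hx
      have h1 : (g : s.M)⁻¹ * v ∈ s.Z0 := QuotientGroup.eq.1 (show ((g : s.M) : s.GG) = (v : s.GG) from hx.symm)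
      have h2 : v ∈ H := by
        have h3 := H.mul_mem g.2 (hZ h1)
        rwa [mul_inv_cancel_left] at h3
      exact ⟨⟨v, h2⟩, hv, hi (by rw [hf, hf]; exact hx)⟩
  rw [h]
  exact (QuotientGroup.isOpenMap_coe V hV).preimage hι

variable (hN : 5 ≤ N) (q : Fin N)

/-- the involution -/
noncomputable def th : (sr q).M →* (sr q).M where
  toFun g := (sr q).mkm (JJ N * ((sr q).mt g⁻¹)ᴴ * JJ N) (JJ N * ((sr q).mt g)ᴴ * JJ N)
    (by
      calc JJ N * ((sr q).mt g⁻¹)ᴴ * JJ N * (JJ N * ((sr q).mt g)ᴴ * JJ N)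
          = JJ N * (((sr q).mt g⁻¹)ᴴ * (JJ N * JJ N) * ((sr q).mt g)ᴴ) * JJ N := by simp only [Matrix.mul_assoc]
        _ = 1 := by rw [JJ_JJ hN, Matrix.mul_one, ← conjTranspose_mul, (sr q).mt_mul_inv, conjTranspose_one, Matrix.mul_one, JJ_JJ hN])
    (by
      change cjM (JJ N * ((sr q).mt g⁻¹)ᴴ * JJ N) = _
      rw [cjM_mul, cjM_mul, JJ_cj, cjM_star]
      congr 3
      exact (sr q).σ_mt g⁻¹)
  map_one' := by
    refine (sr q).mt_inj ?_
    rw [Sg.mt_mkm, inv_one, Sg.mt_one, conjTranspose_one, Matrix.mul_one, JJ_JJ hN]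
  map_mul' g h := by
    refine (sr q).mt_inj ?_
    change JJ N * ((sr q).mt (g * h)⁻¹)ᴴ * JJ N = JJ N * ((sr q).mt g⁻¹)ᴴ * JJ N * (JJ N * ((sr q).mt h⁻¹)ᴴ * JJ N)
    rw [_root_.mul_inv_rev, Sg.mt_mul, conjTranspose_mul]
    calc JJ N * (((sr q).mt g⁻¹)ᴴ * ((sr q).mt h⁻¹)ᴴ) * JJ N
        = JJ N * ((sr q).mt g⁻¹)ᴴ * 1 * ((sr q).mt h⁻¹)ᴴ * JJ N := by
          rw [Matrix.mul_one]
          simp only [Matrix.mul_assoc]
      _ = _ := by
          rw [← JJ_JJ hN]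
          simp only [Matrix.mul_assoc]

theorem mt_th (g : (sr q).M) : (sr q).mt (th hN q g) = JJ N * ((sr q).mt g⁻¹)ᴴ * JJ N := rfl

theorem mt_th_inv (g : (sr q).M) : (sr q).mt (th hN q g)⁻¹ = JJ N * ((sr q).mt g)ᴴ * JJ N := rfl

theorem continuous_th : Continuous (th hN q) := by
  refine (sr q).continuous_to ?_ ?_
  · change Continuous fun g : (sr q).M => JJ N * ((sr q).mt g⁻¹)ᴴ * JJ N
    exact (continuous_const.mul ((sr q).continuous_mt.comp continuous_inv).matrix_conjTranspose).mul continuous_const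
  · change Continuous fun g : (sr q).M => JJ N * ((sr q).mt g)ᴴ * JJ N
    exact (continuous_const.mul (sr q).continuous_mt.matrix_conjTranspose).mul continuous_const

theorem th_th (g : (sr q).M) : th hN q (th hN q g) = g := by
  refine (sr q).mt_inj ?_
  rw [mt_th, mt_th_inv, conjTranspose_mul, conjTranspose_mul, conjTranspose_conjTranspose, JJ_star hN]
  calc JJ N * (JJ N * ((sr q).mt g * JJ N)) * JJ N = (JJ N * JJ N) * (sr q).mt g * (JJ N * JJ N) := by
        simp only [Matrix.mul_assoc]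
    _ = _ := by rw [JJ_JJ hN, Matrix.one_mul, Matrix.mul_one]

/-- the real matrices which preserve the form -/
noncomputable def MJ : Subgroup (sr q).M := (th hN q).eqLocus (MonoidHom.id _)

theorem mem_MJ' {g : (sr q).M} : g ∈ MJ hN q ↔ th hN q g = g := Iff.rfl

theorem mem_MJ {g : (sr q).M} : g ∈ MJ hN q ↔ ((sr q).mt g)ᴴ * JJ N * (sr q).mt g = JJ N := by
  rw [mem_MJ']
  constructor
  · intro h
    have h1 : (sr q).mt g = JJ N * ((sr q).mt g⁻¹)ᴴ * JJ N := by rw [← mt_th hN, h]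
    have h2 : ((sr q).mt g)ᴴ * ((sr q).mt g⁻¹)ᴴ = 1 := by
      rw [← conjTranspose_mul, (sr q).mt_inv_mul, conjTranspose_one]
    calc ((sr q).mt g)ᴴ * JJ N * (sr q).mt g = ((sr q).mt g)ᴴ * JJ N * (JJ N * ((sr q).mt g⁻¹)ᴴ * JJ N) := by
          conv_lhs => rw [h1]
          rw [← h1]
      _ = ((sr q).mt g)ᴴ * (JJ N * JJ N) * ((sr q).mt g⁻¹)ᴴ * JJ N := by simp only [Matrix.mul_assoc]
      _ = JJ N := by rw [JJ_JJ hN, Matrix.mul_one, h2, Matrix.one_mul]
  · intro h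
    refine (sr q).mt_inj ?_
    rw [mt_th]
    have h2 : ((sr q).mt g⁻¹)ᴴ * ((sr q).mt g)ᴴ = 1 := by
      rw [← conjTranspose_mul, (sr q).mt_mul_inv, conjTranspose_one]
    calc JJ N * ((sr q).mt g⁻¹)ᴴ * JJ N = JJ N * ((sr q).mt g⁻¹)ᴴ * (((sr q).mt g)ᴴ * JJ N * (sr q).mt g) := by rw [h]
      _ = JJ N * (((sr q).mt g⁻¹)ᴴ * ((sr q).mt g)ᴴ) * JJ N * (sr q).mt g := by simp only [Matrix.mul_assoc]
      _ = _ := by rw [h2, Matrix.mul_one, JJ_JJ hN, Matrix.one_mul]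

theorem isClosed_MJ : IsClosed (MJ hN q : Set (sr q).M) := isClosed_eq (continuous_th hN q) continuous_id

theorem Z0_le_MJ : (sr q).Z0 ≤ MJ hN q := by
  rintro z ⟨c, hc, h⟩
  rw [mem_MJ, h, conjTranspose_smul, Matrix.smul_mul, Matrix.mul_smul, Matrix.smul_mul, smul_smul, mul_comm, star_mul_self_of_norm hc,
    one_smul, conjTranspose_one, Matrix.one_mul, Matrix.mul_one]

/-- the group `O(J)` modulo `± 1` -/
noncomputable def GJ : Subgroup (sr q).GG := (MJ hN q).map (sr q).pr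

theorem pr_mem_GJ {g : (sr q).M} : (sr q).pr g ∈ GJ hN q ↔ g ∈ MJ hN q := by
  constructor
  · rintro ⟨h, hh, e⟩
    have h1 : h⁻¹ * g ∈ (sr q).Z0 := QuotientGroup.eq.1 e
    have h2 := (MJ hN q).mul_mem hh (Z0_le_MJ hN q h1)
    rwa [mul_inv_cancel_left] at h2
  · intro h
    exact ⟨g, h, rfl⟩

theorem isClosed_GJ : IsClosed (GJ hN q : Set (sr q).GG) := by
  have h : IsQuotientMap (sr q).pr := isQuotientMap_quotient_mk'
  rw [← h.isClosed_preimage]
  have h1 : (sr q).pr ⁻¹' (GJ hN q : Set (sr q).GG) = (MJ hN q : Set (sr q).M) := by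
    ext g
    exact pr_mem_GJ hN q
  rw [h1]
  exact isClosed_MJ hN q

instance locallyCompact_GJ : LocallyCompactSpace (GJ hN q) := (isClosed_GJ hN q).isClosedEmbedding_subtypeVal.locallyCompactSpace

instance t2_GJ : T2Space (GJ hN q) := inferInstance

/-- the projection -/
noncomputable def prJ : MJ hN q →* GJ hN q := (sr q).pr.subgroupMap (MJ hN q)

theorem prJ_coe (g : MJ hN q) : (prJ hN q g : (sr q).GG) = (sr q).pr g := rfl

theorem prJ_surj : Function.Surjective (prJ hN q) := (sr q).pr.subgroupMap_surjective _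

theorem continuous_prJ : Continuous (prJ hN q) :=
  Continuous.subtype_mk (f := fun g : MJ hN q => (sr q).pr g) (continuous_quotient_mk'.comp continuous_subtype_val) _

theorem isQuotientMap_prJ : IsQuotientMap (prJ hN q) :=
  (open_of (sr q) (Z0_le_MJ hN q) continuous_subtype_val Subtype.val_injective (fun _ => rfl) (prJ_surj hN q)).isQuotientMap
    (continuous_prJ hN q) (prJ_surj hN q)

/-- the parabolic subgroup -/
noncomputable def QJ : Subgroup (GJ hN q) := (sr q).QG.subgroupOf (GJ hN q)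

/-- the parabolic subgroup of `MJ` -/
noncomputable def HQ : Subgroup (sr q).M := MJ hN q ⊓ (sr q).Qh

theorem Z0_le_HQ : (sr q).Z0 ≤ HQ hN q := le_inf (Z0_le_MJ hN q) (sr q).Z0_le

/-- the projection -/
noncomputable def prQJ : HQ hN q →* QJ hN q where
  toFun g := ⟨prJ hN q ⟨g, g.2.1⟩, (sr q).pr_mem_QG.2 g.2.2⟩
  map_one' := Subtype.ext (map_one (prJ hN q))
  map_mul' g h := Subtype.ext (map_mul (prJ hN q) ⟨g, g.2.1⟩ ⟨h, h.2.1⟩)

theorem prQJ_coe (g : HQ hN q) : ((prQJ hN q g : GJ hN q) : (sr q).GG) = (sr q).pr g := rfl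

theorem prQJ_surj : Function.Surjective (prQJ hN q) := by
  intro x
  obtain ⟨g, hg⟩ := prJ_surj hN q (x : GJ hN q)
  have h1 : (sr q).pr (g : (sr q).M) ∈ (sr q).QG := by
    rw [← prJ_coe, hg]
    exact x.2
  refine ⟨⟨g, g.2, (sr q).pr_mem_QG.1 h1⟩, Subtype.ext ?_⟩
  exact hg

theorem continuous_prQJ : Continuous (prQJ hN q) := by
  refine Continuous.subtype_mk (f := fun g : HQ hN q => prJ hN q ⟨g, g.2.1⟩) ?_ _
  exact (continuous_prJ hN q).comp (Continuous.subtype_mk continuous_subtype_val _)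

theorem isOpenMap_prQJ : IsOpenMap (prQJ hN q) :=
  open_of (sr q) (Z0_le_HQ hN q) (ι := fun x : QJ hN q => ((x : GJ hN q) : (sr q).GG))
    (continuous_subtype_val.comp continuous_subtype_val) (Subtype.val_injective.comp Subtype.val_injective) (fun _ => rfl)
    (prQJ_surj hN q)

/-- the inclusion of the parabolic subgroups -/
noncomputable def inQ : QJ hN q →* (sr q).QG := (GJ hN q).subtype.subgroupComap (sr q).QG

theorem inQ_coe (x : QJ hN q) : (inQ hN q x : (sr q).GG) = ((x : GJ hN q) : (sr q).GG) := rfl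

theorem continuous_inQ : Continuous (inQ hN q) :=
  Continuous.subtype_mk (f := fun x : QJ hN q => ((x : GJ hN q) : (sr q).GG)) (continuous_subtype_val.comp continuous_subtype_val) _

/-- the block -/
noncomputable def nbJ : QJ hN q →* (sr q).SL := (sr q).nbG.comp (inQ hN q)

theorem continuous_nbJ : Continuous (nbJ hN q) := (sr q).geo.nbc.comp (continuous_inQ hN q)

theorem nbJ_prQJ (g : HQ hN q) : nbJ hN q (prQJ hN q g) = (sr q).nb0 ⟨g, g.2.2⟩ := by
  have h : inQ hN q (prQJ hN q g) = (sr q).prQ ⟨g, g.2.2⟩ := Subtype.ext rfl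
  change (sr q).nbG (inQ hN q (prQJ hN q g)) = _
  rw [h, (sr q).nbG_prQ]

theorem isClosed_QJ : IsClosed (QJ hN q : Set (GJ hN q)) := (sr q).isClosed_Q.preimage continuous_subtype_val

section Blk

variable {q} (hq : (q : ℕ) = 1) {a : (sr q).M} (ha : Pool.Agent.Helper78.BI.bk q ((sr q).mt a) = (sr q).mt a)

include ha in
theorem bk_inv : Pool.Agent.Helper78.BI.bk q ((sr q).mt a⁻¹) = (sr q).mt a⁻¹ := by
  have h : Lb q ((sr q).mt a) := by
    rw [← ha]
    exact lb_bk _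
  have h1 : Pool.Agent.Helper78.BI.bk q ((sr q).mt a) * Pool.Agent.Helper78.BI.bk q ((sr q).mt a⁻¹) = 1 := by
    rw [← bk_mul h, (sr q).mt_mul_inv, bk_one]
  rw [ha] at h1
  calc Pool.Agent.Helper78.BI.bk q ((sr q).mt a⁻¹)
      = (sr q).mt a⁻¹ * ((sr q).mt a * Pool.Agent.Helper78.BI.bk q ((sr q).mt a⁻¹)) := by
        rw [← Matrix.mul_assoc, (sr q).mt_inv_mul, Matrix.one_mul]
    _ = _ := by rw [h1, Matrix.mul_one]

include hq ha in
theorem mt_th_blk : (sr q).mt (th hN q a) = E2 q * (sr q).mt (th hN q a) * E2 q + Ef q + Em q := by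
  have h1 : (sr q).mt a⁻¹ = Ef q * (sr q).mt a⁻¹ * Ef q + Ee q := (bk_inv ha).symm
  have h2 : ((sr q).mt a⁻¹)ᴴ = Ef q * ((sr q).mt a⁻¹)ᴴ * Ef q + Ee q := by
    conv_lhs => rw [h1]
    rw [conjTranspose_add, conjTranspose_mul, conjTranspose_mul, Ef_star, Ee_star, Matrix.mul_assoc]
  have h3 : JJ N * Ee q * JJ N = Ef q + Em q := by
    rw [Ee_eq, Matrix.mul_sub, Matrix.sub_mul, Matrix.mul_one, JJ_JJ hN]
    change 1 - E2 q = _
    rw [← Em_add (q := q)]
    abel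
  have h4 : JJ N * (Ef q * ((sr q).mt a⁻¹)ᴴ * Ef q) * JJ N = E2 q * (sr q).mt (th hN q a) * E2 q := by
    rw [mt_th]
    calc JJ N * (Ef q * ((sr q).mt a⁻¹)ᴴ * Ef q) * JJ N = JJ N * Ef q * ((sr q).mt a⁻¹)ᴴ * (Ef q * JJ N) := by
          simp only [Matrix.mul_assoc]
      _ = E2 q * JJ N * ((sr q).mt a⁻¹)ᴴ * (JJ N * E2 q) := by rw [JJ_Ef hN, Ef_JJ hN]
      _ = _ := by simp only [Matrix.mul_assoc]
  rw [← h4, add_assoc, ← h3, ← Matrix.add_mul, ← Matrix.mul_add, ← h2, mt_th]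

include hN hq in
theorem alg_mul {X Y : MN N} (x1 : X * Ef q = X) (y1 : E2 q * Y = Y) : (X + Ee q) * (Y + Ef q + Em q) = X + Em q + Y := by
  have e1 : X * Y = 0 := by rw [← x1, ← y1, Matrix.mul_assoc, ← Matrix.mul_assoc (Ef q), Ef_E2 hN hq, Matrix.zero_mul, Matrix.mul_zero]
  have e2 : X * Em q = 0 := by rw [← x1, Matrix.mul_assoc, Ef_Em hN hq, Matrix.mul_zero]
  have e3 : Ee q * Y = Y := by rw [← y1, ← Matrix.mul_assoc, Ee_E2 hN hq]
  rw [Matrix.add_mul, Matrix.mul_add, Matrix.mul_add, Matrix.mul_add, Matrix.mul_add, e1, x1, e2, e3, Ee_Ef, Ee_Em hN hq]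
  abel

include hN hq in
theorem alg_mul' {X Y : MN N} (x1 : Ef q * X = X) (y1 : Y * E2 q = Y) : (Y + Ef q + Em q) * (X + Ee q) = X + Em q + Y := by
  have e1 : Y * X = 0 := by rw [← x1, ← y1, Matrix.mul_assoc, ← Matrix.mul_assoc (E2 q), E2_Ef hN hq, Matrix.zero_mul, Matrix.mul_zero]
  have e2 : Em q * X = 0 := by rw [← x1, ← Matrix.mul_assoc, Em_Ef hN hq, Matrix.zero_mul]
  have e3 : Y * Ee q = Y := by rw [← y1, Matrix.mul_assoc, E2_Ee hN hq]
  rw [Matrix.add_mul, Matrix.add_mul, Matrix.mul_add, Matrix.mul_add, Matrix.mul_add, e1, x1, e2, e3, Ef_Ee, Em_Ee hN hq]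
  abel

include hq ha in
theorem mt_mul_th : (sr q).mt (a * th hN q a) = Ef q * (sr q).mt a * Ef q + Em q + E2 q * (sr q).mt (th hN q a) * E2 q := by
  rw [← alg_mul hN hq (X := Ef q * (sr q).mt a * Ef q) (Y := E2 q * (sr q).mt (th hN q a) * E2 q)
    (by rw [Matrix.mul_assoc _ (Ef q) (Ef q), Ef_Ef]) (by rw [← Matrix.mul_assoc, ← Matrix.mul_assoc, E2_E2 hN]),
    ← mt_th_blk hN hq ha, Sg.mt_mul]
  congr 1
  exact ha.symm

include hq ha in
theorem mt_th_mul : (sr q).mt (th hN q a * a) = Ef q * (sr q).mt a * Ef q + Em q + E2 q * (sr q).mt (th hN q a) * E2 q := by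
  rw [← alg_mul' hN hq (X := Ef q * (sr q).mt a * Ef q) (Y := E2 q * (sr q).mt (th hN q a) * E2 q)
    (by rw [← Matrix.mul_assoc, ← Matrix.mul_assoc, Ef_Ef]) (by rw [Matrix.mul_assoc _ (E2 q) (E2 q), E2_E2 hN]),
    ← mt_th_blk hN hq ha, Sg.mt_mul]
  congr 1
  exact ha.symm

include hq ha in
/-- elements of the block `{0, 1}` give elements of `MJ` -/
theorem mul_th_mem : a * th hN q a ∈ MJ hN q := by
  rw [mem_MJ', map_mul, th_th]
  exact (sr q).mt_inj (by rw [mt_th_mul hN hq ha, mt_mul_th hN hq ha])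

include hN hq in
theorem alg_Ef (X Y : MN N) : Ef q * (Ef q * X * Ef q + Em q + E2 q * Y * E2 q) = Ef q * X * Ef q := by
  rw [Matrix.mul_add, Matrix.mul_add, Ef_Em hN hq, add_zero, ← Matrix.mul_assoc, ← Matrix.mul_assoc, Ef_Ef,
    ← Matrix.mul_assoc (Ef q) (E2 q * Y), ← Matrix.mul_assoc (Ef q) (E2 q), Ef_E2 hN hq, Matrix.zero_mul, Matrix.zero_mul, add_zero]

include hq ha in
theorem bk_mul_th : Pool.Agent.Helper78.BI.bk q ((sr q).mt (a * th hN q a)) = (sr q).mt a := by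
  rw [mt_mul_th hN hq ha]
  conv_rhs => rw [← ha]
  unfold Pool.Agent.Helper78.BI.bk
  rw [alg_Ef hN hq, Matrix.mul_assoc _ (Ef q) (Ef q), Ef_Ef]

include hq ha in
theorem lb_mul_th : Lb q ((sr q).mt (a * th hN q a)) := by
  rw [mt_mul_th hN hq ha]
  unfold Lb
  rw [alg_Ef hN hq, Matrix.mul_assoc _ (Ef q) (Ee q), Ef_Ee, Matrix.mul_zero]

end Blk

/-- the section of the block -/
noncomputable def jse (hq : (q : ℕ) = 1) (h : Lin.Sh (sr q).low) : HQ hN q :=
  ⟨(seh (sr q) h : (sr q).M) * th hN q (seh (sr q) h), mul_th_mem hN hq (bk_embE (sr q) h), lb_mul_th hN hq (bk_embE (sr q) h)⟩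

theorem continuous_jse (hq : (q : ℕ) = 1) : Continuous (jse hN q hq) := by
  refine Continuous.subtype_mk (f := fun h : Lin.Sh (sr q).low => (seh (sr q) h : (sr q).M) * th hN q (seh (sr q) h)) ?_ _
  have h1 : Continuous fun h : Lin.Sh (sr q).low => (seh (sr q) h : (sr q).M) :=
    continuous_subtype_val.comp (continuous_seh (sr q))
  exact h1.mul ((continuous_th hN q).comp h1)

theorem nbl_jse (hq : (q : ℕ) = 1) (h : Lin.Sh (sr q).low) :
    (sr q).nbl ⟨jse hN q hq h, (jse hN q hq h).2.2⟩ = h := by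
  refine (Lin.mat_injective ?_).trans (nbl_seh (sr q) h)
  rw [Sg.mat_nbl, Sg.mat_nbl]
  have h1 : Pool.Agent.Helper78.BI.bk q ((sr q).mt (jse hN q hq h : (sr q).M)) =
      Pool.Agent.Helper78.BI.bk q ((sr q).mt (seh (sr q) h : (sr q).M)) := by
    rw [show Pool.Agent.Helper78.BI.bk q ((sr q).mt (seh (sr q) h : (sr q).M)) = (sr q).mt (seh (sr q) h : (sr q).M)
      from bk_embE (sr q) h]
    exact bk_mul_th hN hq (bk_embE (sr q) h)
  change cor q (nu q ((sr q).mt (jse hN q hq h : (sr q).M))) = cor q (nu q ((sr q).mt (seh (sr q) h : (sr q).M)))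
  unfold nu Pool.Agent.Helper78.BI.dt
  rw [h1]

theorem nbJ_surj (hq : (q : ℕ) = 1) : Function.Surjective (nbJ hN q) := by
  intro x
  obtain ⟨h, rfl⟩ := QuotientGroup.mk'_surjective (Lin.Zc (sr q).low) x
  refine ⟨prQJ hN q (jse hN q hq h), ?_⟩
  rw [nbJ_prQJ]
  change QuotientGroup.mk' _ ((sr q).nbl _) = _
  rw [nbl_jse]

/-- The block map is open. -/
theorem isOpenMap_nbJ (hq : (q : ℕ) = 1) : IsOpenMap (nbJ hN q) := by
  intro W hW
  let f : HQ hN q →* Lin.Sh (sr q).low := (sr q).nbl.comp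
    { toFun := fun g : HQ hN q => (⟨g, g.2.2⟩ : (sr q).Qh), map_one' := rfl, map_mul' := fun _ _ => rfl }
  have hf : IsOpenMap f := isOpenMap_of_section f (jse hN q hq) (continuous_jse hN q hq) (nbl_jse hN q hq)
  have h1 : nbJ hN q '' W = QuotientGroup.mk' (Lin.Zc (sr q).low) '' (f '' (prQJ hN q ⁻¹' W)) := by
    ext x
    constructor
    · rintro ⟨y, hy, rfl⟩
      obtain ⟨g, rfl⟩ := prQJ_surj hN q y
      exact ⟨f g, ⟨g, hy, rfl⟩, (nbJ_prQJ hN q g).symm⟩
    · rintro ⟨_, ⟨g, hg, rfl⟩, rfl⟩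
      exact ⟨prQJ hN q g, hg, nbJ_prQJ hN q g⟩
  rw [h1]
  exact QuotientGroup.isOpenMap_coe (N := Lin.Zc (sr q).low) _ (hf _ (hW.preimage (continuous_prQJ hN q)))

end Pool.Agent.Helper87.OB
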