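import Pool.Agent.Helper87.OB.N2R

/-!
# Project OB (MP_0f6f3f_an), layer TZ, node 2: the frames

`gfJ γ`: the class of `κ(γ) dJ(γ)`, `dJ = dd · th dd`. `covJ`, `ucJ`, `cptJ`: the properties of the frames for a stratum whose first block is `{0, 1}`.
-/

set_option autoImplicit false
set_option linter.unusedSectionVars false

open Filter Topology Matrix Pointwise

namespace Pool.Agent.Helper87.OB

open Pool.Agent.Helper90.RK Pool.Agent.Helper84.NI Pool.Agent.Helper78.BI Pool.Agent.Helper55.OB Pool.Agent.Helper9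
open Pool.Agent.Helper35.FP Pool.Agent.Helper55.TZ Pool.Agent.Helper84.GN.S3
open Pool.Agent.Helper9.Lin (cjM cjM_apply cjM_mul cjM_add cjM_one cjM_star cjM_cjM)

section Gen

variable {N : ℕ} {q : Fin N} {G : Type} [Group G] {P : PH G N}

theorem Ef_D' {b : Fin N → ℕ} (hb : ∀ i, b i = 0 ↔ i ≤ q) (A : MN N) : Ef q * D b A = Ef q * A * Ef q := by
  ext i j
  rw [mul_Ef_apply, Ef_mul_apply, Ef_mul_apply, D_apply]
  by_cases hi : i ≤ q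
  · have h1 : b i = b j ↔ j ≤ q := by
      rw [(hb i).2 hi, ← hb j]
      exact eq_comm
    by_cases hj : j ≤ q
    · simp [hi, hj, h1.2 hj]
    · simp [hi, hj, h1]
  · simp [hi]

theorem D_Ef' {b : Fin N → ℕ} (hb : ∀ i, b i = 0 ↔ i ≤ q) (A : MN N) : D b A * Ef q = Ef q * A * Ef q := by
  ext i j
  rw [mul_Ef_apply, mul_Ef_apply, Ef_mul_apply, D_apply]
  by_cases hj : j ≤ q
  · have h1 : b i = b j ↔ i ≤ q := by
      rw [(hb j).2 hj, ← hb i]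
    by_cases hi : i ≤ q
    · simp [hi, hj, h1.2 hi]
    · simp [hi, hj, h1]
  · simp [hj]

variable {s : Sg N q} {S : Sv P} (F : Fra s S)

/-- the block of the comparison element -/
theorem block_pp' (T : Str S) (hb : ∀ i, T.b i = 0 ↔ i ≤ q) {k γ : G} {O : MN N} (hO : D T.b O = O) {c : ℂ}
    (h : T.C 1 k γ * S.X (γ * k) = c • (S.X γ * O)) :
    ∃ z : ℂ, Ef q * s.mt (F.pp k γ) * Ef q = z • (Ef q * O * Ef q) := by
  obtain ⟨t, ht⟩ : ∃ t : ℝ, t = Pool.Agent.Helper78.BI.dt q (S.X γ) := ⟨_, rfl⟩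
  obtain ⟨t', ht'⟩ : ∃ t' : ℝ, t' = Pool.Agent.Helper78.BI.dt q (S.X (γ * k)) := ⟨_, rfl⟩
  have ht0 : t ≠ 0 := by rw [ht]; exact (Fra.dtX_pos γ).ne'
  have ht0' : t' ≠ 0 := by rw [ht']; exact (Fra.dtX_pos _).ne'
  have e1 : Ef q * S.X γ = (t : ℂ) • (Ef q * s.mt (F.dd γ)) := by
    rw [ht, Fra.mt_dd]
    exact Fra.Ef_nu_diag (Fra.dtX_pos (q := q) (S := S) γ).ne'
  have e1' : Ef q * S.X (γ * k) = (t' : ℂ) • (Ef q * s.mt (F.dd (γ * k))) := by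
    rw [ht', Fra.mt_dd]
    exact Fra.Ef_nu_diag (Fra.dtX_pos (q := q) (S := S) (γ * k)).ne'
  have c1 : ∀ γ, Ef q * s.mt (F.dd γ) = s.mt (F.dd γ) * Ef q := by
    intro γ
    rw [Fra.mt_dd]
    unfold Sv.X
    rw [Fra.nu_diag, Fra.Ef_diag]
  have c2 : ∀ γ, Ef q * s.mt (F.dd γ)⁻¹ = s.mt (F.dd γ)⁻¹ * Ef q := by
    intro γ
    calc Ef q * s.mt (F.dd γ)⁻¹ = s.mt (F.dd γ)⁻¹ * (s.mt (F.dd γ) * Ef q) * s.mt (F.dd γ)⁻¹ := by
          rw [← Matrix.mul_assoc, s.mt_inv_mul, Matrix.one_mul]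
      _ = s.mt (F.dd γ)⁻¹ * Ef q := by
          rw [← c1, Matrix.mul_assoc, Matrix.mul_assoc, s.mt_mul_inv, Matrix.mul_one]
  have c3 : ∀ γ, Ef q * S.X γ = S.X γ * Ef q := fun γ => Fra.Ef_diag _
  have cO : Ef q * O = O * Ef q := by rw [← hO, Ef_D' hb, D_Ef' hb]
  -- the block of the relation
  have h1 : (t' : ℂ) • (Ef q * S.m 1 k γ * (Ef q * s.mt (F.dd (γ * k)))) = (c * t) • (s.mt (F.dd γ) * (Ef q * O)) := by
    calc (t' : ℂ) • (Ef q * S.m 1 k γ * (Ef q * s.mt (F.dd (γ * k))))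
        = Ef q * S.m 1 k γ * (Ef q * S.X (γ * k)) := by rw [e1', Matrix.mul_smul]
      _ = Ef q * S.m 1 k γ * Ef q * S.X (γ * k) := by rw [Matrix.mul_assoc _ (Ef q)]
      _ = Ef q * (T.C 1 k γ * S.X (γ * k)) := by
          unfold Str.C
          rw [← Matrix.mul_assoc, Ef_D' hb]
      _ = c • (Ef q * S.X γ * O) := by rw [h, Matrix.mul_smul, ← Matrix.mul_assoc]
      _ = (c * t) • (s.mt (F.dd γ) * (Ef q * O)) := by
          rw [e1, Matrix.smul_mul, smul_smul, c1, Matrix.mul_assoc]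
  refine ⟨(t' : ℂ)⁻¹ * (c * t), ?_⟩
  have h2 : Ef q * s.mt (F.pp k γ) * Ef q = s.mt (F.dd γ)⁻¹ * (Ef q * S.m 1 k γ * (Ef q * s.mt (F.dd (γ * k)))) := by
    rw [Fra.mt_pp, c1 (γ * k)]
    calc Ef q * (s.mt (F.dd γ)⁻¹ * S.m 1 k γ * s.mt (F.dd (γ * k))) * Ef q
        = (Ef q * s.mt (F.dd γ)⁻¹) * S.m 1 k γ * (s.mt (F.dd (γ * k)) * Ef q) := by simp only [Matrix.mul_assoc]
      _ = _ := by
          rw [c2]
          simp only [Matrix.mul_assoc]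
  have ht0c : (t' : ℂ) ≠ 0 := Complex.ofReal_ne_zero.2 ht0'
  have h3 : Ef q * S.m 1 k γ * (Ef q * s.mt (F.dd (γ * k))) = ((t' : ℂ)⁻¹ * (c * t)) • (s.mt (F.dd γ) * (Ef q * O)) := by
    rw [← smul_smul, ← h1, smul_smul, inv_mul_cancel₀ ht0c, one_smul]
  rw [h2, h3, Matrix.mul_smul, ← Matrix.mul_assoc, s.mt_inv_mul, Matrix.one_mul, Matrix.mul_assoc (Ef q) O, ← cO,
    ← Matrix.mul_assoc, Ef_Ef]

/-- The limits of the comparison elements are elements of `Qh` whose block is unitary up to a scalar. -/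
theorem lim_pp' (T : Str S) (hb : ∀ i, T.b i = 0 ↔ i ≤ q) (k : G) {n : ℕ} {l : Filter G} [l.NeBot]
    (hl : l ≤ T.F n) {κ0 κ1 d0 d1 : s.M} (h0 : Tendsto F.κ l (𝓝 κ0)) (h1 : Tendsto (fun γ => F.κ (γ * k)) l (𝓝 κ1))
    (hd0 : Tendsto F.dd l (𝓝 d0)) (hd1 : Tendsto (fun γ => F.dd (γ * k)) l (𝓝 d1)) :
    (κ0 * d0)⁻¹ * F.ie k * (κ1 * d1) ∈ s.Qh ∧
      ∃ r : ℝ, 0 < r ∧ (bk q (s.mt ((κ0 * d0)⁻¹ * F.ie k * (κ1 * d1))))ᴴ *
        bk q (s.mt ((κ0 * d0)⁻¹ * F.ie k * (κ1 * d1))) = sc q r := by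
  have hp : Tendsto (F.pp k) l (𝓝 ((κ0 * d0)⁻¹ * F.ie k * (κ1 * d1))) :=
    ((h0.mul hd0).inv.mul_const _).mul (h1.mul hd1)
  have q0 : d0 ∈ s.Qh := Fra.isClosed_Qh.mem_of_tendsto hd0 (Eventually.of_forall fun γ => F.dd_mem γ)
  have q1 : d1 ∈ s.Qh := Fra.isClosed_Qh.mem_of_tendsto hd1 (Eventually.of_forall fun γ => F.dd_mem _)
  have qm : κ0⁻¹ * F.ie k * κ1 ∈ s.Qh := by
    have hm : Tendsto (fun γ => (F.κ γ)⁻¹ * F.ie k * F.κ (γ * k)) l (𝓝 (κ0⁻¹ * F.ie k * κ1)) :=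
      (h0.inv.mul_const _).mul h1
    have hm' := (s.continuous_mt.tendsto _).comp hm
    rw [Sg.mem_Qh, lb_iff]
    intro i j hi hj
    have h2 : Tendsto (fun γ => s.mt ((F.κ γ)⁻¹ * F.ie k * F.κ (γ * k)) i j) l (𝓝 (s.mt (κ0⁻¹ * F.ie k * κ1) i j)) :=
      ((continuous_id.matrix_elem i j).tendsto _).comp hm'
    have h3 := (T.tendsto_m 1 k n (i := i) (j := j) (by
      rw [(hb i).2 hi]
      exact Nat.pos_of_ne_zero fun h => absurd ((hb j).1 h) (not_le.2 hj))).mono_left hl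
    refine tendsto_nhds_unique h2 (h3.congr fun γ => ?_)
    unfold Sv.m
    rw [Sg.mt_mul, Sg.mt_mul, Fra.mt_κ, Fra.mt_κ_inv, Fra.mt_ie, inv_one, one_mul]
  have hpq : (κ0 * d0)⁻¹ * F.ie k * (κ1 * d1) ∈ s.Qh := by
    have h2 : (κ0 * d0)⁻¹ * F.ie k * (κ1 * d1) = d0⁻¹ * (κ0⁻¹ * F.ie k * κ1) * d1 := by group
    rw [h2]
    exact s.Qh.mul_mem (s.Qh.mul_mem (s.Qh.inv_mem q0) qm) q1
  refine ⟨hpq, block_scalar hpq (s.mt_mul_inv _) fun i j k' l' => ?_⟩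
  obtain ⟨O, hO, hc, hlim⟩ := T.C_right k
  have hpm := (s.continuous_mt.tendsto _).comp hp
  have hcA : Continuous fun A : MN N => (Ef q * A * Ef q)ᴴ * (Ef q * A * Ef q) := by
    have h2 : Continuous fun A : MN N => Ef q * A * Ef q := (continuous_const.mul continuous_id).mul continuous_const
    exact h2.matrix_conjTranspose.mul h2
  have hA : ∀ i j, Tendsto (fun γ => ((Ef q * s.mt (F.pp k γ) * Ef q)ᴴ * (Ef q * s.mt (F.pp k γ) * Ef q)) i j) l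
      (𝓝 (((Ef q * s.mt ((κ0 * d0)⁻¹ * F.ie k * (κ1 * d1)) * Ef q)ᴴ *
        (Ef q * s.mt ((κ0 * d0)⁻¹ * F.ie k * (κ1 * d1)) * Ef q)) i j)) := fun i j =>
    ((hcA.matrix_elem i j).tendsto _).comp hpm
  have hB : ∀ i j, Tendsto (fun γ => (Ef q * ((O γ)ᴴ * O γ) * Ef q) i j) l (𝓝 ((Ef q : MN N) i j)) := fun i j => by
    have h2 : Continuous fun A : MN N => Ef q * A * Ef q := (continuous_const.mul continuous_id).mul continuous_const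
    have h3 := ((h2.matrix_elem i j).tendsto _).comp ((hlim n).mono_left hl)
    rw [Matrix.mul_one, Ef_Ef] at h3
    exact h3
  have hrel : ∀ γ, ((Ef q * s.mt (F.pp k γ) * Ef q)ᴴ * (Ef q * s.mt (F.pp k γ) * Ef q)) i j *
      (Ef q * ((O γ)ᴴ * O γ) * Ef q) k' l' =
      ((Ef q * s.mt (F.pp k γ) * Ef q)ᴴ * (Ef q * s.mt (F.pp k γ) * Ef q)) k' l' *
      (Ef q * ((O γ)ᴴ * O γ) * Ef q) i j := by
    intro γ
    obtain ⟨c, -, h2⟩ := hc γ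
    obtain ⟨z, hz⟩ := block_pp' F T hb (hO γ) h2
    have cO : Ef q * O γ = O γ * Ef q := by rw [← hO γ, Ef_D' hb, D_Ef' hb]
    have h3 : (Ef q * s.mt (F.pp k γ) * Ef q)ᴴ * (Ef q * s.mt (F.pp k γ) * Ef q) =
        (star z * z) • (Ef q * ((O γ)ᴴ * O γ) * Ef q) := by
      rw [hz, conjTranspose_smul, Matrix.smul_mul, Matrix.mul_smul, smul_smul]
      congr 1
      rw [conjTranspose_mul, conjTranspose_mul, Ef_star]
      calc Ef q * ((O γ)ᴴ * Ef q) * (Ef q * O γ * Ef q) = Ef q * (O γ)ᴴ * (Ef q * Ef q * O γ) * Ef q := by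
            simp only [Matrix.mul_assoc]
        _ = Ef q * ((O γ)ᴴ * O γ) * (Ef q * Ef q) := by
            rw [Ef_Ef (q := q), cO]
            simp only [Matrix.mul_assoc, Ef_Ef]
        _ = _ := by rw [Ef_Ef]
    rw [h3, Matrix.smul_apply, Matrix.smul_apply, smul_eq_mul, smul_eq_mul]
    ring
  exact tendsto_nhds_unique ((hA i j).mul (hB k' l')) (((hA k' l').mul (hB i j)).congr fun γ => (hrel γ).symm)

end Gen

variable {N : ℕ} {G : Type} [Group G] {P : PH G N} {S : Sv P} (h : SO2 P S) {q : Fin N} (hq : (q : ℕ) = 1)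

theorem cjM_diag_real (v : Fin N → ℝ) : cjM (diagonal fun i => (v i : ℂ)) = diagonal fun i => (v i : ℂ) := by
  ext i j
  rw [cjM_apply, diagonal_apply]
  split_ifs <;> simp

include h in
theorem fraJ (q : Fin N) : Fra (sr q) S where
  ι g := h.real g
  kR g := h.realR g
  ds g := cjM_diag_real _

theorem bk_dd (γ : G) : bk q ((sr q).mt ((fraJ h q).dd γ)) = (sr q).mt ((fraJ h q).dd γ) := by
  rw [Fra.mt_dd, bk_nu]

/-- The normalised inverse singular values as an element of `O(J)`. -/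
noncomputable def dJ (q : Fin N) (γ : G) : (sr q).M := (fraJ h q).dd γ * th h.hN q ((fraJ h q).dd γ)

include hq in
theorem dJ_mem (γ : G) : dJ h q γ ∈ HQ h.hN q := ⟨mul_th_mem h.hN hq (bk_dd h γ), lb_mul_th h.hN hq (bk_dd h γ)⟩

theorem κ_mem (γ : G) : (fraJ h q).κ γ ∈ MJ h.hN q := by
  rw [mem_MJ, Fra.mt_κ, ← tr_eq_star (h.realR γ)]
  exact h.formR γ

theorem ie_mem (γ : G) : (fraJ h q).ie γ ∈ MJ h.hN q := by
  rw [mem_MJ, Fra.mt_ie, ← tr_eq_star (h.real γ)]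
  exact h.form γ

/-- The representation of `G`. -/
noncomputable def irJ (q : Fin N) : G →* GJ h.hN q := (fraJ h q).ir.codRestrict _ fun g => ⟨(fraJ h q).ie g, ie_mem h g, rfl⟩

theorem irJ_apply (g : G) : irJ h q g = prJ h.hN q ⟨(fraJ h q).ie g, ie_mem h g⟩ := rfl

/-- The points. -/
noncomputable def gfJ (γ : G) : GJ h.hN q :=
  prJ h.hN q ⟨(fraJ h q).κ γ * dJ h q γ, (MJ h.hN q).mul_mem (κ_mem h γ) (dJ_mem h hq γ).1⟩

theorem gfJ_eq (γ : G) : gfJ h hq γ = prJ h.hN q ⟨(fraJ h q).κ γ, κ_mem h γ⟩ * (prQJ h.hN q ⟨dJ h q γ, dJ_mem h hq γ⟩ : QJ h.hN q) :=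
  map_mul (prJ h.hN q) ⟨(fraJ h q).κ γ, κ_mem h γ⟩ ⟨dJ h q γ, (dJ_mem h hq γ).1⟩

include hq in
theorem nbJ_dJ (γ : G) : nbJ h.hN q (prQJ h.hN q ⟨dJ h q γ, dJ_mem h hq γ⟩) = (sr q).nb0 ⟨(fraJ h q).dd γ, (fraJ h q).dd_mem γ⟩ := by
  have h1 : bk q ((sr q).mt (dJ h q γ)) = bk q ((sr q).mt ((fraJ h q).dd γ)) := by
    rw [bk_dd h]
    exact bk_mul_th h.hN hq (bk_dd h γ)
  have h2 : (sr q).nbl ⟨dJ h q γ, (dJ_mem h hq γ).2⟩ = (sr q).nbl ⟨(fraJ h q).dd γ, (fraJ h q).dd_mem γ⟩ := by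
    refine Lin.mat_injective ?_
    rw [Sg.mat_nbl, Sg.mat_nbl]
    change cor q (nu q ((sr q).mt (dJ h q γ))) = cor q (nu q ((sr q).mt ((fraJ h q).dd γ)))
    unfold nu Pool.Agent.Helper78.BI.dt
    rw [h1]
  rw [nbJ_prQJ]
  exact congrArg (QuotientGroup.mk' (Lin.Zc (sr q).low)) h2

theorem th_blk_Ef {a : (sr q).M} (ha : bk q ((sr q).mt a) = (sr q).mt a) (hN : 5 ≤ N) (hq : (q : ℕ) = 1) :
    Ef q * (sr q).mt (th hN q a) = Ef q ∧ (sr q).mt (th hN q a) * Ef q = Ef q := by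
  rw [mt_th_blk hN hq ha]
  constructor
  · rw [Matrix.mul_add, Matrix.mul_add, Ef_Ef, Ef_Em hN hq, ← Matrix.mul_assoc, ← Matrix.mul_assoc, Ef_E2 hN hq, Matrix.zero_mul,
      Matrix.zero_mul, zero_add, add_zero]
  · rw [Matrix.add_mul, Matrix.add_mul, Ef_Ef, Em_Ef hN hq, Matrix.mul_assoc, E2_Ef hN hq, Matrix.mul_zero, zero_add, add_zero]

include hq in
/-- the limits of the comparison elements in `O(J)` -/
theorem lim_ppJ (T : Str S) (hb : ∀ i, T.b i = 0 ↔ i ≤ q) (k : G) {n : ℕ} {l : Filter G} [l.NeBot]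
    (hl : l ≤ T.F n) {κ0 κ1 d0 d1 : (sr q).M} (h0 : Tendsto (fraJ h q).κ l (𝓝 κ0)) (h1 : Tendsto (fun γ => (fraJ h q).κ (γ * k)) l (𝓝 κ1))
    (hd0 : Tendsto (fraJ h q).dd l (𝓝 d0)) (hd1 : Tendsto (fun γ => (fraJ h q).dd (γ * k)) l (𝓝 d1)) :
    (κ0 * (d0 * th h.hN q d0))⁻¹ * (fraJ h q).ie k * (κ1 * (d1 * th h.hN q d1)) ∈ (sr q).Qh ∧
      IsU (nu q ((sr q).mt ((κ0 * (d0 * th h.hN q d0))⁻¹ * (fraJ h q).ie k * (κ1 * (d1 * th h.hN q d1))))) := by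
  obtain ⟨hx, r, hr, hxr⟩ := lim_pp' (fraJ h q) T hb k hl h0 h1 hd0 hd1
  obtain ⟨x, hx0⟩ : ∃ x : (sr q).M, x = (κ0 * d0)⁻¹ * (fraJ h q).ie k * (κ1 * d1) := ⟨_, rfl⟩
  rw [← hx0] at hx hxr
  have cb : IsClosed {a : (sr q).M | bk q ((sr q).mt a) = (sr q).mt a} :=
    isClosed_eq (continuous_bk.comp (sr q).continuous_mt) (sr q).continuous_mt
  have b0 : bk q ((sr q).mt d0) = (sr q).mt d0 := cb.mem_of_tendsto hd0 (Eventually.of_forall fun γ => bk_dd h γ)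
  have b1 : bk q ((sr q).mt d1) = (sr q).mt d1 := cb.mem_of_tendsto hd1 (Eventually.of_forall fun γ => bk_dd h _)
  have e1 : (κ0 * (d0 * th h.hN q d0))⁻¹ * (fraJ h q).ie k * (κ1 * (d1 * th h.hN q d1)) =
      (th h.hN q d0)⁻¹ * x * th h.hN q d1 := by
    rw [hx0]
    group
  have tQ : ∀ a : (sr q).M, bk q ((sr q).mt a) = (sr q).mt a → th h.hN q a ∈ (sr q).Qh := by
    intro a ha
    change Ef q * (sr q).mt (th h.hN q a) * Ee q = 0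
    rw [(th_blk_Ef ha h.hN hq).1, Ef_Ee]
  have tI : Ef q * (sr q).mt (th h.hN q d0)⁻¹ = Ef q := by
    rw [← map_inv]
    exact (th_blk_Ef (bk_inv b0) h.hN hq).1
  have hy : (th h.hN q d0)⁻¹ * x * th h.hN q d1 ∈ (sr q).Qh :=
    (sr q).Qh.mul_mem ((sr q).Qh.mul_mem ((sr q).Qh.inv_mem (tQ d0 b0)) hx) (tQ d1 b1)
  rw [e1]
  refine ⟨hy, isU_nu hr ?_⟩
  have e2 : bk q ((sr q).mt ((th h.hN q d0)⁻¹ * x * th h.hN q d1)) = bk q ((sr q).mt x) := by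
    unfold bk
    congr 1
    rw [Sg.mt_mul, Sg.mt_mul]
    calc Ef q * ((sr q).mt (th h.hN q d0)⁻¹ * (sr q).mt x * (sr q).mt (th h.hN q d1)) * Ef q
        = (Ef q * (sr q).mt (th h.hN q d0)⁻¹) * (sr q).mt x * ((sr q).mt (th h.hN q d1) * Ef q) := by
          simp only [Matrix.mul_assoc]
      _ = _ := by rw [tI, (th_blk_Ef b1 h.hN hq).2]
  rw [e2, hxr]

/-- **Covariance.** -/
theorem covJ (T : Str S) (hb : ∀ i, T.b i = 0 ↔ i ≤ q) {f : GJ h.hN q → ℂ} (hf : Bf (geoJ h.hN hq) f) (k : G) (n : ℕ) :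
    Tendsto (fun γ => f (gfJ h hq (γ * k)) - f ((irJ h q k)⁻¹ * gfJ h hq γ)) (T.F n) (𝓝 0) := by
  rw [tendsto_iff_ultrafilter]
  intro 𝒰 h𝒰
  have bd : ∀ n, ∃ R : ℝ, ∀ γ ∈ T.W n, (fraJ h q).dd γ ∈ (sr q).Bl R := by
    intro n
    obtain ⟨K, hK⟩ := T.cpt n
    exact ⟨_, fun γ hγ => (fraJ h q).dd_bound fun i j hi hj => hK γ hγ i j (by rw [(hb i).2 hi, (hb j).2 hj])⟩
  obtain ⟨R, hR⟩ := bd n
  obtain ⟨n', hn'⟩ := T.shift 1 k n
  obtain ⟨R', hR'⟩ := bd n'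
  have e0 : ∀ᶠ γ in (𝒰 : Filter G), (fraJ h q).dd γ ∈ (sr q).Bl R := by
    filter_upwards [h𝒰 (le_principal_iff.1 (T.le n))] with γ hγ
    exact hR γ hγ
  have e1 : ∀ᶠ γ in (𝒰 : Filter G), (fraJ h q).dd (γ * k) ∈ (sr q).Bl R' := by
    filter_upwards [h𝒰 (hn' (le_principal_iff.1 (T.le n')))] with γ hγ
    have h2 := hR' _ hγ
    simp only [inv_one, one_mul] at h2
    exact h2
  obtain ⟨κ0, -, hκ0⟩ := Fra.exists_lim 𝒰 (sr q).isCompact_UU (f := (fraJ h q).κ) (Eventually.of_forall fun γ => S.uR γ)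
  obtain ⟨κ1, -, hκ1⟩ := Fra.exists_lim 𝒰 (sr q).isCompact_UU (f := fun γ => (fraJ h q).κ (γ * k)) (Eventually.of_forall fun γ => S.uR _)
  obtain ⟨d0, -, hd0⟩ := Fra.exists_lim 𝒰 ((sr q).isCompact_ball R) e0
  obtain ⟨d1, -, hd1⟩ := Fra.exists_lim 𝒰 ((sr q).isCompact_ball R') e1
  obtain ⟨hx, hu⟩ := lim_ppJ h hq T hb k h𝒰 hκ0 hκ1 hd0 hd1
  have he0 : Tendsto (fun γ => (fraJ h q).κ γ * dJ h q γ) 𝒰 (𝓝 (κ0 * (d0 * th h.hN q d0))) :=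
    hκ0.mul (hd0.mul (((continuous_th h.hN q).tendsto _).comp hd0))
  have he1 : Tendsto (fun γ => (fraJ h q).κ (γ * k) * dJ h q (γ * k)) 𝒰 (𝓝 (κ1 * (d1 * th h.hN q d1))) :=
    hκ1.mul (hd1.mul (((continuous_th h.hN q).tendsto _).comp hd1))
  obtain ⟨g0, hg0⟩ : ∃ g0 : (sr q).M, g0 = κ0 * (d0 * th h.hN q d0) := ⟨_, rfl⟩
  obtain ⟨g1, hg1⟩ : ∃ g1 : (sr q).M, g1 = κ1 * (d1 * th h.hN q d1) := ⟨_, rfl⟩
  rw [← hg0, ← hg1] at hx hu
  rw [← hg0] at he0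
  rw [← hg1] at he1
  have m0 : g0 ∈ MJ h.hN q := (isClosed_MJ h.hN q).mem_of_tendsto he0
    (Eventually.of_forall fun γ => (MJ h.hN q).mul_mem (κ_mem h γ) (dJ_mem h hq γ).1)
  have m1 : g1 ∈ MJ h.hN q := (isClosed_MJ h.hN q).mem_of_tendsto he1
    (Eventually.of_forall fun γ => (MJ h.hN q).mul_mem (κ_mem h _) (dJ_mem h hq _).1)
  have t0 : Tendsto (gfJ h hq) 𝒰 (𝓝 (prJ h.hN q ⟨g0, m0⟩)) :=
    ((continuous_prJ h.hN q).tendsto _).comp (tendsto_subtype_rng.2 he0)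
  have t1 : Tendsto (fun γ => gfJ h hq (γ * k)) 𝒰 (𝓝 (prJ h.hN q ⟨g1, m1⟩)) :=
    ((continuous_prJ h.hN q).tendsto _).comp (tendsto_subtype_rng.2 he1)
  have l1 : Tendsto (fun γ => f (gfJ h hq (γ * k))) 𝒰 (𝓝 (f (prJ h.hN q ⟨g1, m1⟩))) := (hf.cont.tendsto _).comp t1
  have l2 : Tendsto (fun γ => f ((irJ h q k)⁻¹ * gfJ h hq γ)) 𝒰 (𝓝 (f ((irJ h q k)⁻¹ * prJ h.hN q ⟨g0, m0⟩))) :=
    ((hf.cont.comp (continuous_const.mul continuous_id)).tendsto _).comp t0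
  have mx : g0⁻¹ * (fraJ h q).ie k * g1 ∈ HQ h.hN q :=
    ⟨(MJ h.hN q).mul_mem ((MJ h.hN q).mul_mem ((MJ h.hN q).inv_mem m0) (ie_mem h k)) m1, hx⟩
  have h3 : f (prJ h.hN q ⟨g1, m1⟩) = f ((irJ h q k)⁻¹ * prJ h.hN q ⟨g0, m0⟩) := by
    have h4 : prJ h.hN q ⟨g1, m1⟩ = (irJ h q k)⁻¹ * prJ h.hN q ⟨g0, m0⟩ * (prQJ h.hN q ⟨_, mx⟩ : QJ h.hN q) := by
      refine Subtype.ext ?_
      change (sr q).pr g1 = ((sr q).pr ((fraJ h q).ie k))⁻¹ * (sr q).pr g0 * (sr q).pr (g0⁻¹ * (fraJ h q).ie k * g1)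
      rw [← map_inv, ← map_mul, ← map_mul]
      congr 1
      group
    rw [h4]
    refine hf.inv _ (prQJ h.hN q ⟨_, mx⟩) ?_
    change nbJ h.hN q _ ∈ _
    rw [nbJ_prQJ]
    exact (sr q).nb0_mem hu
  have l3 := l1.sub l2
  rw [h3, sub_self] at l3
  exact l3

theorem gfJ_Yf {f : GJ h.hN q → ℂ} (hf : Yf (geoJ h.hN hq) f) (γ : G) : f (gfJ h hq γ) = f (prJ h.hN q ⟨(fraJ h q).κ γ, κ_mem h γ⟩) := by
  rw [gfJ_eq]
  exact hf.inv _ (prQJ h.hN q ⟨dJ h q γ, dJ_mem h hq γ⟩)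

/-- **The functions on `GJ / QJ` are uniformly continuous functions of the position.** -/
theorem ucJ {b : Fin N → ℕ} (hb : ∀ i, b i = 0 ↔ i ≤ q) {f : GJ h.hN q → ℂ} (hf : Yf (geoJ h.hN hq) f) :
    UC (posPD S b) fun γ => f (gfJ h hq γ) := by
  by_contra hne
  unfold UC at hne
  push Not at hne
  obtain ⟨ε, hε, h'⟩ := hne
  have h' : ∀ n : ℕ, ∃ γ γ' : G, (posPD S b).d γ γ' < 1 / ((n : ℝ) + 1) ∧ ε < ‖f (gfJ h hq γ) - f (gfJ h hq γ')‖ := fun n =>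
    h' _ (by positivity)
  choose u v huv huv' using h'
  let 𝒰 : Ultrafilter ℕ := hyperfilter ℕ
  obtain ⟨κ0, hU0, hκ0⟩ := Fra.exists_lim 𝒰 (sr q).isCompact_UU (f := fun n => (fraJ h q).κ (u n)) (Eventually.of_forall fun γ => S.uR _)
  obtain ⟨κ1, hU1, hκ1⟩ := Fra.exists_lim 𝒰 (sr q).isCompact_UU (f := fun n => (fraJ h q).κ (v n)) (Eventually.of_forall fun γ => S.uR _)
  have m0 : κ0 ∈ MJ h.hN q := (isClosed_MJ h.hN q).mem_of_tendsto hκ0 (Eventually.of_forall fun γ => κ_mem h _)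
  have m1 : κ1 ∈ MJ h.hN q := (isClosed_MJ h.hN q).mem_of_tendsto hκ1 (Eventually.of_forall fun γ => κ_mem h _)
  have l0 : Tendsto (fun n => f (gfJ h hq (u n))) 𝒰 (𝓝 (f (prJ h.hN q ⟨κ0, m0⟩))) := by
    simp only [gfJ_Yf h hq hf]
    exact ((hf.cont.comp (continuous_prJ h.hN q)).tendsto _).comp (tendsto_subtype_rng.2 hκ0)
  have l1 : Tendsto (fun n => f (gfJ h hq (v n))) 𝒰 (𝓝 (f (prJ h.hN q ⟨κ1, m1⟩))) := by
    simp only [gfJ_Yf h hq hf]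
    exact ((hf.cont.comp (continuous_prJ h.hN q)).tendsto _).comp (tendsto_subtype_rng.2 hκ1)
  have hproj : (sr q).mt κ0 * Ef q * ((sr q).mt κ0)ᴴ = (sr q).mt κ1 * Ef q * ((sr q).mt κ1)ᴴ := by
    have hc : Continuous fun g : (sr q).M => (sr q).mt g * Ef q * ((sr q).mt g)ᴴ :=
      ((sr q).continuous_mt.mul continuous_const).mul (sr q).continuous_mt.matrix_conjTranspose
    have a0 := ((hc.tendsto _).comp hκ0)
    have a1 := ((hc.tendsto _).comp hκ1)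
    have hd : Tendsto (fun n => (posPD S b).d (u n) (v n)) (𝒰 : Filter ℕ) (𝓝 0) := by
      have h1 : Tendsto (fun n : ℕ => 1 / ((n : ℝ) + 1)) (𝒰 : Filter ℕ) (𝓝 0) :=
        tendsto_one_div_add_atTop_nhds_zero_nat.mono_left Nat.hyperfilter_le_atTop
      exact squeeze_zero (fun n => Pool.Agent.Helper78.BM.d_nonneg _ _ _) (fun n => (huv n).le) h1
    ext i j
    have a0' := ((continuous_id.matrix_elem i j).tendsto _).comp a0
    have a1' := ((continuous_id.matrix_elem i j).tendsto _).comp a1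
    have a2 := a0'.sub a1'
    have hz : Tendsto (fun n => (S.kR (u n) * Ef q * (S.kR (u n))ᴴ) i j - (S.kR (v n) * Ef q * (S.kR (v n))ᴴ) i j)
        (𝒰 : Filter ℕ) (𝓝 0) := by
      rw [tendsto_zero_iff_norm_tendsto_zero]
      refine squeeze_zero (fun n => norm_nonneg _) (fun n => ?_) hd
      have hpos : ∀ γ, pos S b γ q = S.kR γ * Ef q * (S.kR γ)ᴴ := by
        intro γ
        unfold pos Ef
        congr 3
        funext i
        rw [(hb q).2 le_rfl]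
        by_cases hi : i ≤ q
        · rw [if_pos ((hb i).2 hi), if_pos hi]
        · rw [if_neg (fun h => hi ((hb i).1 h)), if_neg hi]
      have h1 : ‖(pos S b (u n) q - pos S b (v n) q) i j‖ ≤ Real.sqrt (ns (pos S b (u n) q - pos S b (v n) q)) :=
        Pool.Agent.Helper90.RK.norm_apply_le' _ i j
      rw [hpos, hpos, Matrix.sub_apply] at h1
      refine h1.trans ?_
      change _ ≤ pdist S b (u n) (v n)
      unfold pdist
      rw [← hpos, ← hpos]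
      exact Finset.single_le_sum (f := fun j => Real.sqrt (ns (pos S b (u n) j - pos S b (v n) j)))
        (fun j _ => Real.sqrt_nonneg _) (Finset.mem_univ q)
    exact sub_eq_zero.1 (tendsto_nhds_unique a2 hz)
  have hqq : κ0⁻¹ * κ1 ∈ (sr q).Qh := by
    have u0 : ((sr q).mt κ0)ᴴ * (sr q).mt κ0 = 1 := hU0
    have u1 : ((sr q).mt κ1)ᴴ * (sr q).mt κ1 = 1 := hU1
    have i0 : (sr q).mt κ0⁻¹ = ((sr q).mt κ0)ᴴ := by
      calc (sr q).mt κ0⁻¹ = ((sr q).mt κ0)ᴴ * (sr q).mt κ0 * (sr q).mt κ0⁻¹ := by rw [u0, Matrix.one_mul]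
        _ = _ := by rw [Matrix.mul_assoc, (sr q).mt_mul_inv, Matrix.mul_one]
    change Lb q ((sr q).mt (κ0⁻¹ * κ1))
    rw [Sg.mt_mul, i0]
    unfold Lb
    calc Ef q * (((sr q).mt κ0)ᴴ * (sr q).mt κ1) * Ee q
        = ((sr q).mt κ0)ᴴ * ((sr q).mt κ0 * Ef q * ((sr q).mt κ0)ᴴ) * (sr q).mt κ1 * Ee q := by
          have : ((sr q).mt κ0)ᴴ * ((sr q).mt κ0 * Ef q * ((sr q).mt κ0)ᴴ) = Ef q * ((sr q).mt κ0)ᴴ := by
            rw [← Matrix.mul_assoc, ← Matrix.mul_assoc, u0, Matrix.one_mul]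
          rw [this]
          simp only [Matrix.mul_assoc]
      _ = ((sr q).mt κ0)ᴴ * (sr q).mt κ1 * Ef q * (((sr q).mt κ1)ᴴ * (sr q).mt κ1) * Ee q := by
          rw [hproj]
          simp only [Matrix.mul_assoc]
      _ = 0 := by rw [u1, Matrix.mul_one, Matrix.mul_assoc, Ef_Ee, Matrix.mul_zero]
  have mq : κ0⁻¹ * κ1 ∈ HQ h.hN q := ⟨(MJ h.hN q).mul_mem ((MJ h.hN q).inv_mem m0) m1, hqq⟩
  have h3 : f (prJ h.hN q ⟨κ1, m1⟩) = f (prJ h.hN q ⟨κ0, m0⟩) := by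
    have h4 := hf.inv (prJ h.hN q ⟨κ0, m0⟩) (prQJ h.hN q ⟨_, mq⟩)
    have h5 : prJ h.hN q ⟨κ0, m0⟩ * (prQJ h.hN q ⟨_, mq⟩ : QJ h.hN q) = prJ h.hN q ⟨κ1, m1⟩ := by
      refine Subtype.ext ?_
      change (sr q).pr κ0 * (sr q).pr (κ0⁻¹ * κ1) = (sr q).pr κ1
      rw [← map_mul, mul_inv_cancel_left]
    rw [← h5]
    exact h4
  have l3 := (l0.sub l1).norm
  rw [h3, sub_self, norm_zero] at l3
  exact absurd (ge_of_tendsto l3 (Eventually.of_forall fun n => (huv' n).le)) (not_le.2 hε)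

/-- **The blocks in the regions stay in a compact set.** -/
theorem cptJ {W : Set G} {K : ℝ} (hK : ∀ γ ∈ W, ∀ i j : Fin N, i ≤ q → j ≤ q → S.s γ i ≤ K * S.s γ j) :
    ∃ B : Set (sr q).SL, IsCompact B ∧ ∀ γ ∈ W, (geoJ h.hN hq).nb ((geoJ h.hN hq).r (gfJ h hq γ)) ∈ B := by
  have c1 : IsCompact ((sr q).nb0 '' (Subtype.val ⁻¹' ((sr q).Bl (max K 1)))) :=
    (((Fra.isClosed_Qh (s := sr q)).isClosedEmbedding_subtypeVal.isCompact_preimage ((sr q).isCompact_ball _)).image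
      (sr q).continuous_nb0)
  refine ⟨((sr q).KG : Set (sr q).SL) * ((sr q).nb0 '' (Subtype.val ⁻¹' ((sr q).Bl (max K 1)))), (sr q).isCompact_KG.mul c1,
    fun γ hγ => ?_⟩
  change nbJ h.hN q (rJ h.hN hq (gfJ h hq γ)) ∈ _
  obtain ⟨x, hx⟩ : ∃ x : QJ h.hN q, x = prQJ h.hN q ⟨dJ h q γ, dJ_mem h hq γ⟩ := ⟨_, rfl⟩
  have e1 : nbJ h.hN q (rJ h.hN hq (gfJ h hq γ)) = nbJ h.hN q (rJ h.hN hq (gfJ h hq γ) * x⁻¹) * nbJ h.hN q x := by
    rw [← map_mul, inv_mul_cancel_right]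
  rw [e1]
  refine Set.mul_mem_mul ?_ ?_
  · refine KK_J h.hN (g := prJ h.hN q ⟨(fraJ h q).κ γ, κ_mem h γ⟩) ⟨_, S.uR γ, rfl⟩ (kr_J h.hN hq (gfJ h hq γ)) _ ?_
    have e2 : prJ h.hN q ⟨(fraJ h q).κ γ, κ_mem h γ⟩ = gfJ h hq γ * (x : GJ h.hN q)⁻¹ := by
      rw [gfJ_eq, ← hx, mul_inv_cancel_right]
    rw [e2, Subgroup.coe_mul, Subgroup.coe_inv]
    group
  · rw [hx, nbJ_dJ h hq]
    exact ⟨_, (fraJ h q).dd_bound (hK γ hγ), rfl⟩

/-- The frames. -/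
noncomputable def frmJ (T : Str S) (hb : ∀ i, T.b i = 0 ↔ i ≤ q) : Frm (geoJ h.hN hq) T where
  ir := irJ h q
  gf := gfJ h hq
  cov f hf k n := covJ h hq T hb hf k n
  uc f hf := ucJ h hq hb hf
  cpt n := by
    obtain ⟨K, hK⟩ := T.cpt n
    exact cptJ h hq fun γ hγ i j hi hj => hK γ hγ i j (by rw [(hb i).2 hi, (hb j).2 hj])

end Pool.Agent.Helper87.OB
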