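import Pool.Agent.Helper87.OB.N2A
import Pool.Agent.Helper9.FP.Siz

/-!
# Project OB (MP_0f6f3f_an), layer TZ, node 2: the final statement

`layerTZ2`: a boundary map over the stratum of the lines and a direction of dimension `d`: `d ≤ 3`.
-/

set_option autoImplicit false
set_option linter.unusedSectionVars false

open Filter Topology MeasureTheory

namespace Pool.Agent.Helper87.OB

open Pool.Agent.Helper84 Pool.Agent.Helper84.GN Pool.Agent.Helper84.GN.S3 Pool.Agent.Helper84.GN.S3.X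
open Pool.Agent.Helper84.NI Pool.Agent.Helper84.GVN Pool.Agent.Helper90.RK Pool.Agent.Helper9
open Pool.Agent.Helper66.FR Pool.Agent.Helper84.FR Pool.Agent.Helper55.FR Pool.Agent.Helper78.BM
open Pool.Agent.Helper35.FP Pool.Agent.Helper55.FP Pool.Agent.Helper78.BI Pool.Agent.Helper55.TZ Pool.Agent.Helper55.OB
open Pool.Agent.Helper96.RK (bJ chStr)
open Pool.Agent.Helper43.TZ (PP Dir Siz Lev)

theorem bJ_K2 {N : ℕ} (hN : 5 ≤ N) {q : Fin N} (hq : (q : ℕ) = 1) (i : Fin N) : bJ (K2 N) i = 0 ↔ i ≤ q := by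
  unfold bJ
  rw [Finset.card_eq_zero, Finset.filter_eq_empty_iff]
  constructor
  · intro h
    by_contra hi
    refine h (Finset.mem_univ q) ⟨not_le.1 hi, fun h2 => ?_⟩
    exact (Finset.mem_filter.1 h2).2.1 hq
  · intro hi k _ hk
    refine hk.2 (Finset.mem_filter.2 ⟨Finset.mem_univ _, ?_, ?_⟩)
    · have h1 := Fin.lt_def.1 hk.1
      have h2 := Fin.le_def.1 hi
      omega
    · have h1 := Fin.lt_def.1 hk.1
      have h2 := Fin.le_def.1 hi
      omega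

variable {G1 X G : Type} [Group G1] [TopologicalSpace G1] [IsTopologicalGroup G1] [MeasurableSpace X] [MulAction G1 X]
  [MeasurableConstSMul G1 X] [Group G] {μ : Measure X} [SMulInvariantMeasure G1 X μ]
  [IsProbabilityMeasure μ] {N : ℕ} {P : PH G N} {S : Sv P}

/-- **Layer TZ, lines.** -/
theorem layerTZ2 {Γ : Subgroup G1} [Countable Γ] {a : Cocy G1 X Γ} {E : Emb Γ G} (hS : SO2 P S) {b : ℕ → G1}
    (B : BMap μ a E (R2 S) (pd2 S) b) (h3 : Tendsto (fun g : G1 => μ {x | a.a g x ≠ 1}) (𝓝 1) (𝓝 0)) (hK : Kcont G1 μ)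
    (hE : ErgU μ a E (Ctr b)) {F1 : Subgroup G1} {par : G1 → ℝ} {d : ℕ} (D : Dir G1 F1 par d) (hbF : ∀ n, b n ∈ F1)
    (hbp : Tendsto (fun n => par (b n)) (hyperfilter ℕ : Filter ℕ) atTop)
    (σ : X → G1) (hσ : ∀ B : Set G1, MeasurableSet[borel G1] B → MeasurableSet (σ ⁻¹' B))
    (hσa : ∀ (g : G1) (x : X), g * σ x = σ (g • x) * (a.a g x : G1)) : d ≤ 3 := by
  obtain ⟨q, hq⟩ : ∃ q : Fin N, (q : ℕ) = 1 := ⟨⟨1, by have := hS.hN; omega⟩, rfl⟩
  have hb : ∀ i, (chStr S (K2 N) []).b i = 0 ↔ i ≤ q := fun i => bJ_K2 hS.hN hq i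
  obtain ⟨ν, hν⟩ : ∃ ν : Measure (sr q).SL, ν.IsHaarMeasure := ⟨Measure.haar, inferInstance⟩
  by_contra hd
  refine contraG ν (geo := geoJ hS.hN hq) (T := chStr S (K2 N) []) (isClosed_QJ hS.hN q) (sr q).isCompact_KG
    (isOpenMap_nbJ hS.hN q hq) (frmJ hS hq _ hb) (amnJ hq hS _ hb) B h3 hK hE D hbF hbp σ hσ hσa
    (Pool.Agent.Helper9.Lin.sizSQ (Nat.succ_ne_zero _) ν) ?_
  rw [Pool.Agent.Helper9.Lin.sizSQ_d]
  have h1 : Module.finrank ℝ (sr q).low.fx = ((q : ℕ) + 1) ^ 2 := Pool.Agent.Helper9.Fra.finrank_low_R q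
  have h2 : Module.finrank ℝ (sr q).low.fx - 1 = 3 := by
    rw [h1, hq]
    norm_num
  omega

end Pool.Agent.Helper87.OB
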