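import Pool.Agent.Helper87.OB.N2K
import Pool.Agent.Helper46.OB.N1J
import Pool.Agent.Helper78.BI.Rq

/-!
# Project OB (MP_0f6f3f_an), layer TZ, node 1: the Iwasawa decomposition of `O(J)` (matrices)

`q = 0`. `k = kk q A U` preserves `J`, `kᴴ k = Ef + mᴴ m + E2`, `ko q A U = k (J sq(kᴴ k) J)` is orthogonal, preserves `J`, and `(ko)ᴴ A` is block lower triangular.
-/

set_option autoImplicit false
set_option linter.unusedSectionVars false

open Filter Topology Matrix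
open scoped MatrixOrder ComplexOrder

namespace Pool.Agent.Helper87.OB1

open Pool.Agent.Helper90.RK Pool.Agent.Helper84.NI Pool.Agent.Helper78.BI Pool.Agent.Helper55.OB Pool.Agent.Helper9
open Pool.Agent.Helper87.OB (E2 Em E2_star E2_E2 JJ_Ef Ef_JJ JJ_E2 E2_JJ Em_add Ee_Em_E2 Em_star JJ_JJ JJ_star mm kk U_E2 E2_Us Us_JA
  mms_eq kks_eq)
open Pool.Agent.Helper46.OB (Ef_E2 E2_Ef Ef_Em Em_Ef E2_Em Em_E2 Em_Em JJ_Em Ee_E2 E2_Ee Em_Ee Ee_Em J_E2_J)


variable {N : ℕ} {q : Fin N}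

variable (hN : 5 ≤ N) (hq : (q : ℕ) = 0) {A U T : MN N} (hA : Aᴴ * JJ N * A = JJ N) (hU : U = A * E2 q * T) (hT : T * E2 q = T)
  (hUU : Uᴴ * U = E2 q)

include hN hq hA hU in
theorem Us_J_U : Uᴴ * JJ N * U = 0 := by
  have h1 : Uᴴ * JJ N * U = Uᴴ * JJ N * A * (E2 q * T) := by
    calc Uᴴ * JJ N * U = Uᴴ * JJ N * (A * E2 q * T) := by rw [← hU]
      _ = _ := by simp only [Matrix.mul_assoc]
  rw [h1, Us_JA hN hA hU]
  calc Tᴴ * (E2 q * JJ N) * (E2 q * T) = Tᴴ * (E2 q * (JJ N * E2 q)) * T := by simp only [Matrix.mul_assoc]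
    _ = 0 := by rw [JJ_E2 hN, ← Matrix.mul_assoc (E2 q), E2_Ef hN hq, Matrix.zero_mul, Matrix.mul_zero, Matrix.zero_mul]

include hN hq hA hU in
theorem Us_J_A_Em : Uᴴ * JJ N * (A * Em q) = 0 := by
  rw [← Matrix.mul_assoc, Us_JA hN hA hU, Matrix.mul_assoc, Matrix.mul_assoc, JJ_Em hN, ← Matrix.mul_assoc (E2 q), E2_Em hN hq,
    Matrix.zero_mul, Matrix.mul_zero]

include hN hU hT hUU in
theorem Us_mm : Uᴴ * mm q A U = 0 := by
  unfold mm
  rw [Matrix.sub_mul, Matrix.one_mul, Matrix.mul_sub]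
  have h : Uᴴ * (U * Uᴴ * (A * Em q)) = Uᴴ * U * Uᴴ * (A * Em q) := by simp only [Matrix.mul_assoc]
  rw [h, hUU, E2_Us hN hU hT, sub_self]

include hN hq hA hU in
theorem Us_J_mm : Uᴴ * JJ N * mm q A U = 0 := by
  unfold mm
  rw [Matrix.sub_mul, Matrix.one_mul, Matrix.mul_sub, Us_J_A_Em hN hq hA hU]
  have h : Uᴴ * JJ N * (U * Uᴴ * (A * Em q)) = Uᴴ * JJ N * U * Uᴴ * (A * Em q) := by simp only [Matrix.mul_assoc]
  rw [h, Us_J_U hN hq hA hU, Matrix.zero_mul, Matrix.zero_mul, sub_zero]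

include hN hq hA hU in
theorem mms_J_U : (mm q A U)ᴴ * JJ N * U = 0 := by
  have h := congrArg conjTranspose (Us_J_mm hN hq hA hU)
  rwa [conjTranspose_mul, conjTranspose_mul, conjTranspose_conjTranspose, JJ_star hN, conjTranspose_zero, ← Matrix.mul_assoc] at h

include hN hU hT hUU in
theorem mms_U : (mm q A U)ᴴ * U = 0 := by
  have h := congrArg conjTranspose (Us_mm (A := A) hN hU hT hUU)
  rwa [conjTranspose_mul, conjTranspose_conjTranspose, conjTranspose_zero] at h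

include hN hq hA hU in
theorem mms_J_mm : (mm q A U)ᴴ * JJ N * mm q A U = JJ N * Em q := by
  have h0 : (mm q A U)ᴴ * JJ N * mm q A U = (mm q A U)ᴴ * JJ N * (A * Em q) := by
    have e : mm q A U = A * Em q - U * Uᴴ * (A * Em q) := by
      unfold mm
      rw [Matrix.sub_mul, Matrix.one_mul]
    have h : (mm q A U)ᴴ * JJ N * (U * Uᴴ * (A * Em q)) = (mm q A U)ᴴ * JJ N * U * Uᴴ * (A * Em q) := by
      simp only [Matrix.mul_assoc]
    calc (mm q A U)ᴴ * JJ N * mm q A U = (mm q A U)ᴴ * JJ N * (A * Em q - U * Uᴴ * (A * Em q)) := by rw [← e]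
      _ = _ := by rw [Matrix.mul_sub, h, mms_J_U hN hq hA hU, Matrix.zero_mul, Matrix.zero_mul, sub_zero]
  rw [h0, mms_eq hN, Matrix.mul_sub, Matrix.mul_one, Matrix.sub_mul, Matrix.sub_mul]
  have h1 : Em q * Aᴴ * JJ N * (A * Em q) = JJ N * Em q := by
    calc Em q * Aᴴ * JJ N * (A * Em q) = Em q * (Aᴴ * JJ N * A) * Em q := by simp only [Matrix.mul_assoc]
      _ = _ := by rw [hA, ← JJ_Em hN, Matrix.mul_assoc, Em_Em hN hq]
  have h2 : Em q * Aᴴ * (U * Uᴴ) * JJ N * (A * Em q) = Em q * Aᴴ * U * (Uᴴ * JJ N * (A * Em q)) := by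
    simp only [Matrix.mul_assoc]
  rw [h1, h2, Us_J_A_Em hN hq hA hU, Matrix.mul_zero, sub_zero]

include hN hq hA hU hT hUU in
/-- `k` preserves the form. -/
theorem kk_form : (kk q A U)ᴴ * JJ N * kk q A U = JJ N := by
  have hJ := JJ_JJ hN
  have a1 : JJ N * Uᴴ * JJ N * JJ N * (JJ N * U * JJ N) = 0 := by
    calc JJ N * Uᴴ * JJ N * JJ N * (JJ N * U * JJ N) = JJ N * (Uᴴ * (JJ N * JJ N) * JJ N * U) * JJ N := by
          simp only [Matrix.mul_assoc]
      _ = 0 := by rw [hJ, Matrix.mul_one, Us_J_U hN hq hA hU, Matrix.mul_zero, Matrix.zero_mul]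
  have a2 : JJ N * Uᴴ * JJ N * JJ N * mm q A U = 0 := by
    calc JJ N * Uᴴ * JJ N * JJ N * mm q A U = JJ N * (Uᴴ * (JJ N * JJ N) * mm q A U) := by simp only [Matrix.mul_assoc]
      _ = 0 := by rw [hJ, Matrix.mul_one, Us_mm hN hU hT hUU, Matrix.mul_zero]
  have a3 : JJ N * Uᴴ * JJ N * JJ N * U = JJ N * E2 q := by
    calc JJ N * Uᴴ * JJ N * JJ N * U = JJ N * (Uᴴ * (JJ N * JJ N) * U) := by simp only [Matrix.mul_assoc]
      _ = _ := by rw [hJ, Matrix.mul_one, hUU]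
  have b1 : (mm q A U)ᴴ * JJ N * (JJ N * U * JJ N) = 0 := by
    calc (mm q A U)ᴴ * JJ N * (JJ N * U * JJ N) = (mm q A U)ᴴ * (JJ N * JJ N) * U * JJ N := by simp only [Matrix.mul_assoc]
      _ = 0 := by rw [hJ, Matrix.mul_one, mms_U hN hU hT hUU, Matrix.zero_mul]
  have c1 : Uᴴ * JJ N * (JJ N * U * JJ N) = E2 q * JJ N := by
    calc Uᴴ * JJ N * (JJ N * U * JJ N) = Uᴴ * (JJ N * JJ N) * U * JJ N := by simp only [Matrix.mul_assoc]
      _ = _ := by rw [hJ, Matrix.mul_one, hUU]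
  rw [kks_eq hN]
  unfold kk
  rw [Matrix.add_mul, Matrix.add_mul, Matrix.add_mul, Matrix.add_mul, Matrix.mul_add, Matrix.mul_add, Matrix.mul_add, Matrix.mul_add,
    Matrix.mul_add, Matrix.mul_add, a1, a2, a3, b1, c1, mms_J_mm hN hq hA hU, mms_J_U hN hq hA hU, Us_J_mm hN hq hA hU,
    Us_J_U hN hq hA hU]
  have h : JJ N = JJ N * (Ef q + Em q + E2 q) := by rw [Em_add, Matrix.mul_one]
  conv_rhs => rw [h]
  rw [Matrix.mul_add, Matrix.mul_add, JJ_Ef hN]
  abel

include hN hq hA hU hT hUU in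
theorem kk_gram : (kk q A U)ᴴ * kk q A U = Ef q + (mm q A U)ᴴ * mm q A U + E2 q := by
  have hJ := JJ_JJ hN
  have a1 : JJ N * Uᴴ * JJ N * (JJ N * U * JJ N) = Ef q := by
    calc JJ N * Uᴴ * JJ N * (JJ N * U * JJ N) = JJ N * (Uᴴ * (JJ N * JJ N) * U) * JJ N := by
          simp only [Matrix.mul_assoc]
      _ = _ := by rw [hJ, Matrix.mul_one, hUU, J_E2_J hN]
  have a2 : JJ N * Uᴴ * JJ N * mm q A U = 0 := by
    calc JJ N * Uᴴ * JJ N * mm q A U = JJ N * (Uᴴ * JJ N * mm q A U) := by simp only [Matrix.mul_assoc]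
      _ = 0 := by rw [Us_J_mm hN hq hA hU, Matrix.mul_zero]
  have a3 : JJ N * Uᴴ * JJ N * U = 0 := by
    calc JJ N * Uᴴ * JJ N * U = JJ N * (Uᴴ * JJ N * U) := by simp only [Matrix.mul_assoc]
      _ = 0 := by rw [Us_J_U hN hq hA hU, Matrix.mul_zero]
  have b1 : (mm q A U)ᴴ * (JJ N * U * JJ N) = 0 := by
    calc (mm q A U)ᴴ * (JJ N * U * JJ N) = (mm q A U)ᴴ * JJ N * U * JJ N := by simp only [Matrix.mul_assoc]
      _ = 0 := by rw [mms_J_U hN hq hA hU, Matrix.zero_mul]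
  have c1 : Uᴴ * (JJ N * U * JJ N) = 0 := by
    calc Uᴴ * (JJ N * U * JJ N) = Uᴴ * JJ N * U * JJ N := by simp only [Matrix.mul_assoc]
      _ = 0 := by rw [Us_J_U hN hq hA hU, Matrix.zero_mul]
  rw [kks_eq hN]
  unfold kk
  rw [Matrix.add_mul, Matrix.add_mul, Matrix.mul_add, Matrix.mul_add, Matrix.mul_add, Matrix.mul_add,
    Matrix.mul_add, Matrix.mul_add, a1, a2, a3, b1, c1, mms_U hN hU hT hUU, Us_mm hN hU hT hUU, hUU]
  abel

include hN hq in
theorem mm_Em : mm q A U * Em q = mm q A U := by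
  unfold mm
  rw [Matrix.mul_assoc, Matrix.mul_assoc A, Em_Em hN hq]

include hN hq in
theorem Em_mms : Em q * (mm q A U)ᴴ = (mm q A U)ᴴ := by
  have h := congrArg conjTranspose (mm_Em (A := A) (U := U) hN hq)
  rwa [conjTranspose_mul, Em_star hN] at h

/-- the Gram matrix -/
noncomputable def gg (q : Fin N) (A U : MN N) : MN N := (kk q A U)ᴴ * kk q A U

/-- the inverse square root of the Gram matrix -/
noncomputable def ri (q : Fin N) (A U : MN N) : MN N := JJ N * Pool.Agent.Helper78.BI.sq (gg q A U) * JJ N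

/-- the orthogonal matrix -/
noncomputable def ko (q : Fin N) (A U : MN N) : MN N := kk q A U * ri q A U

theorem gg_psd : (gg q A U).PosSemidef := posSemidef_conjTranspose_mul_self _

include hN hq hA hU hT hUU in
theorem gg_J_gg : gg q A U * JJ N * gg q A U = JJ N := by
  have hJ := JJ_JJ hN
  obtain ⟨k, hk⟩ : ∃ k : MN N, k = kk q A U := ⟨_, rfl⟩
  have h1 : kᴴ * JJ N * k = JJ N := by rw [hk]; exact kk_form hN hq hA hU hT hUU
  have h2 : k * JJ N * kᴴ = JJ N := by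
    have h3 : (JJ N * kᴴ * JJ N) * k = 1 := by
      calc (JJ N * kᴴ * JJ N) * k = JJ N * (kᴴ * JJ N * k) := by simp only [Matrix.mul_assoc]
        _ = 1 := by rw [h1, hJ]
    have h4 : k * (JJ N * kᴴ * JJ N) = 1 := mul_eq_one_comm.1 h3
    calc k * JJ N * kᴴ = k * (JJ N * kᴴ * JJ N) * JJ N := by
          calc k * JJ N * kᴴ = k * (JJ N * kᴴ) * (JJ N * JJ N) := by rw [hJ, Matrix.mul_one, Matrix.mul_assoc]
            _ = _ := by simp only [Matrix.mul_assoc]
      _ = JJ N := by rw [h4, Matrix.one_mul]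
  unfold gg
  rw [← hk]
  calc kᴴ * k * JJ N * (kᴴ * k) = kᴴ * (k * JJ N * kᴴ) * k := by simp only [Matrix.mul_assoc]
    _ = JJ N := by rw [h2, h1]

include hN in
theorem ri_herm : (ri q A U)ᴴ = ri q A U := by
  unfold ri
  rw [conjTranspose_mul, conjTranspose_mul, JJ_star hN, sq_herm, Matrix.mul_assoc]

include hN hq hA hU hT hUU in
/-- `ri` is the inverse of the square root of `gg`. -/
theorem ri_mul_sq : ri q A U * Pool.Agent.Helper78.BI.sq (gg q A U) = 1 := by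
  have hJ := JJ_JJ hN
  obtain ⟨Gm, hG⟩ : ∃ Gm : MN N, Gm = gg q A U := ⟨_, rfl⟩
  obtain ⟨R, hR⟩ : ∃ R : MN N, R = ri q A U := ⟨_, rfl⟩
  have hGp : Gm.PosSemidef := by
    rw [hG]
    exact gg_psd
  have h1 : Gm * JJ N * Gm = JJ N := by
    rw [hG]
    exact gg_J_gg hN hq hA hU hT hUU
  have hR1 : R = JJ N * Pool.Agent.Helper78.BI.sq Gm * JJ N := by rw [hR, hG]; rfl
  have hRR : R * R = JJ N * Gm * JJ N := by
    rw [hR1]
    calc JJ N * Pool.Agent.Helper78.BI.sq Gm * JJ N * (JJ N * Pool.Agent.Helper78.BI.sq Gm * JJ N) = JJ N * (Pool.Agent.Helper78.BI.sq Gm * (JJ N * JJ N) * Pool.Agent.Helper78.BI.sq Gm) * JJ N := by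
          simp only [Matrix.mul_assoc]
      _ = _ := by rw [hJ, Matrix.mul_one, sq_mul hGp]
  have hGi : Gm * (R * R) = 1 := by
    rw [hRR]
    calc Gm * (JJ N * Gm * JJ N) = Gm * JJ N * Gm * JJ N := by simp only [Matrix.mul_assoc]
      _ = 1 := by rw [h1, hJ]
  have hGi' : R * R * Gm = 1 := mul_eq_one_comm.1 hGi
  -- the inverse of the square root
  have hS : Pool.Agent.Helper78.BI.sq Gm * (Pool.Agent.Helper78.BI.sq Gm * (R * R)) = 1 := by rw [← Matrix.mul_assoc, sq_mul hGp, hGi]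
  obtain ⟨Si, hSi⟩ : ∃ Si : MN N, Si = Pool.Agent.Helper78.BI.sq Gm * (R * R) := ⟨_, rfl⟩
  have hS1 : Pool.Agent.Helper78.BI.sq Gm * Si = 1 := by rw [hSi, hS]
  have hS2 : Si * Pool.Agent.Helper78.BI.sq Gm = 1 := mul_eq_one_comm.1 hS1
  have hSh : Siᴴ = Si := by
    have h2 : Pool.Agent.Helper78.BI.sq Gm * Siᴴ = 1 := by
      have h3 := congrArg conjTranspose hS2
      rwa [conjTranspose_mul, sq_herm, conjTranspose_one] at h3
    calc Siᴴ = Si * Pool.Agent.Helper78.BI.sq Gm * Siᴴ := by rw [hS2, Matrix.one_mul]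
      _ = Si := by rw [Matrix.mul_assoc, h2, Matrix.mul_one]
  have hSp : Si.PosSemidef := by
    have h2 := (sq_psd Gm).conjTranspose_mul_mul_same Si
    rwa [hSh, hS2, Matrix.one_mul] at h2
  have hSS : Si * Si = R * R := by
    calc Si * Si = Si * Si * (Gm * (R * R)) := by rw [hGi, Matrix.mul_one]
      _ = Si * (Si * Pool.Agent.Helper78.BI.sq Gm) * Pool.Agent.Helper78.BI.sq Gm * (R * R) := by
          conv_lhs => rw [← sq_mul hGp]
          simp only [Matrix.mul_assoc]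
      _ = R * R := by rw [hS2, Matrix.mul_one, hS2, Matrix.one_mul]
  have hRp : R.PosSemidef := by
    have h2 := (sq_psd Gm).conjTranspose_mul_mul_same (JJ N)
    rwa [JJ_star hN, ← hR1] at h2
  have hRRp : (R * R).PosSemidef := by
    have h2 := posSemidef_conjTranspose_mul_self R
    rwa [hRp.isHermitian.eq] at h2
  have h3 : R = Si := (sq_uniq hRRp hRp rfl).symm.trans (sq_uniq hRRp hSp hSS)
  rw [← hR, ← hG, h3, hS2]

include hN hq hA hU hT hUU in
theorem sq_mul_ri : Pool.Agent.Helper78.BI.sq (gg q A U) * ri q A U = 1 := mul_eq_one_comm.1 (ri_mul_sq hN hq hA hU hT hUU)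

include hN hq hA hU hT hUU in
/-- `ko` is orthogonal. -/
theorem ko_isU : IsU (ko q A U) := by
  change (ko q A U)ᴴ * ko q A U = 1
  unfold ko
  rw [conjTranspose_mul, ri_herm hN]
  calc ri q A U * (kk q A U)ᴴ * (kk q A U * ri q A U) = ri q A U * gg q A U * ri q A U := by
        unfold gg
        simp only [Matrix.mul_assoc]
    _ = (ri q A U * Pool.Agent.Helper78.BI.sq (gg q A U)) * (Pool.Agent.Helper78.BI.sq (gg q A U) * ri q A U) := by
        conv_lhs => rw [← sq_mul (gg_psd (q := q) (A := A) (U := U))]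
        simp only [Matrix.mul_assoc]
    _ = 1 := by rw [ri_mul_sq hN hq hA hU hT hUU, sq_mul_ri hN hq hA hU hT hUU, Matrix.mul_one]

include hN hq hA hU hT hUU in
/-- `ko` preserves the form. -/
theorem ko_form : (ko q A U)ᴴ * JJ N * ko q A U = JJ N := by
  have hJ := JJ_JJ hN
  unfold ko
  rw [conjTranspose_mul, ri_herm hN]
  calc ri q A U * (kk q A U)ᴴ * JJ N * (kk q A U * ri q A U) = ri q A U * ((kk q A U)ᴴ * JJ N * kk q A U) * ri q A U := by
        simp only [Matrix.mul_assoc]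
    _ = ri q A U * JJ N * ri q A U := by rw [kk_form hN hq hA hU hT hUU]
    _ = ri q A U * (JJ N * JJ N) * Pool.Agent.Helper78.BI.sq (gg q A U) * JJ N := by
        conv_lhs => rw [show ri q A U * JJ N * ri q A U = ri q A U * JJ N * (JJ N * Pool.Agent.Helper78.BI.sq (gg q A U) * JJ N) from rfl]
        simp only [Matrix.mul_assoc]
    _ = JJ N := by rw [hJ, Matrix.mul_one, ri_mul_sq hN hq hA hU hT hUU, Matrix.one_mul]

include hN hq in
theorem E2_gg (h : gg q A U = Ef q + (mm q A U)ᴴ * mm q A U + E2 q) : E2 q * gg q A U = gg q A U * E2 q := by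
  have m1 : E2 q * ((mm q A U)ᴴ * mm q A U) = 0 := by
    rw [← Matrix.mul_assoc, ← Em_mms (A := A) (U := U) hN hq, ← Matrix.mul_assoc, E2_Em hN hq, Matrix.zero_mul, Matrix.zero_mul]
  have m2 : ((mm q A U)ᴴ * mm q A U) * E2 q = 0 := by
    rw [Matrix.mul_assoc, ← mm_Em (A := A) (U := U) hN hq, Matrix.mul_assoc _ (Em q) (E2 q), Em_E2 hN hq, Matrix.mul_zero,
      Matrix.mul_zero]
  rw [h, Matrix.mul_add, Matrix.mul_add, Matrix.add_mul, Matrix.add_mul, m1, m2, E2_Ef hN hq, Ef_E2 hN hq]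

/-- The square root commutes with the projection on the last coordinate. -/
theorem sq_commE2 (hN : 5 ≤ N) {B : MN N} (hB : B.PosSemidef) (h : E2 q * B = B * E2 q) : E2 q * Pool.Agent.Helper78.BI.sq B = Pool.Agent.Helper78.BI.sq B * E2 q := by
  have hJ := JJ_JJ hN
  have hBJ : (JJ N * B * JJ N).PosSemidef := by
    have h2 := hB.conjTranspose_mul_mul_same (JJ N)
    rwa [JJ_star hN] at h2
  have h1 : Ef q * (JJ N * B * JJ N) = (JJ N * B * JJ N) * Ef q := by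
    calc Ef q * (JJ N * B * JJ N) = (Ef q * JJ N) * B * JJ N := by simp only [Matrix.mul_assoc]
      _ = JJ N * (E2 q * B) * JJ N := by rw [Ef_JJ hN]; simp only [Matrix.mul_assoc]
      _ = JJ N * B * (E2 q * JJ N) := by rw [h]; simp only [Matrix.mul_assoc]
      _ = _ := by rw [E2_JJ hN]; simp only [Matrix.mul_assoc]
  have h2 : Pool.Agent.Helper78.BI.sq (JJ N * B * JJ N) = JJ N * Pool.Agent.Helper78.BI.sq B * JJ N := by
    refine sq_uniq hBJ ?_ ?_
    · have h2 := (sq_psd B).conjTranspose_mul_mul_same (JJ N)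
      rwa [JJ_star hN] at h2
    · calc JJ N * Pool.Agent.Helper78.BI.sq B * JJ N * (JJ N * Pool.Agent.Helper78.BI.sq B * JJ N) = JJ N * (Pool.Agent.Helper78.BI.sq B * (JJ N * JJ N) * Pool.Agent.Helper78.BI.sq B) * JJ N := by
            simp only [Matrix.mul_assoc]
        _ = _ := by rw [hJ, Matrix.mul_one, sq_mul hB]
  have h3 := sq_comm hBJ h1
  rw [h2] at h3
  calc E2 q * Pool.Agent.Helper78.BI.sq B = JJ N * (JJ N * E2 q) * Pool.Agent.Helper78.BI.sq B * (JJ N * JJ N) := by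
        rw [hJ, Matrix.mul_one, ← Matrix.mul_assoc, hJ, Matrix.one_mul]
    _ = JJ N * (Ef q * (JJ N * Pool.Agent.Helper78.BI.sq B * JJ N)) * JJ N := by rw [JJ_E2 hN]; simp only [Matrix.mul_assoc]
    _ = JJ N * (JJ N * Pool.Agent.Helper78.BI.sq B * JJ N * Ef q) * JJ N := by rw [h3]
    _ = (JJ N * JJ N) * Pool.Agent.Helper78.BI.sq B * (JJ N * Ef q) * JJ N := by simp only [Matrix.mul_assoc]
    _ = Pool.Agent.Helper78.BI.sq B * E2 q := by rw [hJ, Matrix.one_mul, JJ_Ef hN, Matrix.mul_assoc, Matrix.mul_assoc (E2 q), hJ, Matrix.mul_one]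

include hN hq hA hU hT hUU in
theorem Ef_ri : Ef q * ri q A U = ri q A U * Ef q := by
  have h := sq_commE2 (q := q) hN (gg_psd (q := q) (A := A) (U := U)) (E2_gg hN hq (kk_gram hN hq hA hU hT hUU))
  unfold ri
  calc Ef q * (JJ N * Pool.Agent.Helper78.BI.sq (gg q A U) * JJ N) = (Ef q * JJ N) * Pool.Agent.Helper78.BI.sq (gg q A U) * JJ N := by simp only [Matrix.mul_assoc]
    _ = JJ N * (E2 q * Pool.Agent.Helper78.BI.sq (gg q A U)) * JJ N := by rw [Ef_JJ hN]; simp only [Matrix.mul_assoc]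
    _ = JJ N * Pool.Agent.Helper78.BI.sq (gg q A U) * (E2 q * JJ N) := by rw [h]; simp only [Matrix.mul_assoc]
    _ = _ := by rw [E2_JJ hN]; simp only [Matrix.mul_assoc]

include hN hq hA hU hT in
/-- `kᴴ A` is block lower triangular. -/
theorem kk_lb : Lb q ((kk q A U)ᴴ * A) := by
  have h1 : Ef q * (kk q A U)ᴴ = JJ N * Uᴴ * JJ N := by
    rw [kks_eq hN, Matrix.mul_add, Matrix.mul_add, ← Em_mms (A := A) (U := U) hN hq, ← Matrix.mul_assoc (Ef q) (Em q), Ef_Em hN hq,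
      Matrix.zero_mul, ← E2_Us hN hU hT, ← Matrix.mul_assoc (Ef q) (E2 q), Ef_E2 hN hq, Matrix.zero_mul, add_zero, add_zero,
      ← Matrix.mul_assoc, ← Matrix.mul_assoc, ← Matrix.mul_assoc, Ef_JJ hN, Matrix.mul_assoc _ (E2 q) (E2 q), E2_E2 hN,
      Matrix.mul_assoc (JJ N) (E2 q) Uᴴ]
  unfold Lb
  calc Ef q * ((kk q A U)ᴴ * A) * Ee q = Ef q * (kk q A U)ᴴ * A * Ee q := by simp only [Matrix.mul_assoc]
    _ = JJ N * (Uᴴ * JJ N * A) * Ee q := by
        rw [h1]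
        simp only [Matrix.mul_assoc]
    _ = 0 := by
        rw [Us_JA hN hA hU, E2_JJ hN]
        calc JJ N * (Tᴴ * (JJ N * Ef q)) * Ee q = JJ N * (Tᴴ * (JJ N * (Ef q * Ee q))) := by simp only [Matrix.mul_assoc]
          _ = 0 := by rw [Ef_Ee, Matrix.mul_zero, Matrix.mul_zero, Matrix.mul_zero]

include hN hq hA hU hT hUU in
/-- `koᴴ A` is block lower triangular. -/
theorem ko_lb : Lb q ((ko q A U)ᴴ * A) := by
  have h := kk_lb hN hq hA hU hT
  unfold Lb at h ⊢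
  unfold ko
  rw [conjTranspose_mul, ri_herm hN]
  calc Ef q * (ri q A U * (kk q A U)ᴴ * A) * Ee q = (Ef q * ri q A U) * (kk q A U)ᴴ * A * Ee q := by
        simp only [Matrix.mul_assoc]
    _ = ri q A U * (Ef q * ((kk q A U)ᴴ * A) * Ee q) := by
        rw [Ef_ri hN hq hA hU hT hUU]
        simp only [Matrix.mul_assoc]
    _ = 0 := by rw [h, Matrix.mul_zero]

end Pool.Agent.Helper87.OB1
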