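import Pool.Agent.Helper87.OB.N2F

/-!
# Project OB (MP_0f6f3f_an), layer TZ, node 2: amenability

`CJ`: the compact group of the orthogonal matrices which are the identity on the coordinates `0, 1, N - 2, N - 1`. `favJ`: the averages over `CJ` of the densities of `am_PH`. `amnJ : AmnG (frmJ ..)`.
-/

set_option autoImplicit false
set_option linter.unusedSectionVars false

open Filter Topology Matrix MeasureTheory

namespace Pool.Agent.Helper87.OB

open Pool.Agent.Helper90.RK Pool.Agent.Helper84.NI Pool.Agent.Helper78.BI Pool.Agent.Helper55.OB Pool.Agent.Helper9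
open Pool.Agent.Helper35.FP Pool.Agent.Helper55.TZ Pool.Agent.Helper84.GN.S3
open Pool.Agent.Helper9.Lin (cjM cjM_apply cjM_mul cjM_add cjM_one cjM_star cjM_cjM)

variable {N : ℕ} (hN : 5 ≤ N) {q : Fin N} (hq : (q : ℕ) = 1)

include hN hq in
theorem Ef_q' : Ef (q' q) = 1 - E2 q := by
  rw [E2_eq hN hq, Ee_eq]
  abel

include hq in
/-- the elements of `HQ` are block lower triangular for the last two coordinates -/
theorem lb_q' {x : (sr q).M} (hx : x ∈ HQ hN q) : Lb (q' q) ((sr q).mt x) := by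
  have h1 : (sr q).mt x = JJ N * ((sr q).mt x⁻¹)ᴴ * JJ N := by
    rw [← mt_th hN, (mem_MJ' hN q).1 hx.1]
  have h2 : Ef q * (sr q).mt x⁻¹ * Ee q = 0 := ((sr q).Qh.inv_mem hx.2)
  have h3 : Ee q * ((sr q).mt x⁻¹)ᴴ * Ef q = 0 := by
    have h4 := congrArg conjTranspose h2
    rwa [conjTranspose_mul, conjTranspose_mul, Ef_star, Ee_star, conjTranspose_zero, ← Matrix.mul_assoc] at h4
  unfold Lb
  rw [Ef_q' hN hq, ← E2_eq hN hq, h1]
  have h4 : (1 - E2 q) * JJ N = JJ N * Ee q := by rw [Matrix.sub_mul, Matrix.one_mul, E2_JJ hN, Ee_eq, Matrix.mul_sub, Matrix.mul_one]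
  calc (1 - E2 q) * (JJ N * ((sr q).mt x⁻¹)ᴴ * JJ N) * E2 q = (1 - E2 q) * JJ N * ((sr q).mt x⁻¹)ᴴ * (JJ N * E2 q) := by
        simp only [Matrix.mul_assoc]
    _ = JJ N * (Ee q * ((sr q).mt x⁻¹)ᴴ * Ef q) * JJ N := by
        rw [h4, JJ_E2 hN]
        simp only [Matrix.mul_assoc]
    _ = 0 := by rw [h3, Matrix.mul_zero, Matrix.zero_mul]

include hq in
theorem E2_blk {x : (sr q).M} (hx : x ∈ HQ hN q) : (sr q).mt x * E2 q = E2 q * (sr q).mt x * E2 q := by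
  have h1 := lb_q' hN hq hx
  unfold Lb at h1
  rw [Ef_q' hN hq, ← E2_eq hN hq, Matrix.sub_mul, Matrix.sub_mul, Matrix.one_mul] at h1
  exact sub_eq_zero.1 h1

include hq in
/-- the middle block is orthogonal -/
theorem Em_gram {x : (sr q).M} (hx : x ∈ HQ hN q) :
    (Em q * (sr q).mt x * Em q)ᴴ * (Em q * (sr q).mt x * Em q) = Em q := by
  obtain ⟨A, hA⟩ : ∃ A : MN N, A = (sr q).mt x := ⟨_, rfl⟩
  have hJ : Aᴴ * JJ N * A = JJ N := by rw [hA]; exact (mem_MJ hN q).1 hx.1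
  have hL : Ef q * A * Ee q = 0 := by rw [hA]; exact hx.2
  rw [← hA]
  obtain ⟨Y, hY⟩ : ∃ Y : MN N, Y = Em q * A * Em q := ⟨_, rfl⟩
  obtain ⟨Z, hZ⟩ : ∃ Z : MN N, Z = E2 q * A * Em q := ⟨_, rfl⟩
  rw [← hY]
  have e1 : A * Em q = Y + Z := by
    have h1 : Ef q * A * Em q = 0 := by
      rw [← Ee_Em hN hq, ← Matrix.mul_assoc, hL, Matrix.zero_mul]
    calc A * Em q = (Ef q + Em q + E2 q) * A * Em q := by rw [Em_add, Matrix.one_mul]
      _ = Ef q * A * Em q + Em q * A * Em q + E2 q * A * Em q := by rw [Matrix.add_mul, Matrix.add_mul, Matrix.add_mul, Matrix.add_mul]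
      _ = Y + Z := by rw [h1, zero_add, hY, hZ]
  have y1 : Em q * Y = Y := by rw [hY, ← Matrix.mul_assoc, ← Matrix.mul_assoc, Em_Em hN hq]
  have z1 : E2 q * Z = Z := by rw [hZ, ← Matrix.mul_assoc, ← Matrix.mul_assoc, E2_E2 hN]
  have y2 : Yᴴ * Em q = Yᴴ := by
    have := congrArg conjTranspose y1
    rwa [conjTranspose_mul, Em_star hN] at this
  have z2 : Zᴴ * E2 q = Zᴴ := by
    have := congrArg conjTranspose z1
    rwa [conjTranspose_mul, E2_star hN] at this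
  have j1 : JJ N * Y = Y := by
    conv_lhs => rw [← y1]
    rw [← Matrix.mul_assoc, JJ_Em hN hq, y1]
  have j2 : JJ N * Z = Ef q * (JJ N * Z) := by
    conv_lhs => rw [← z1]
    rw [← Matrix.mul_assoc, JJ_E2 hN, Matrix.mul_assoc]
  have f1 : Yᴴ * (JJ N * Z) = 0 := by
    rw [j2, ← y2, Matrix.mul_assoc, ← Matrix.mul_assoc (Em q), Em_Ef hN hq, Matrix.zero_mul, Matrix.mul_zero]
  have f2 : Zᴴ * (JJ N * Z) = 0 := by
    rw [j2, ← z2, Matrix.mul_assoc, ← Matrix.mul_assoc (E2 q), E2_Ef hN hq, Matrix.zero_mul, Matrix.mul_zero]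
  have f3 : Zᴴ * Y = 0 := by
    rw [← y1, ← z2, Matrix.mul_assoc, ← Matrix.mul_assoc (E2 q), E2_Em hN hq, Matrix.zero_mul, Matrix.mul_zero]
  have e2 : (A * Em q)ᴴ * JJ N * (A * Em q) = Em q := by
    rw [conjTranspose_mul, Em_star hN]
    calc Em q * Aᴴ * JJ N * (A * Em q) = Em q * (Aᴴ * JJ N * A) * Em q := by simp only [Matrix.mul_assoc]
      _ = Em q := by rw [hJ, Em_JJ hN hq, Em_Em hN hq]
  rw [e1, conjTranspose_add, Matrix.mul_assoc, Matrix.mul_add, Matrix.add_mul, Matrix.mul_add, Matrix.mul_add, j1, f1, f2, f3,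
    add_zero, add_zero, add_zero] at e2
  exact e2

include hq in
/-- the last block is a scalar if the first one is -/
theorem E2_scalar {x : (sr q).M} (hx : x ∈ HQ hN q) {b : ℂ} (hb : Ef q * (sr q).mt x * Ef q = b • Ef q) :
    E2 q * (sr q).mt x * E2 q = (star b)⁻¹ • E2 q := by
  obtain ⟨A, hA⟩ : ∃ A : MN N, A = (sr q).mt x := ⟨_, rfl⟩
  have hJ : Aᴴ * JJ N * A = JJ N := by rw [hA]; exact (mem_MJ hN q).1 hx.1
  have h2 : A * E2 q = E2 q * A * E2 q := by rw [hA]; exact E2_blk hN hq hx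
  rw [← hA] at hb ⊢
  have h3 : Ef q * Aᴴ * Ef q = star b • Ef q := by
    have := congrArg conjTranspose hb
    rwa [conjTranspose_mul, conjTranspose_mul, Ef_star, conjTranspose_smul, Ef_star, ← Matrix.mul_assoc] at this
  have h4 : star b • (E2 q * A * E2 q) = E2 q := by
    have e1 : Ef q * (Aᴴ * JJ N * A) * E2 q = Ef q * Aᴴ * Ef q * (JJ N * (E2 q * A * E2 q)) := by
      calc Ef q * (Aᴴ * JJ N * A) * E2 q = Ef q * Aᴴ * JJ N * (A * E2 q) := by simp only [Matrix.mul_assoc]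
        _ = Ef q * Aᴴ * (JJ N * E2 q) * A * E2 q := by
            rw [h2]
            simp only [Matrix.mul_assoc]
        _ = Ef q * Aᴴ * (Ef q * Ef q * JJ N) * A * E2 q := by rw [JJ_E2 hN, Ef_Ef]
        _ = Ef q * Aᴴ * Ef q * (Ef q * JJ N) * A * E2 q := by simp only [Matrix.mul_assoc]
        _ = _ := by
            rw [Ef_JJ hN]
            simp only [Matrix.mul_assoc]
    rw [hJ, h3, Matrix.smul_mul, ← Matrix.mul_assoc (Ef q), Ef_JJ hN, Matrix.mul_assoc (JJ N) (E2 q) (E2 q), E2_E2 hN,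
      Matrix.mul_assoc (JJ N) (E2 q)] at e1
    have e2 : E2 q * (E2 q * A * E2 q) = E2 q * A * E2 q := by rw [← Matrix.mul_assoc, ← Matrix.mul_assoc, E2_E2 hN]
    rw [e2, ← Matrix.mul_smul] at e1
    calc star b • (E2 q * A * E2 q) = JJ N * (JJ N * (star b • (E2 q * A * E2 q))) := by
          rw [← Matrix.mul_assoc, JJ_JJ hN, Matrix.one_mul]
      _ = E2 q := by rw [← e1, ← Matrix.mul_assoc, JJ_JJ hN, Matrix.one_mul]
  by_cases hb0 : star b = 0
  · rw [hb0, zero_smul] at h4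
    rw [← h4, Matrix.mul_zero, smul_zero]
  · rw [← h4, smul_smul, inv_mul_cancel₀ hb0, one_smul, h4]

/-- The compact group of the averages. -/
noncomputable def CJ (q : Fin N) : Subgroup (sr q).M where
  carrier := {D | IsU ((sr q).mt D) ∧ (Ef q * (sr q).mt D = Ef q ∧ (sr q).mt D * Ef q = Ef q) ∧
    (E2 q * (sr q).mt D = E2 q ∧ (sr q).mt D * E2 q = E2 q)}
  mul_mem' {a b} ha hb := by
    obtain ⟨a1, ⟨a2, a3⟩, a4, a5⟩ := ha
    obtain ⟨b1, ⟨b2, b3⟩, b4, b5⟩ := hb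
    refine ⟨isU_mul a1 b1, ⟨?_, ?_⟩, ?_, ?_⟩
    · rw [Sg.mt_mul, ← Matrix.mul_assoc, a2, b2]
    · rw [Sg.mt_mul, Matrix.mul_assoc, b3, a3]
    · rw [Sg.mt_mul, ← Matrix.mul_assoc, a4, b4]
    · rw [Sg.mt_mul, Matrix.mul_assoc, b5, a5]
  one_mem' := ⟨by
    change (1 : MN N)ᴴ * 1 = 1
    rw [conjTranspose_one, Matrix.one_mul], ⟨by rw [Sg.mt_one, Matrix.mul_one], by rw [Sg.mt_one, Matrix.one_mul]⟩,
      by rw [Sg.mt_one, Matrix.mul_one], by rw [Sg.mt_one, Matrix.one_mul]⟩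
  inv_mem' {a} ha := by
    obtain ⟨a1, ⟨a2, a3⟩, a4, a5⟩ := ha
    have e : (sr q).mt a⁻¹ = ((sr q).mt a)ᴴ := by
      have h1 : ((sr q).mt a)ᴴ * (sr q).mt a = 1 := a1
      calc (sr q).mt a⁻¹ = ((sr q).mt a)ᴴ * (sr q).mt a * (sr q).mt a⁻¹ := by rw [h1, Matrix.one_mul]
        _ = _ := by rw [Matrix.mul_assoc, (sr q).mt_mul_inv, Matrix.mul_one]
    refine ⟨by rw [e]; exact isU_star a1, ⟨?_, ?_⟩, ?_, ?_⟩
    · calc Ef q * (sr q).mt a⁻¹ = Ef q * (sr q).mt a * (sr q).mt a⁻¹ := by rw [a2]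
        _ = _ := by rw [Matrix.mul_assoc, (sr q).mt_mul_inv, Matrix.mul_one]
    · calc (sr q).mt a⁻¹ * Ef q = (sr q).mt a⁻¹ * ((sr q).mt a * Ef q) := by rw [a3]
        _ = _ := by rw [← Matrix.mul_assoc, (sr q).mt_inv_mul, Matrix.one_mul]
    · calc E2 q * (sr q).mt a⁻¹ = E2 q * (sr q).mt a * (sr q).mt a⁻¹ := by rw [a4]
        _ = _ := by rw [Matrix.mul_assoc, (sr q).mt_mul_inv, Matrix.mul_one]
    · calc (sr q).mt a⁻¹ * E2 q = (sr q).mt a⁻¹ * ((sr q).mt a * E2 q) := by rw [a5]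
        _ = _ := by rw [← Matrix.mul_assoc, (sr q).mt_inv_mul, Matrix.one_mul]

theorem compact_CJ : IsCompact (CJ q : Set (sr q).M) := by
  refine (sr q).isCompact_UU.of_isClosed_subset ?_ (fun D hD => hD.1)
  have h1 : Continuous fun g : (sr q).M => ((sr q).mt g)ᴴ * (sr q).mt g :=
    (sr q).continuous_mt.matrix_conjTranspose.mul (sr q).continuous_mt
  have h2 : ∀ B : MN N, Continuous fun g : (sr q).M => B * (sr q).mt g := fun B => continuous_const.mul (sr q).continuous_mt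
  have h3 : ∀ B : MN N, Continuous fun g : (sr q).M => (sr q).mt g * B := fun B => (sr q).continuous_mt.mul continuous_const
  exact (isClosed_eq h1 continuous_const).inter (((isClosed_eq (h2 _) continuous_const).inter (isClosed_eq (h3 _) continuous_const)).inter
    ((isClosed_eq (h2 _) continuous_const).inter (isClosed_eq (h3 _) continuous_const)))

instance compactSpace_CJ : CompactSpace (CJ q) := isCompact_iff_compactSpace.1 compact_CJ

noncomputable instance measurableSpace_CJ : MeasurableSpace (CJ q) := borel _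

instance borelSpace_CJ : BorelSpace (CJ q) := ⟨rfl⟩

/-- There is an invariant probability measure. -/
theorem exists_haarCJ : ∃ μ : Measure (CJ q), IsProbabilityMeasure μ ∧ μ.IsMulLeftInvariant := by
  refine ⟨Measure.haarMeasure ⊤, ⟨?_⟩, inferInstance⟩
  have h := Measure.haarMeasure_self (K₀ := (⊤ : TopologicalSpace.PositiveCompacts (CJ q)))
  simpa using h

theorem CJ_Em {D : (sr q).M} (hD : D ∈ CJ q) : (sr q).mt D * Em q = Em q * (sr q).mt D := by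
  obtain ⟨-, ⟨D2, D3⟩, D4, D5⟩ := hD
  unfold Em
  rw [Matrix.mul_sub, Matrix.mul_sub, Matrix.sub_mul, Matrix.sub_mul, D2, D3, D4, D5, Matrix.one_mul, Matrix.mul_one]

include hq in
theorem CJ_le {D : (sr q).M} (hD : D ∈ CJ q) : D ∈ HQ hN q := by
  have hE := CJ_Em hD
  obtain ⟨D1, ⟨D2, D3⟩, D4, D5⟩ := hD
  constructor
  · rw [SetLike.mem_coe, Subgroup.mem_toSubmonoid, mem_MJ]
    have e1 : (sr q).mt D = Ef q + Em q * (sr q).mt D + E2 q := by
      calc (sr q).mt D = (Ef q + Em q + E2 q) * (sr q).mt D := by rw [Em_add, Matrix.one_mul]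
        _ = _ := by rw [Matrix.add_mul, Matrix.add_mul, D2, D4]
    have e2 : JJ N * (sr q).mt D = (sr q).mt D * JJ N := by
      rw [e1, Matrix.mul_add, Matrix.mul_add, Matrix.add_mul, Matrix.add_mul, JJ_Ef hN, JJ_E2 hN, ← Matrix.mul_assoc, JJ_Em hN hq, ← hE,
        Matrix.mul_assoc _ (Em q) (JJ N), Em_JJ hN hq]
      abel
    rw [Matrix.mul_assoc, e2, ← Matrix.mul_assoc, show ((sr q).mt D)ᴴ * (sr q).mt D = 1 from D1, Matrix.one_mul]
  · change Ef q * (sr q).mt D * Ee q = 0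
    rw [D2, Ef_Ee]

section Av

variable {G : Type} [Group G] {ql : MN N → MN N} (h1 : ∀ A, IsU (ql A)) (h2 : ∀ A : MN N, A.det ≠ 0 → Lt ((ql A)ᴴ * A))
  {A : Finset G} {κ : MN N → G → ℝ}
  (k0 : ∀ k t, 0 ≤ κ k t) (kA : ∀ k t, t ∉ A → κ k t = 0) (kS : ∀ k, IsU k → ∑ t ∈ A, κ k t = 1)
  (kc : ∀ ε' : ℝ, 0 < ε' → ∃ d' : ℝ, 0 < d' ∧ ∀ k k' : MN N, IsU k → IsU k' →
    (∀ i j : Fin N, i < j → ‖(kᴴ * k') i j‖ ≤ d') → ∑ t ∈ A, |κ k t - κ k' t| ≤ ε')
  (μ : Measure (CJ q)) [IsProbabilityMeasure μ] [μ.IsMulLeftInvariant]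

include h1 h2 k0 kA kS kc in
theorem integrable_FJ (t : G) (g : (sr q).M) : Integrable (fun D : CJ q => κ (ql ((sr q).mt (g * D))) t) μ := by
  have hc : Continuous fun D : CJ q => κ (ql ((sr q).mt (g * D))) t :=
    (continuous_F (sr q) h1 h2 kA kc t).comp (continuous_const.mul continuous_subtype_val)
  refine (integrable_const (1 : ℝ)).mono' hc.aestronglyMeasurable (ae_of_all _ fun D => ?_)
  rw [Real.norm_eq_abs, abs_of_nonneg (k0 _ _)]
  exact κ_le k0 kA kS (h1 _) t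

variable (ql κ) in
/-- The averages. -/
noncomputable def favJ (t : G) (g : (sr q).M) : ℝ := ∫ D, κ (ql ((sr q).mt (g * (D : CJ q)))) t ∂μ

include k0 in
theorem favJ_nonneg (t : G) (g : (sr q).M) : 0 ≤ favJ ql κ μ t g := integral_nonneg fun _ => k0 _ _

include kA in
theorem favJ_zero {t : G} (ht : t ∉ A) (g : (sr q).M) : favJ ql κ μ t g = 0 := by
  unfold favJ
  rw [integral_congr_ae (ae_of_all _ fun D => kA _ t ht), integral_zero]

include h1 h2 k0 kA kS kc in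
theorem continuous_favJ (t : G) : Continuous (favJ ql κ μ t) := by
  refine continuous_of_dominated (bound := fun _ => (1 : ℝ)) (fun g => ?_) (fun g => ?_) (integrable_const _) ?_
  · exact (integrable_FJ h1 h2 k0 kA kS kc μ t g).aestronglyMeasurable
  · refine ae_of_all _ fun D => ?_
    rw [Real.norm_eq_abs, abs_of_nonneg (k0 _ _)]
    exact κ_le k0 kA kS (h1 _) t
  · exact ae_of_all _ fun D => (continuous_F (sr q) h1 h2 kA kc t).comp (continuous_mul_const _)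

include h1 h2 k0 kA kS kc in
theorem favJ_sum (g : (sr q).M) : ∑ t ∈ A, favJ ql κ μ t g = 1 := by
  unfold favJ
  rw [← integral_finsetSum _ fun t _ => integrable_FJ h1 h2 k0 kA kS kc μ t g,
    integral_congr_ae (ae_of_all _ fun D => kS _ (h1 _))]
  simp

include hq in
/-- the correction by an element of `CJ` makes the element lower triangular -/
theorem exists_dJ {x : (sr q).M} (hx : x ∈ HQ hN q) {b : ℂ} (hb : Ef q * (sr q).mt x * Ef q = b • Ef q) :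
    ∃ d ∈ CJ q, ∀ D ∈ CJ q, Lt ((sr q).mt (D⁻¹ * d⁻¹ * x * D)) := by
  obtain ⟨Y, hY⟩ : ∃ Y : MN N, Y = Em q * (sr q).mt x * Em q := ⟨_, rfl⟩
  have hYY : Yᴴ * Y = Em q := by rw [hY]; exact Em_gram hN hq hx
  have y1 : Em q * Y = Y := by rw [hY, ← Matrix.mul_assoc, ← Matrix.mul_assoc, Em_Em hN hq]
  have y2 : Y * Em q = Y := by rw [hY, Matrix.mul_assoc _ (Em q) (Em q), Em_Em hN hq]
  have y3 : Ef q * Y = 0 := by rw [← y1, ← Matrix.mul_assoc, Ef_Em hN hq, Matrix.zero_mul]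
  have y4 : Y * Ef q = 0 := by rw [← y2, Matrix.mul_assoc, Em_Ef hN hq, Matrix.mul_zero]
  have y5 : E2 q * Y = 0 := by rw [← y1, ← Matrix.mul_assoc, E2_Em hN hq, Matrix.zero_mul]
  have y6 : Y * E2 q = 0 := by rw [← y2, Matrix.mul_assoc, Em_E2 hN hq, Matrix.mul_zero]
  have y3' : Yᴴ * Ef q = 0 := by
    have := congrArg conjTranspose y3
    rwa [conjTranspose_mul, Ef_star, conjTranspose_zero] at this
  have y5' : Yᴴ * E2 q = 0 := by
    have := congrArg conjTranspose y5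
    rwa [conjTranspose_mul, E2_star hN, conjTranspose_zero] at this
  have y1' : Yᴴ * Em q = Yᴴ := by
    have := congrArg conjTranspose y1
    rwa [conjTranspose_mul, Em_star hN] at this
  have y2' : Em q * Yᴴ = Yᴴ := by
    have := congrArg conjTranspose y2
    rwa [conjTranspose_mul, Em_star hN] at this
  obtain ⟨D0, hD0⟩ : ∃ D0 : MN N, D0 = Ef q + Y + E2 q := ⟨_, rfl⟩
  have hD0s : D0ᴴ = Ef q + Yᴴ + E2 q := by
    rw [hD0, conjTranspose_add, conjTranspose_add, Ef_star, E2_star hN]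
  have hD1 : D0ᴴ * D0 = 1 := by
    rw [hD0s, hD0, Matrix.add_mul, Matrix.add_mul, Matrix.mul_add, Matrix.mul_add, Matrix.mul_add, Matrix.mul_add, Matrix.mul_add,
      Matrix.mul_add, Ef_Ef, y3, Ef_E2 hN hq, y3', hYY, y5', E2_Ef hN hq, y5, E2_E2 hN, ← Em_add (q := q)]
    abel
  have hσ : (sr q).σ D0 = D0 := by
    rw [hD0, (sr q).add, (sr q).add, (sr q).blk, σ_E2, hY, (sr q).mul, (sr q).mul, σ_Em, (sr q).σ_mt]
  obtain ⟨d, hd⟩ : ∃ d : (sr q).M, (sr q).mt d = D0 ∧ (sr q).mt d⁻¹ = D0ᴴ :=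
    ⟨(sr q).mkm D0 D0ᴴ (mul_eq_one_comm.1 hD1) hσ, rfl, rfl⟩
  have hdC : d ∈ CJ q := by
    refine ⟨?_, ⟨?_, ?_⟩, ?_, ?_⟩
    · change ((sr q).mt d)ᴴ * (sr q).mt d = 1
      rw [hd.1, hD1]
    · rw [hd.1, hD0, Matrix.mul_add, Matrix.mul_add, Ef_Ef, y3, Ef_E2 hN hq, add_zero, add_zero]
    · rw [hd.1, hD0, Matrix.add_mul, Matrix.add_mul, Ef_Ef, y4, E2_Ef hN hq, add_zero, add_zero]
    · rw [hd.1, hD0, Matrix.mul_add, Matrix.mul_add, E2_Ef hN hq, y5, E2_E2 hN, add_zero, zero_add]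
    · rw [hd.1, hD0, Matrix.add_mul, Matrix.add_mul, Ef_E2 hN hq, y6, E2_E2 hN, add_zero, zero_add]
  refine ⟨d, hdC, fun D hD => ?_⟩
  have hDi : D⁻¹ ∈ CJ q := (CJ q).inv_mem hD
  have hdi : d⁻¹ ∈ CJ q := (CJ q).inv_mem hdC
  have hz : D⁻¹ * d⁻¹ * x * D ∈ HQ hN q :=
    (HQ hN q).mul_mem ((HQ hN q).mul_mem ((HQ hN q).mul_mem (CJ_le hN hq hDi) (CJ_le hN hq hdi)) hx) (CJ_le hN hq hD)
  have ez : (sr q).mt (D⁻¹ * d⁻¹ * x * D) = (sr q).mt D⁻¹ * (sr q).mt d⁻¹ * (sr q).mt x * (sr q).mt D := by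
    rw [Sg.mt_mul, Sg.mt_mul, Sg.mt_mul]
  have z0 : Ef q * (sr q).mt (D⁻¹ * d⁻¹ * x * D) * Ef q = b • Ef q := by
    rw [ez]
    calc Ef q * ((sr q).mt D⁻¹ * (sr q).mt d⁻¹ * (sr q).mt x * (sr q).mt D) * Ef q
        = Ef q * (sr q).mt D⁻¹ * (sr q).mt d⁻¹ * (sr q).mt x * ((sr q).mt D * Ef q) := by simp only [Matrix.mul_assoc]
      _ = _ := by rw [hDi.2.1.1, hdi.2.1.1, hD.2.1.2, hb]
  have z2 : E2 q * (sr q).mt (D⁻¹ * d⁻¹ * x * D) * E2 q = (star b)⁻¹ • E2 q := by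
    rw [ez]
    calc E2 q * ((sr q).mt D⁻¹ * (sr q).mt d⁻¹ * (sr q).mt x * (sr q).mt D) * E2 q
        = E2 q * (sr q).mt D⁻¹ * (sr q).mt d⁻¹ * (sr q).mt x * ((sr q).mt D * E2 q) := by simp only [Matrix.mul_assoc]
      _ = _ := by rw [hDi.2.2.1, hdi.2.2.1, hD.2.2.2, E2_scalar hN hq hx hb]
  have z1 : Em q * (sr q).mt (D⁻¹ * d⁻¹ * x * D) * Em q = Em q := by
    rw [ez]
    calc Em q * ((sr q).mt D⁻¹ * (sr q).mt d⁻¹ * (sr q).mt x * (sr q).mt D) * Em q
        = (Em q * (sr q).mt D⁻¹) * (sr q).mt d⁻¹ * (sr q).mt x * ((sr q).mt D * Em q) := by simp only [Matrix.mul_assoc]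
      _ = (sr q).mt D⁻¹ * (Em q * D0ᴴ * (sr q).mt x * Em q) * (sr q).mt D := by
          rw [← CJ_Em hDi, CJ_Em hD, hd.2]
          simp only [Matrix.mul_assoc]
      _ = (sr q).mt D⁻¹ * (Yᴴ * (Em q * (sr q).mt x * Em q)) * (sr q).mt D := by
          rw [hD0s, Matrix.mul_add, Matrix.mul_add, Em_Ef hN hq, y2', Em_E2 hN hq, add_zero, zero_add]
          conv_lhs => rw [← y1']
          simp only [Matrix.mul_assoc]
      _ = _ := by
          rw [← hY, hYY, Matrix.mul_assoc, ← CJ_Em hD, ← Matrix.mul_assoc, (sr q).mt_inv_mul, Matrix.one_mul]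
  have l0 := lb_iff.1 hz.2
  have l2 := lb_iff.1 (lb_q' hN hq hz)
  obtain ⟨Z, hZ⟩ : ∃ Z : MN N, Z = (sr q).mt (D⁻¹ * d⁻¹ * x * D) := ⟨_, rfl⟩
  rw [← hZ] at z0 z1 z2 l0 l2 ⊢
  intro i j hij
  by_cases hj : j ≤ q
  · have hi : i ≤ q := hij.le.trans hj
    have h5 := congrFun (congrFun z0 i) j
    rw [mul_Ef_apply, Ef_mul_apply, if_pos hj, if_pos hi, Matrix.smul_apply] at h5
    rw [h5]
    unfold Ef
    rw [diagonal_apply_ne _ hij.ne, smul_zero]
  · by_cases hi : i ≤ q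
    · exact l0 i j hi (not_le.1 hj)
    · by_cases hi' : i ≤ q' q
      · by_cases hj' : j ≤ q' q
        · -- the middle block
          have e3 : Em q = Ee q - Ee (q' q) := by
            rw [← E2_eq hN hq, Ee_Em_E2]
            abel
          have h5 := congrFun (congrFun z1 i) j
          rw [e3, Matrix.sub_mul, Matrix.mul_sub, Matrix.sub_mul, Matrix.sub_mul] at h5
          simp only [Matrix.sub_apply, mul_Ee_apply, Ee_mul_apply, if_neg hj, if_pos hj', if_neg hi, if_pos hi', sub_zero] at h5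
          rw [h5]
          unfold Ee
          rw [diagonal_apply_ne _ hij.ne, diagonal_apply_ne _ hij.ne, sub_zero]
        · exact l2 i j hi' (not_le.1 hj')
      · have hj' : ¬ j ≤ q' q := fun h => hi' (hij.le.trans h)
        have h5 := congrFun (congrFun z2 i) j
        rw [E2_eq hN hq, mul_Ee_apply, Ee_mul_apply, if_neg hj', if_neg hi', Matrix.smul_apply] at h5
        rw [h5]
        unfold Ee
        rw [diagonal_apply_ne _ hij.ne, smul_zero]

include h1 h2 kA kc hN hq in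
/-- The invariance. -/
theorem favJ_inv (t : G) (g : (sr q).M) {x : (sr q).M} (hx : x ∈ HQ hN q) {c : ℂ}
    (hc : cor q (nu q ((sr q).mt x)) = c • 1) : favJ ql κ μ t (g * x) = favJ ql κ μ t g := by
  -- the block of `x`
  have hb : ∃ b : ℂ, Ef q * (sr q).mt x * Ef q = b • Ef q := by
    obtain ⟨δ, hδ⟩ : ∃ δ : ℝ, δ = Pool.Agent.Helper78.BI.dt q ((sr q).mt x) := ⟨_, rfl⟩
    have hδ0 : δ ≠ 0 := by
      rw [hδ]
      exact dt_ne hx.2 ((sr q).mt_mul_inv x)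
    have h5 : Ef q * nu q ((sr q).mt x) * Ef q = c • Ef q := by
      rw [← emb_cor, hc, emb_smul, emb_one]
    have h6 : Ef q * nu q ((sr q).mt x) * Ef q = ((δ⁻¹ : ℝ) : ℂ) • (Ef q * (sr q).mt x * Ef q) := by
      unfold nu
      rw [← hδ, ← Matrix.mul_assoc, Matrix.mul_assoc (Ef q * sc q δ⁻¹), bk_Ef, sc_eq, Matrix.mul_add, Ef_Ee, add_zero,
        Matrix.mul_smul, Ef_Ef, Matrix.smul_mul, ← Matrix.mul_assoc, ← Matrix.mul_assoc, Ef_Ef]
    refine ⟨(δ : ℂ) * c, ?_⟩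
    rw [← smul_smul, ← h5, h6, smul_smul, ← Complex.ofReal_mul, mul_inv_cancel₀ hδ0, Complex.ofReal_one, one_smul]
  obtain ⟨b, hb⟩ := hb
  obtain ⟨d, hdC, hd⟩ := exists_dJ hN hq hx hb
  have key : ∀ D : CJ q, κ (ql ((sr q).mt (g * x * D))) t = κ (ql ((sr q).mt (g * ((⟨d, hdC⟩ * D : CJ q) : (sr q).M)))) t := by
    intro D
    have e1 : g * x * D = g * ((⟨d, hdC⟩ * D : CJ q) : (sr q).M) * ((D : (sr q).M)⁻¹ * d⁻¹ * x * D) := by
      rw [Subgroup.coe_mul]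
      group
    rw [e1]
    exact F_mul (sr q) h1 h2 kA kc t _ _ (hd D D.2)
  unfold favJ
  rw [integral_congr_ae (ae_of_all _ key)]
  exact integral_mul_left_eq_self (μ := μ) (fun D : CJ q => κ (ql ((sr q).mt (g * (D : (sr q).M)))) t) ⟨d, hdC⟩

end Av

/-- **The action of the discrete group is amenable.** -/
theorem amnJ {G : Type} [Group G] {P : PH G N} {S : Sv P} (h : SO2 P S) (T : Str S) (hb : ∀ i, T.b i = 0 ↔ i ≤ q) :
    AmnG (frmJ h hq T hb) := by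
  intro Q ε hε
  obtain ⟨ql, h1, h2, -, -⟩ := exists_ql N
  obtain ⟨A, κ, d, hd, k0, kA, kS, kh, kc⟩ := am_PH P Q (pow_pos hε 2)
  obtain ⟨μ, hμ1, hμ2⟩ := exists_haarCJ (q := q)
  have h2' : ∀ A : MN N, A.det ≠ 0 → Lt ((ql A)ᴴ * A) := h2
  have hZ : ∀ a b : (sr q).M, a⁻¹ * b ∈ (sr q).Z0 → ∀ t, favJ ql κ μ t a = favJ ql κ μ t b := by
    intro a b hab t
    have hx : (sr q).prQ ⟨a⁻¹ * b, (sr q).Z0_le hab⟩ = 1 := Subtype.ext ((QuotientGroup.eq_one_iff _).2 hab)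
    obtain ⟨c, hc⟩ := (QuotientGroup.eq_one_iff _).1 ((sr q).nb0_ker hx)
    have h3 := favJ_inv h.hN hq h1 h2' kA kc μ t a (Z0_le_HQ h.hN q hab) hc
    rw [← h3]
    congr 1
    exact mul_inv_cancel_left a b
  obtain ⟨p, hp⟩ : ∃ p : G → GJ h.hN q → ℝ, ∀ t (g : MJ h.hN q), p t (prJ h.hN q g) = √(favJ ql κ μ t g) :=
    ⟨fun t x => √(favJ ql κ μ t ((Function.surjInv (prJ_surj h.hN q) x : MJ h.hN q) : (sr q).M)), fun t g => congrArg Real.sqrt
      (hZ _ _ (prJ_eq h.hN (Function.surjInv_eq (prJ_surj h.hN q) (prJ h.hN q g))) t)⟩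
  refine ⟨A, p, fun t => ?_, fun t g => ?_, fun t ht g => ?_, fun g => ?_, fun t g y hy => ?_, fun h' hh g S'' => ?_⟩
  · rw [(isQuotientMap_prJ h.hN q).continuous_iff]
    exact (Real.continuous_sqrt.comp ((continuous_favJ h1 h2' k0 kA kS kc μ t).comp continuous_subtype_val)).congr
      fun g => (hp t g).symm
  · obtain ⟨g, rfl⟩ := prJ_surj h.hN q g
    exact (hp t g).symm ▸ Real.sqrt_nonneg _
  · obtain ⟨g, rfl⟩ := prJ_surj h.hN q g
    rw [hp t g, favJ_zero kA μ ht, Real.sqrt_zero]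
  · obtain ⟨g, rfl⟩ := prJ_surj h.hN q g
    rw [← favJ_sum h1 h2' k0 kA kS kc μ (g : (sr q).M)]
    refine Finset.sum_congr rfl fun t _ => ?_
    rw [hp t g, Real.sq_sqrt (favJ_nonneg k0 μ t g)]
  · obtain ⟨g, rfl⟩ := prJ_surj h.hN q g
    obtain ⟨x, rfl⟩ := prQJ_surj h.hN q y
    have hx : (sr q).nb0 ⟨x, x.2.2⟩ = 1 := by
      rw [← nbJ_prQJ]
      exact hy
    obtain ⟨c, hc⟩ := (QuotientGroup.eq_one_iff _).1 hx
    have e1 : prJ h.hN q g * ((prQJ h.hN q x : QJ h.hN q) : GJ h.hN q) = prJ h.hN q (g * ⟨x, x.2.1⟩) :=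
      (map_mul (prJ h.hN q) g ⟨x, x.2.1⟩).symm
    rw [e1, hp, hp]
    congr 1
    exact favJ_inv h.hN hq h1 h2' kA kc μ t g x.2 hc
  · obtain ⟨g, rfl⟩ := prJ_surj h.hN q g
    have e1 : (frmJ h hq T hb).ir h' * prJ h.hN q g = prJ h.hN q (⟨(fraJ h q).ie h', ie_mem h h'⟩ * g) :=
      (map_mul (prJ h.hN q) ⟨(fraJ h q).ie h', ie_mem h h'⟩ g).symm
    have e2 : ∀ t ∈ S'', (p t ((frmJ h hq T hb).ir h' * prJ h.hN q g) - p (h'⁻¹ * t) (prJ h.hN q g)) ^ 2 ≤
        |favJ ql κ μ t ((fraJ h q).ie h' * g) - favJ ql κ μ (h'⁻¹ * t) g| := by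
      intro t _
      rw [e1, hp, hp]
      exact Pool.Agent.Helper55.TZ.sqrt_sub_sq_le (favJ_nonneg k0 μ _ _) (favJ_nonneg k0 μ _ _)
    refine (Finset.sum_le_sum e2).trans ?_
    have hI : ∀ t, Integrable (fun D : CJ q => κ (ql ((sr q).mt ((fraJ h q).ie h' * g * D))) t -
        κ (ql ((sr q).mt ((g : (sr q).M) * D))) (h'⁻¹ * t)) μ :=
      fun t => (integrable_FJ h1 h2' k0 kA kS kc μ t _).sub (integrable_FJ h1 h2' k0 kA kS kc μ _ (g : (sr q).M))
    calc ∑ t ∈ S'', |favJ ql κ μ t ((fraJ h q).ie h' * g) - favJ ql κ μ (h'⁻¹ * t) g|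
        ≤ ∑ t ∈ S'', ∫ D, |κ (ql ((sr q).mt ((fraJ h q).ie h' * g * (D : CJ q)))) t -
            κ (ql ((sr q).mt ((g : (sr q).M) * (D : CJ q)))) (h'⁻¹ * t)| ∂μ := by
          refine Finset.sum_le_sum fun t _ => ?_
          unfold favJ
          rw [← integral_sub (integrable_FJ h1 h2' k0 kA kS kc μ t _) (integrable_FJ h1 h2' k0 kA kS kc μ _ (g : (sr q).M))]
          exact abs_integral_le_integral_abs
      _ = ∫ D, ∑ t ∈ S'', |κ (ql ((sr q).mt ((fraJ h q).ie h' * g * (D : CJ q)))) t -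
            κ (ql ((sr q).mt ((g : (sr q).M) * (D : CJ q)))) (h'⁻¹ * t)| ∂μ :=
          (integral_finsetSum _ fun t _ => (hI t).abs).symm
      _ ≤ ∫ _D : CJ q, ε ^ 2 ∂μ := by
          refine integral_mono_of_nonneg (ae_of_all _ fun D => Finset.sum_nonneg fun _ _ => abs_nonneg _)
            (integrable_const _) (ae_of_all _ fun D => ?_)
          refine kh h' hh _ _ (h1 _) (h1 _) (fun i j hij => ?_) S''
          have e3 : (ql ((sr q).mt ((fraJ h q).ie h' * g * D)))ᴴ * P.ι h' * ql ((sr q).mt ((g : (sr q).M) * D)) =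
              ((ql ((sr q).mt ((fraJ h q).ie h' * g * D)))ᴴ * (sr q).mt ((fraJ h q).ie h' * g * D)) *
                ((sr q).mt ((g : (sr q).M) * D)⁻¹ * ql ((sr q).mt ((g : (sr q).M) * D))) := by
            have e4 : (sr q).mt ((fraJ h q).ie h' * g * D) * (sr q).mt ((g : (sr q).M) * D)⁻¹ = P.ι h' := by
              rw [← Sg.mt_mul, ← (fraJ h q).mt_ie]
              congr 1
              group
            rw [← e4]
            simp only [Matrix.mul_assoc]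
          rw [e3]
          have h5 := ((h2' _ (det_ne ((sr q).mt_mul_inv ((fraJ h q).ie h' * g * D)))).mul
            (lt_inv_ql h1 h2' ((sr q).mt_mul_inv ((g : (sr q).M) * D)))) i j hij
          rw [h5, norm_zero]
          exact hd.le
      _ = ε ^ 2 := by simp

end Pool.Agent.Helper87.OB
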