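import Pool.Agent.Helper55.OB.Defs
import Pool.Agent.Helper78.BI.Top
import Pool.Agent.Helper9.FP.Fr1

/-!
# Project OB (MP_0f6f3f_an), layer TZ, node 2: the form and the projections

`J = JJ N`, `Ef q` (`q = 1`): the projection on the coordinates `0, 1`, `E2 q = J Ef J`: the projection on the coordinates `N - 2, N - 1`, `Em q`: the projection on the other coordinates.
-/

set_option autoImplicit false
set_option linter.unusedSectionVars false

open Filter Topology Matrix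

namespace Pool.Agent.Helper87.OB

open Pool.Agent.Helper90.RK Pool.Agent.Helper84.NI Pool.Agent.Helper78.BI Pool.Agent.Helper55.OB
open Pool.Agent.Helper9.Lin (cjM cjM_apply cjM_mul cjM_add cjM_one cjM_star cjM_cjM)

variable {N : ℕ} {q : Fin N}

theorem jj_val (hN : 5 ≤ N) (i : Fin N) : (jj N i : ℕ) = if (i : ℕ) < 2 ∨ N ≤ (i : ℕ) + 2 then N - 1 - (i : ℕ) else i := by
  unfold jj
  split_ifs with h
  · rw [Fin.val_rev]
    omega
  · rfl

theorem jj_jj (hN : 5 ≤ N) (i : Fin N) : jj N (jj N i) = i := by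
  apply Fin.ext
  rw [jj_val hN, jj_val hN]
  have := i.2
  split_ifs <;> omega

theorem JJ_apply (i j : Fin N) : JJ N i j = if j = jj N i then 1 else 0 := rfl

theorem JJ_mul_apply (A : MN N) (i j : Fin N) : (JJ N * A) i j = A (jj N i) j := by
  rw [Matrix.mul_apply, Finset.sum_eq_single (jj N i)]
  · rw [JJ_apply, if_pos rfl, one_mul]
  · intro k _ hk
    rw [JJ_apply, if_neg hk, zero_mul]
  · intro h
    exact absurd (Finset.mem_univ _) h

theorem mul_JJ_apply (hN : 5 ≤ N) (A : MN N) (i j : Fin N) : (A * JJ N) i j = A i (jj N j) := by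
  rw [Matrix.mul_apply, Finset.sum_eq_single (jj N j)]
  · rw [JJ_apply, jj_jj hN, if_pos rfl, mul_one]
  · intro k _ hk
    rw [JJ_apply, if_neg, mul_zero]
    intro h
    rw [h, jj_jj hN] at hk
    exact hk rfl
  · intro h
    exact absurd (Finset.mem_univ _) h

theorem JJ_JJ (hN : 5 ≤ N) : JJ N * JJ N = 1 := by
  ext i j
  rw [JJ_mul_apply, JJ_apply, jj_jj hN, Matrix.one_apply]
  simp only [eq_comm]

theorem JJ_star (hN : 5 ≤ N) : (JJ N)ᴴ = JJ N := by
  ext i j
  rw [Matrix.conjTranspose_apply, JJ_apply, JJ_apply]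
  by_cases h : j = jj N i
  · rw [if_pos h, if_pos (by rw [h, jj_jj hN]), star_one]
  · rw [if_neg h, if_neg (fun h' => h (by rw [h', jj_jj hN])), star_zero]

theorem JJ_cj : cjM (JJ N) = JJ N := by
  ext i j
  rw [cjM_apply, JJ_apply]
  split_ifs <;> simp

theorem JJ_tr (hN : 5 ≤ N) : (JJ N)ᵀ = JJ N := by
  have h : (JJ N)ᵀ = cjM (JJ N)ᴴ := by
    ext i j
    rw [cjM_apply, Matrix.transpose_apply, Matrix.conjTranspose_apply, RCLike.star_def, Complex.conj_conj]
  rw [h, JJ_star hN, JJ_cj]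

theorem tr_eq_star {A : MN N} (h : cjM A = A) : Aᵀ = Aᴴ := by
  have h1 : Aᵀ = cjM Aᴴ := by
    ext i j
    rw [cjM_apply, Matrix.transpose_apply, Matrix.conjTranspose_apply, RCLike.star_def, Complex.conj_conj]
  rw [h1, cjM_star, h]

/-- the last two coordinates -/
def E2 (q : Fin N) : MN N := JJ N * Ef q * JJ N

/-- the middle coordinates -/
def Em (q : Fin N) : MN N := 1 - Ef q - E2 q

theorem E2_diag (hN : 5 ≤ N) : E2 q = diagonal fun i => if jj N i ≤ q then 1 else 0 := by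
  unfold E2 Ef
  ext i j
  rw [mul_JJ_apply hN, JJ_mul_apply, diagonal_apply, diagonal_apply]
  by_cases h : i = j
  · rw [h, if_pos rfl, if_pos rfl]
  · rw [if_neg h, if_neg]
    intro h'
    exact h (by rw [← jj_jj hN i, h', jj_jj hN])

theorem jj_le_iff (hN : 5 ≤ N) (hq : (q : ℕ) = 1) (i : Fin N) : jj N i ≤ q ↔ N ≤ (i : ℕ) + 2 := by
  rw [Fin.le_def, jj_val hN, hq]
  have := i.2
  split_ifs <;> omega

/-- the second index of the decomposition -/
def q' (q : Fin N) : Fin N := ⟨N - 1 - ((q : ℕ) + 1), by have := q.2; omega⟩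

theorem E2_eq (hN : 5 ≤ N) (hq : (q : ℕ) = 1) : E2 q = Ee (q' q) := by
  rw [E2_diag hN]
  unfold Ee
  congr 1
  funext i
  have h1 : i ≤ q' q ↔ ¬ jj N i ≤ q := by
    rw [jj_le_iff hN hq, Fin.le_def]
    change (i : ℕ) ≤ N - 1 - ((q : ℕ) + 1) ↔ _
    rw [hq]
    omega
  by_cases h : jj N i ≤ q
  · rw [if_pos h, if_neg (fun h' => h1.1 h' h)]
  · rw [if_neg h, if_pos (h1.2 h)]

variable (hN : 5 ≤ N) (hq : (q : ℕ) = 1)

include hN hq

theorem Ef_E2 : Ef q * E2 q = 0 := by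
  rw [E2_diag hN]
  unfold Ef
  rw [diagonal_mul_diagonal, ← diagonal_zero]
  congr 1
  funext i
  have h1 := jj_le_iff hN hq i
  have h2 : i ≤ q ↔ (i : ℕ) ≤ 1 := by rw [Fin.le_def, hq]
  by_cases h : i ≤ q
  · have : ¬ jj N i ≤ q := by
      rw [h1]
      have := h2.1 h
      omega
    rw [if_pos h, if_neg this, one_mul]
  · rw [if_neg h, zero_mul]

theorem E2_Ef : E2 q * Ef q = 0 := by
  have h := congrArg conjTranspose (Ef_E2 hN hq)
  rw [conjTranspose_mul, conjTranspose_zero, Ef_star] at h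
  have h2 : (E2 q)ᴴ = E2 q := by
    unfold E2
    rw [conjTranspose_mul, conjTranspose_mul, JJ_star hN, Ef_star, Matrix.mul_assoc]
  rwa [h2] at h

omit hq in
theorem E2_star : (E2 q)ᴴ = E2 q := by
  unfold E2
  rw [conjTranspose_mul, conjTranspose_mul, JJ_star hN, Ef_star, Matrix.mul_assoc]

omit hq in
theorem E2_E2 : E2 q * E2 q = E2 q := by
  unfold E2
  calc JJ N * Ef q * JJ N * (JJ N * Ef q * JJ N) = JJ N * Ef q * (JJ N * JJ N) * Ef q * JJ N := by
        simp only [Matrix.mul_assoc]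
    _ = _ := by
        rw [JJ_JJ hN, Matrix.mul_one, Matrix.mul_assoc (JJ N) (Ef q) (Ef q), Ef_Ef]

omit hq in
theorem JJ_Ef : JJ N * Ef q = E2 q * JJ N := by
  unfold E2
  rw [Matrix.mul_assoc _ (JJ N) (JJ N), JJ_JJ hN, Matrix.mul_one]

omit hq in
theorem Ef_JJ : Ef q * JJ N = JJ N * E2 q := by
  unfold E2
  rw [← Matrix.mul_assoc, ← Matrix.mul_assoc, JJ_JJ hN, Matrix.one_mul]

omit hq in
theorem JJ_E2 : JJ N * E2 q = Ef q * JJ N := (Ef_JJ hN).symm

omit hq in
theorem E2_JJ : E2 q * JJ N = JJ N * Ef q := (JJ_Ef hN).symm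

omit hN hq in
theorem Em_add : Ef q + Em q + E2 q = 1 := by
  unfold Em
  abel

omit hN hq in
theorem Ee_Em_E2 : Ee q = Em q + E2 q := by
  rw [Ee_eq]
  unfold Em
  abel

theorem Ef_Em : Ef q * Em q = 0 := by
  unfold Em
  rw [Matrix.mul_sub, Matrix.mul_sub, Matrix.mul_one, Ef_Ef, Ef_E2 hN hq, sub_self, sub_zero]

theorem Em_Ef : Em q * Ef q = 0 := by
  unfold Em
  rw [Matrix.sub_mul, Matrix.sub_mul, Matrix.one_mul, Ef_Ef, E2_Ef hN hq, sub_self, sub_zero]

theorem E2_Em : E2 q * Em q = 0 := by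
  unfold Em
  rw [Matrix.mul_sub, Matrix.mul_sub, Matrix.mul_one, E2_Ef hN hq, E2_E2 hN, sub_zero, sub_self]

theorem Em_E2 : Em q * E2 q = 0 := by
  unfold Em
  rw [Matrix.sub_mul, Matrix.sub_mul, Matrix.one_mul, Ef_E2 hN hq, E2_E2 hN, sub_zero, sub_self]

theorem Em_Em : Em q * Em q = Em q := by
  have h : Em q * Em q = (1 - Ef q - E2 q) * Em q := rfl
  rw [h, Matrix.sub_mul, Matrix.sub_mul, Matrix.one_mul, Ef_Em hN hq, E2_Em hN hq, sub_zero, sub_zero]

omit hq in
theorem Em_star : (Em q)ᴴ = Em q := by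
  unfold Em
  rw [conjTranspose_sub, conjTranspose_sub, conjTranspose_one, Ef_star, E2_star hN]

theorem JJ_Em : JJ N * Em q = Em q := by
  have h1 : Em q = diagonal fun i => if i ≤ q ∨ jj N i ≤ q then 0 else 1 := by
    unfold Em Ef
    rw [E2_diag hN, ← diagonal_one, diagonal_sub, diagonal_sub]
    congr 1
    funext i
    have h1 := jj_le_iff hN hq i
    have h2 : i ≤ q ↔ (i : ℕ) ≤ 1 := by rw [Fin.le_def, hq]
    by_cases h : i ≤ q
    · have : ¬ jj N i ≤ q := by
        rw [h1]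
        have := h2.1 h
        omega
      rw [if_pos h, if_neg this, if_pos (Or.inl h)]
      norm_num
    · by_cases h' : jj N i ≤ q
      · rw [if_neg h, if_pos h', if_pos (Or.inr h')]
        norm_num
      · rw [if_neg h, if_neg h', if_neg (by tauto)]
        norm_num
  rw [h1]
  ext i j
  rw [JJ_mul_apply, diagonal_apply, diagonal_apply]
  have h2 : ∀ i : Fin N, ¬ (i ≤ q ∨ jj N i ≤ q) → jj N i = i := by
    intro i hi
    push Not at hi
    have h3 := (jj_le_iff hN hq i).not.1 (not_le.2 hi.2)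
    have h4 : (1 : ℕ) < i := by
      have := hi.1
      rw [Fin.lt_def, hq] at this
      exact this
    unfold jj
    rw [if_neg]
    omega
  by_cases hi : i ≤ q ∨ jj N i ≤ q
  · have hi' : jj N i ≤ q ∨ jj N (jj N i) ≤ q := by
      rw [jj_jj hN]
      exact hi.symm
    rw [if_pos hi', if_pos hi]
    simp
  · have hi' : ¬ (jj N i ≤ q ∨ jj N (jj N i) ≤ q) := by
      rw [jj_jj hN]
      exact fun h => hi h.symm
    rw [if_neg hi', if_neg hi, h2 i hi]

theorem Em_JJ : Em q * JJ N = Em q := by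
  have h := congrArg conjTranspose (JJ_Em hN hq)
  rwa [conjTranspose_mul, Em_star hN, JJ_star hN] at h

theorem E2_Ee : E2 q * Ee q = E2 q := by rw [Ee_Em_E2, Matrix.mul_add, E2_Em hN hq, E2_E2 hN, zero_add]

theorem Ee_E2 : Ee q * E2 q = E2 q := by rw [Ee_Em_E2, Matrix.add_mul, Em_E2 hN hq, E2_E2 hN, zero_add]

theorem Em_Ee : Em q * Ee q = Em q := by rw [Ee_Em_E2, Matrix.mul_add, Em_E2 hN hq, Em_Em hN hq, add_zero]

theorem Ee_Em : Ee q * Em q = Em q := by rw [Ee_Em_E2, Matrix.add_mul, E2_Em hN hq, Em_Em hN hq, add_zero]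

end Pool.Agent.Helper87.OB
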