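import Pool.Agent.Helper87.OB.N2M

/-!
# Project OB (MP_0f6f3f_an), layer TZ, node 2: the Iwasawa decomposition of `O(J)` (matrices)

`kk q A U = J U J + (1 - U Uᴴ) A Em + U`: if `Aᴴ J A = J` and the columns of `U = A E2 T` are orthonormal, then `k = kk q A U` is orthogonal, preserves `J`, and `kᴴ A` is block lower triangular.
-/

set_option autoImplicit false
set_option linter.unusedSectionVars false

open Filter Topology Matrix
open scoped MatrixOrder ComplexOrder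

namespace Pool.Agent.Helper87.OB

open Pool.Agent.Helper90.RK Pool.Agent.Helper84.NI Pool.Agent.Helper78.BI Pool.Agent.Helper55.OB Pool.Agent.Helper9

variable {N : ℕ} {q : Fin N}

/-- the middle part -/
def mm (q : Fin N) (A U : MN N) : MN N := (1 - U * Uᴴ) * (A * Em q)

/-- the orthogonal matrix -/
def kk (q : Fin N) (A U : MN N) : MN N := JJ N * U * JJ N + mm q A U + U

variable (hN : 5 ≤ N) (hq : (q : ℕ) = 1) {A U T : MN N} (hA : Aᴴ * JJ N * A = JJ N) (hU : U = A * E2 q * T) (hT : T * E2 q = T)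
  (hUU : Uᴴ * U = E2 q)

include hU hT in
theorem U_E2 : U * E2 q = U := by rw [hU, Matrix.mul_assoc, hT]

include hN hU hT in
theorem E2_Us : E2 q * Uᴴ = Uᴴ := by
  have h := congrArg conjTranspose (U_E2 hU hT)
  rwa [conjTranspose_mul, E2_star hN] at h

include hN hA hU in
theorem Us_JA : Uᴴ * JJ N * A = Tᴴ * (E2 q * JJ N) := by
  rw [hU, conjTranspose_mul, conjTranspose_mul, E2_star hN]
  calc Tᴴ * (E2 q * Aᴴ) * JJ N * A = Tᴴ * E2 q * (Aᴴ * JJ N * A) := by simp only [Matrix.mul_assoc]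
    _ = _ := by rw [hA, Matrix.mul_assoc]

include hN hq hA hU in
theorem Us_J_U : Uᴴ * JJ N * U = 0 := by
  have h1 : Uᴴ * JJ N * U = Uᴴ * JJ N * A * (E2 q * T) := by
    calc Uᴴ * JJ N * U = Uᴴ * JJ N * (A * E2 q * T) := by rw [← hU]
      _ = _ := by simp only [Matrix.mul_assoc]
  rw [h1, Us_JA hN hA hU]
  calc Tᴴ * (E2 q * JJ N) * (E2 q * T) = Tᴴ * (E2 q * (JJ N * E2 q)) * T := by simp only [Matrix.mul_assoc]
    _ = 0 := by rw [JJ_E2 hN, ← Matrix.mul_assoc (E2 q), E2_Ef hN hq, Matrix.zero_mul, Matrix.mul_zero, Matrix.zero_mul]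

include hN hq hA hU in
theorem Us_J_A_Em : Uᴴ * JJ N * (A * Em q) = 0 := by
  rw [← Matrix.mul_assoc, Us_JA hN hA hU, Matrix.mul_assoc, Matrix.mul_assoc, JJ_Em hN hq, E2_Em hN hq, Matrix.mul_zero]

include hN hq hU hT hUU in
theorem Us_mm : Uᴴ * mm q A U = 0 := by
  unfold mm
  rw [Matrix.sub_mul, Matrix.one_mul, Matrix.mul_sub]
  have h : Uᴴ * (U * Uᴴ * (A * Em q)) = Uᴴ * U * Uᴴ * (A * Em q) := by simp only [Matrix.mul_assoc]
  rw [h, hUU, E2_Us hN hU hT, sub_self]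

include hN hq hA hU in
theorem Us_J_mm : Uᴴ * JJ N * mm q A U = 0 := by
  unfold mm
  rw [Matrix.sub_mul, Matrix.one_mul, Matrix.mul_sub, Us_J_A_Em hN hq hA hU]
  have h : Uᴴ * JJ N * (U * Uᴴ * (A * Em q)) = Uᴴ * JJ N * U * Uᴴ * (A * Em q) := by simp only [Matrix.mul_assoc]
  rw [h, Us_J_U hN hq hA hU, Matrix.zero_mul, Matrix.zero_mul, sub_zero]

include hN hq hA hU in
theorem mms_J_U : (mm q A U)ᴴ * JJ N * U = 0 := by
  have h := congrArg conjTranspose (Us_J_mm hN hq hA hU)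
  rwa [conjTranspose_mul, conjTranspose_mul, conjTranspose_conjTranspose, JJ_star hN, conjTranspose_zero, ← Matrix.mul_assoc] at h

include hN hq hU hT hUU in
theorem mms_U : (mm q A U)ᴴ * U = 0 := by
  have h := congrArg conjTranspose (Us_mm (A := A) hN hq hU hT hUU)
  rwa [conjTranspose_mul, conjTranspose_conjTranspose, conjTranspose_zero] at h

include hN in
theorem mms_eq : (mm q A U)ᴴ = Em q * Aᴴ * (1 - U * Uᴴ) := by
  unfold mm
  rw [conjTranspose_mul, conjTranspose_mul, Em_star hN, conjTranspose_sub, conjTranspose_mul, conjTranspose_conjTranspose,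
    conjTranspose_one]

include hN hq hA hU in
theorem mms_J_mm : (mm q A U)ᴴ * JJ N * mm q A U = Em q := by
  have h0 : (mm q A U)ᴴ * JJ N * mm q A U = (mm q A U)ᴴ * JJ N * (A * Em q) := by
    have e : mm q A U = A * Em q - U * Uᴴ * (A * Em q) := by
      unfold mm
      rw [Matrix.sub_mul, Matrix.one_mul]
    have h : (mm q A U)ᴴ * JJ N * (U * Uᴴ * (A * Em q)) = (mm q A U)ᴴ * JJ N * U * Uᴴ * (A * Em q) := by
      simp only [Matrix.mul_assoc]
    calc (mm q A U)ᴴ * JJ N * mm q A U = (mm q A U)ᴴ * JJ N * (A * Em q - U * Uᴴ * (A * Em q)) := by rw [← e]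
      _ = _ := by rw [Matrix.mul_sub, h, mms_J_U hN hq hA hU, Matrix.zero_mul, Matrix.zero_mul, sub_zero]
  rw [h0, mms_eq hN, Matrix.mul_sub, Matrix.mul_one, Matrix.sub_mul, Matrix.sub_mul]
  have h1 : Em q * Aᴴ * JJ N * (A * Em q) = Em q := by
    calc Em q * Aᴴ * JJ N * (A * Em q) = Em q * (Aᴴ * JJ N * A) * Em q := by simp only [Matrix.mul_assoc]
      _ = Em q := by rw [hA, Em_JJ hN hq, Em_Em hN hq]
  have h2 : Em q * Aᴴ * (U * Uᴴ) * JJ N * (A * Em q) = Em q * Aᴴ * U * (Uᴴ * JJ N * (A * Em q)) := by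
    simp only [Matrix.mul_assoc]
  rw [h1, h2, Us_J_A_Em hN hq hA hU, Matrix.mul_zero, sub_zero]

include hN in
theorem kks_eq : (kk q A U)ᴴ = JJ N * Uᴴ * JJ N + (mm q A U)ᴴ + Uᴴ := by
  unfold kk
  rw [conjTranspose_add, conjTranspose_add, conjTranspose_mul, conjTranspose_mul, JJ_star hN]
  simp only [Matrix.mul_assoc]

include hN in
theorem J_E2_J : JJ N * E2 q * JJ N = Ef q := by
  rw [JJ_E2 hN, Matrix.mul_assoc, JJ_JJ hN, Matrix.mul_one]

include hN hq hA hU hT hUU in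
/-- `k` preserves the form. -/
theorem kk_form : (kk q A U)ᴴ * JJ N * kk q A U = JJ N := by
  have hJ := JJ_JJ hN
  have a1 : JJ N * Uᴴ * JJ N * JJ N * (JJ N * U * JJ N) = 0 := by
    calc JJ N * Uᴴ * JJ N * JJ N * (JJ N * U * JJ N) = JJ N * (Uᴴ * (JJ N * JJ N) * JJ N * U) * JJ N := by
          simp only [Matrix.mul_assoc]
      _ = 0 := by rw [hJ, Matrix.mul_one, Us_J_U hN hq hA hU, Matrix.mul_zero, Matrix.zero_mul]
  have a2 : JJ N * Uᴴ * JJ N * JJ N * mm q A U = 0 := by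
    calc JJ N * Uᴴ * JJ N * JJ N * mm q A U = JJ N * (Uᴴ * (JJ N * JJ N) * mm q A U) := by simp only [Matrix.mul_assoc]
      _ = 0 := by rw [hJ, Matrix.mul_one, Us_mm hN hq hU hT hUU, Matrix.mul_zero]
  have a3 : JJ N * Uᴴ * JJ N * JJ N * U = JJ N * E2 q := by
    calc JJ N * Uᴴ * JJ N * JJ N * U = JJ N * (Uᴴ * (JJ N * JJ N) * U) := by simp only [Matrix.mul_assoc]
      _ = _ := by rw [hJ, Matrix.mul_one, hUU]
  have b1 : (mm q A U)ᴴ * JJ N * (JJ N * U * JJ N) = 0 := by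
    calc (mm q A U)ᴴ * JJ N * (JJ N * U * JJ N) = (mm q A U)ᴴ * (JJ N * JJ N) * U * JJ N := by simp only [Matrix.mul_assoc]
      _ = 0 := by rw [hJ, Matrix.mul_one, mms_U hN hq hU hT hUU, Matrix.zero_mul]
  have c1 : Uᴴ * JJ N * (JJ N * U * JJ N) = E2 q * JJ N := by
    calc Uᴴ * JJ N * (JJ N * U * JJ N) = Uᴴ * (JJ N * JJ N) * U * JJ N := by simp only [Matrix.mul_assoc]
      _ = _ := by rw [hJ, Matrix.mul_one, hUU]
  rw [kks_eq hN]
  unfold kk
  rw [Matrix.add_mul, Matrix.add_mul, Matrix.add_mul, Matrix.add_mul, Matrix.mul_add, Matrix.mul_add, Matrix.mul_add, Matrix.mul_add,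
    Matrix.mul_add, Matrix.mul_add, a1, a2, a3, b1, c1, mms_J_mm hN hq hA hU, mms_J_U hN hq hA hU, Us_J_mm hN hq hA hU,
    Us_J_U hN hq hA hU]
  have h : JJ N = JJ N * (Ef q + Em q + E2 q) := by rw [Em_add, Matrix.mul_one]
  conv_rhs => rw [h]
  rw [Matrix.mul_add, Matrix.mul_add, JJ_Em hN hq, JJ_Ef hN]
  abel

include hN hq hA hU hT hUU in
theorem kk_gram : (kk q A U)ᴴ * kk q A U = Ef q + (mm q A U)ᴴ * mm q A U + E2 q := by
  have hJ := JJ_JJ hN
  have a1 : JJ N * Uᴴ * JJ N * (JJ N * U * JJ N) = Ef q := by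
    calc JJ N * Uᴴ * JJ N * (JJ N * U * JJ N) = JJ N * (Uᴴ * (JJ N * JJ N) * U) * JJ N := by
          simp only [Matrix.mul_assoc]
      _ = _ := by rw [hJ, Matrix.mul_one, hUU, J_E2_J hN]
  have a2 : JJ N * Uᴴ * JJ N * mm q A U = 0 := by
    calc JJ N * Uᴴ * JJ N * mm q A U = JJ N * (Uᴴ * JJ N * mm q A U) := by simp only [Matrix.mul_assoc]
      _ = 0 := by rw [Us_J_mm hN hq hA hU, Matrix.mul_zero]
  have a3 : JJ N * Uᴴ * JJ N * U = 0 := by
    calc JJ N * Uᴴ * JJ N * U = JJ N * (Uᴴ * JJ N * U) := by simp only [Matrix.mul_assoc]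
      _ = 0 := by rw [Us_J_U hN hq hA hU, Matrix.mul_zero]
  have b1 : (mm q A U)ᴴ * (JJ N * U * JJ N) = 0 := by
    calc (mm q A U)ᴴ * (JJ N * U * JJ N) = (mm q A U)ᴴ * JJ N * U * JJ N := by simp only [Matrix.mul_assoc]
      _ = 0 := by rw [mms_J_U hN hq hA hU, Matrix.zero_mul]
  have c1 : Uᴴ * (JJ N * U * JJ N) = 0 := by
    calc Uᴴ * (JJ N * U * JJ N) = Uᴴ * JJ N * U * JJ N := by simp only [Matrix.mul_assoc]
      _ = 0 := by rw [Us_J_U hN hq hA hU, Matrix.zero_mul]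
  rw [kks_eq hN]
  unfold kk
  rw [Matrix.add_mul, Matrix.add_mul, Matrix.mul_add, Matrix.mul_add, Matrix.mul_add, Matrix.mul_add,
    Matrix.mul_add, Matrix.mul_add, a1, a2, a3, b1, c1, mms_U hN hq hU hT hUU, Us_mm hN hq hU hT hUU, hUU]
  abel

include hN hq in
theorem mm_Em : mm q A U * Em q = mm q A U := by
  unfold mm
  rw [Matrix.mul_assoc, Matrix.mul_assoc A, Em_Em hN hq]

include hN hq in
theorem Em_mms : Em q * (mm q A U)ᴴ = (mm q A U)ᴴ := by
  have h := congrArg conjTranspose (mm_Em (A := A) (U := U) hN hq)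
  rwa [conjTranspose_mul, Em_star hN] at h

include hN hq hA hU hT hUU in
/-- `k` is orthogonal. -/
theorem kk_isU : IsU (kk q A U) := by
  obtain ⟨k, hk⟩ : ∃ k : MN N, k = kk q A U := ⟨_, rfl⟩
  obtain ⟨Gm, hG⟩ : ∃ Gm : MN N, Gm = kᴴ * k := ⟨_, rfl⟩
  have hJ := JJ_JJ hN
  have h1 : kᴴ * JJ N * k = JJ N := by rw [hk]; exact kk_form hN hq hA hU hT hUU
  have h2 : k * JJ N * kᴴ = JJ N := by
    have h3 : (JJ N * kᴴ * JJ N) * k = 1 := by
      calc (JJ N * kᴴ * JJ N) * k = JJ N * (kᴴ * JJ N * k) := by simp only [Matrix.mul_assoc]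
        _ = 1 := by rw [h1, hJ]
    have h4 : k * (JJ N * kᴴ * JJ N) = 1 := mul_eq_one_comm.1 h3
    calc k * JJ N * kᴴ = k * (JJ N * kᴴ * JJ N) * JJ N := by
          calc k * JJ N * kᴴ = k * (JJ N * kᴴ) * (JJ N * JJ N) := by rw [hJ, Matrix.mul_one, Matrix.mul_assoc]
            _ = _ := by simp only [Matrix.mul_assoc]
      _ = JJ N := by rw [h4, Matrix.one_mul]
  have h3 : Gm * JJ N * Gm = JJ N := by
    calc Gm * JJ N * Gm = kᴴ * (k * JJ N * kᴴ) * k := by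
          rw [hG]
          simp only [Matrix.mul_assoc]
      _ = JJ N := by rw [h2, h1]
  have hM : Gm = Ef q + (mm q A U)ᴴ * mm q A U + E2 q := by
    rw [hG, hk]
    exact kk_gram hN hq hA hU hT hUU
  have h4 : JJ N * Gm = Gm * JJ N := by
    have m1 : JJ N * ((mm q A U)ᴴ * mm q A U) = (mm q A U)ᴴ * mm q A U := by
      rw [← Matrix.mul_assoc]
      conv_lhs => rw [← Em_mms (A := A) (U := U) hN hq]
      rw [← Matrix.mul_assoc (JJ N), JJ_Em hN hq, Em_mms hN hq]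
    have m2 : ((mm q A U)ᴴ * mm q A U) * JJ N = (mm q A U)ᴴ * mm q A U := by
      rw [Matrix.mul_assoc]
      conv_lhs => rw [← mm_Em (A := A) (U := U) hN hq]
      rw [Matrix.mul_assoc (mm q A U), Em_JJ hN hq, mm_Em hN hq]
    rw [hM, Matrix.mul_add, Matrix.mul_add, Matrix.add_mul, Matrix.add_mul, m1, m2, JJ_Ef hN, JJ_E2 hN]
    abel
  have h5 : Gm * Gm = 1 := by
    have h6 : Gm * Gm * JJ N = JJ N := by rw [Matrix.mul_assoc, ← h4, ← Matrix.mul_assoc, h3]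
    calc Gm * Gm = Gm * Gm * JJ N * JJ N := by rw [Matrix.mul_assoc _ (JJ N), hJ, Matrix.mul_one]
      _ = 1 := by rw [h6, hJ]
  have hG' : Gm.PosSemidef := by
    rw [hG]
    exact posSemidef_conjTranspose_mul_self _
  have h7 : Gm = 1 := (sq_uniq PosSemidef.one hG' h5).symm.trans (sq_uniq PosSemidef.one PosSemidef.one (Matrix.mul_one 1))
  change (kk q A U)ᴴ * kk q A U = 1
  rw [← hk, ← hG, h7]

include hN hq hA hU hT in
/-- `kᴴ A` is block lower triangular. -/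
theorem kk_lb : Lb q ((kk q A U)ᴴ * A) := by
  have h1 : Ef q * (kk q A U)ᴴ = JJ N * Uᴴ * JJ N := by
    rw [kks_eq hN, Matrix.mul_add, Matrix.mul_add, ← Em_mms (A := A) (U := U) hN hq, ← Matrix.mul_assoc (Ef q) (Em q), Ef_Em hN hq,
      Matrix.zero_mul, ← E2_Us hN hU hT, ← Matrix.mul_assoc (Ef q) (E2 q), Ef_E2 hN hq, Matrix.zero_mul, add_zero, add_zero,
      ← Matrix.mul_assoc, ← Matrix.mul_assoc, ← Matrix.mul_assoc, Ef_JJ hN, Matrix.mul_assoc _ (E2 q) (E2 q), E2_E2 hN,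
      Matrix.mul_assoc (JJ N) (E2 q) Uᴴ]
  unfold Lb
  calc Ef q * ((kk q A U)ᴴ * A) * Ee q = Ef q * (kk q A U)ᴴ * A * Ee q := by simp only [Matrix.mul_assoc]
    _ = JJ N * (Uᴴ * JJ N * A) * Ee q := by
        rw [h1]
        simp only [Matrix.mul_assoc]
    _ = 0 := by
        rw [Us_JA hN hA hU, E2_JJ hN]
        calc JJ N * (Tᴴ * (JJ N * Ef q)) * Ee q = JJ N * (Tᴴ * (JJ N * (Ef q * Ee q))) := by simp only [Matrix.mul_assoc]
          _ = 0 := by rw [Ef_Ee, Matrix.mul_zero, Matrix.mul_zero, Matrix.mul_zero]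

end Pool.Agent.Helper87.OB
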