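import Pool.Agent.Helper26.OB.Defs

/-!
# OB: block F1, residue degrees along an orbit over a finite field
-/

set_option autoImplicit false

namespace Pool.Agent.Helper87.OB

open Pool.Agent.Helper61.TH Pool.Agent.Helper87.FK Pool.Agent.Helper26.OB

noncomputable section

/-! ### the projective line -/

section Pr

variable {F : Type*} [Field F]

/-- homogeneous coordinates -/
def rep : Option F → Fin 2 → F
  | none => ![1, 0]
  | some t => ![t, 1]

theorem rep_ne (q : Option F) : rep q ≠ 0 := by
  intro h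
  cases q with
  | none => simpa [rep] using congrFun h 0
  | some t => simpa [rep] using congrFun h 1

theorem pr_none {x : Fin 2 → F} (h : x 1 = 0) : pr x = none := by
  unfold pr
  rw [if_pos h]

theorem pr_some {x : Fin 2 → F} (h : x 1 ≠ 0) : pr x = some (x 0 / x 1) := by
  unfold pr
  rw [if_neg h]

theorem pr_rep (q : Option F) : pr (rep q) = q := by
  cases q with
  | none => exact pr_none (by simp [rep])
  | some t => rw [pr_some (by simp [rep])]; simp [rep]

/-- `x` is a multiple of the representative of its point -/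
theorem eq_smul_rep {x : Fin 2 → F} (hx : x ≠ 0) : ∃ a : F, a ≠ 0 ∧ x = fun i => a * rep (pr x) i := by
  by_cases h : x 1 = 0
  · have h0 : x 0 ≠ 0 := by
      intro h0
      apply hx
      funext i
      fin_cases i
      · exact h0
      · exact h
    refine ⟨x 0, h0, ?_⟩
    rw [pr_none h]
    funext i
    fin_cases i <;> simp [rep, h]
  · refine ⟨x 1, h, ?_⟩
    rw [pr_some h]
    funext i
    fin_cases i
    · simp only [rep, Fin.zero_eta, Matrix.cons_val_zero]
      field_simp
    · simp [rep]

/-- two nonzero vectors give the same point if the determinant vanishes -/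
theorem pr_eq_iff {x y : Fin 2 → F} (hx : x ≠ 0) (hy : y ≠ 0) : pr x = pr y ↔ x 0 * y 1 = y 0 * x 1 := by
  by_cases h1 : x 1 = 0
  · have hx0 : x 0 ≠ 0 := by
      intro h0
      apply hx
      funext i
      fin_cases i
      · exact h0
      · exact h1
    by_cases h2 : y 1 = 0
    · rw [pr_none h1, pr_none h2, h1, h2]
      simp
    · rw [pr_none h1, pr_some h2, h1]
      simp [hx0, h2]
  · by_cases h2 : y 1 = 0
    · have hy0 : y 0 ≠ 0 := by
        intro h0
        apply hy
        funext i
        fin_cases i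
        · exact h0
        · exact h2
      rw [pr_some h1, pr_none h2, h2]
      simp [hy0, h1]
    · rw [pr_some h1, pr_some h2, Option.some_inj, div_eq_div_iff h1 h2]

theorem pr_map (σ : F →+* F) (x : Fin 2 → F) : Option.map σ (pr x) = pr fun i => σ (x i) := by
  by_cases h : x 1 = 0
  · rw [pr_none h, pr_none (by rw [h, map_zero])]
    rfl
  · rw [pr_some h, pr_some ((map_ne_zero σ).2 h)]
    simp

end Pr

/-! ### the dynamics -/

theorem dyn {X : Type*} (f φ : X → X) (hf : Function.Injective f) (hc : ∀ q, φ (f q) = f (φ q)) (q : X) {d : ℕ} (hd : 1 ≤ d)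
    (S : Finset X) (hS : ∀ q', φ q' = φ q → q' ∈ S) (hSd : S.card ≤ d) :
    ∃ e, 1 ≤ e ∧ e ≤ d ∧ Function.minimalPeriod f q = e * Function.minimalPeriod f (φ q) := by
  classical
  have hcn : ∀ (m : ℕ) (q' : X), φ (f^[m] q') = f^[m] (φ q') := by
    intro m
    induction m with
    | zero => intro q'; rfl
    | succ m ih => intro q'; rw [Function.iterate_succ_apply, Function.iterate_succ_apply, ih, hc]
  set n := Function.minimalPeriod f (φ q) with hn
  rcases Nat.eq_zero_or_pos n with h0 | h0
  · refine ⟨1, le_rfl, hd, ?_⟩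
    rw [h0, mul_zero]
    by_contra hcon
    have h1 : 0 < Function.minimalPeriod f q := Nat.pos_of_ne_zero hcon
    have h2 : Function.IsPeriodicPt f (Function.minimalPeriod f q) (φ q) := by
      show f^[Function.minimalPeriod f q] (φ q) = φ q
      rw [← hcn, Function.iterate_minimalPeriod]
    have h3 := h2.minimalPeriod_pos h1
    omega
  · set g := f^[n] with hg
    have hgi : Function.Injective g := hf.iterate n
    have hfib : ∀ i : ℕ, φ (g^[i] q) = φ q := by
      intro i
      rw [hg, ← Function.iterate_mul, hcn]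
      have h1 : Function.IsPeriodicPt f n (φ q) := by
        rw [hn]
        exact Function.isPeriodicPt_minimalPeriod f (φ q)
      exact (h1.mul_const i)
    have hmem : ∀ i : ℕ, g^[i] q ∈ S := fun i => hS _ (hfib i)
    -- `q` is periodic under `g`
    have hper : ∃ m, 0 < m ∧ Function.IsPeriodicPt g m q := by
      obtain ⟨i, hi, j, hj, hij, heq⟩ := Finset.exists_ne_map_eq_of_card_lt_of_maps_to
        (s := Finset.range (S.card + 1)) (t := S) (by simp) (f := fun i => g^[i] q) (fun i _ => hmem i)
      wlog hlt : i < j generalizing i j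
      · exact this j hj i hi (Ne.symm hij) heq.symm (by omega)
      refine ⟨j - i, by omega, ?_⟩
      have h1 : g^[i] (g^[j - i] q) = g^[i] q := by
        rw [← Function.iterate_add_apply, Nat.add_sub_cancel' hlt.le]
        exact heq.symm
      exact (hgi.iterate i) h1
    obtain ⟨m, hm, hmp⟩ := hper
    set e := Function.minimalPeriod g q with he
    have he0 : 0 < e := hmp.minimalPeriod_pos hm
    have hed : e ≤ d := by
      refine le_trans ?_ hSd
      have h1 : (Finset.range e).card ≤ S.card := by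
        apply Finset.card_le_card_of_injOn (fun i => g^[i] q) (fun i _ => hmem i)
        intro i hi j hj hij
        have h2 := Function.iterate_injOn_Iio_minimalPeriod (f := g) (x := q)
        rw [Finset.coe_range] at hi hj
        exact h2 hi hj hij
      rwa [Finset.card_range] at h1
    refine ⟨e, he0, hed, ?_⟩
    -- the period of `q` under `f`
    have hP : 0 < Function.minimalPeriod f q := by
      have h1 : Function.IsPeriodicPt f (n * m) q := by
        show f^[n * m] q = q
        rw [Function.iterate_mul]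
        exact hmp
      exact h1.minimalPeriod_pos (Nat.mul_pos h0 hm)
    have hdvd : n ∣ Function.minimalPeriod f q := by
      rw [hn]
      apply Function.IsPeriodicPt.minimalPeriod_dvd
      show f^[Function.minimalPeriod f q] (φ q) = φ q
      rw [← hcn, Function.iterate_minimalPeriod]
    have h2 := Function.minimalPeriod_iterate_eq_div_gcd' (f := f) (x := q) (n := n) (Function.minimalPeriod_pos_iff_mem_periodicPts.1 hP)
    rw [Nat.gcd_eq_right hdvd] at h2
    rw [he, hg, h2, Nat.div_mul_cancel hdvd]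

/-! ### one letter -/

section Letter

variable {κ : Type*} [Field κ] {s : ℕ} {d : Fin s → ℕ}

theorem ev_form (c : Idx d → κ) (a : Fin s) (x : Fin 2 → κ) (i : Fin 2) :
    ev (form c a) x i = ∑ j : Fin (d a + 1), c ⟨a, (i, j)⟩ * x 0 ^ (j : ℕ) * x 1 ^ (d a - j) := eval_form c a i x

theorem ev_smul (c : Idx d → κ) (a : Fin s) (l : κ) (x : Fin 2 → κ) :
    ev (form c a) (fun i => l * x i) = fun i => l ^ d a * ev (form c a) x i := by
  funext i
  rw [ev_form, ev_form, Finset.mul_sum]
  refine Finset.sum_congr rfl fun j _ => ?_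
  have h1 : (j : ℕ) + (d a - j) = d a := Nat.add_sub_cancel' (Nat.lt_succ_iff.1 j.2)
  rw [mul_pow, mul_pow]
  calc c ⟨a, (i, j)⟩ * (l ^ (j : ℕ) * x 0 ^ (j : ℕ)) * (l ^ (d a - j) * x 1 ^ (d a - j)) =
        l ^ ((j : ℕ) + (d a - j)) * (c ⟨a, (i, j)⟩ * x 0 ^ (j : ℕ) * x 1 ^ (d a - j)) := by rw [pow_add]; ring
    _ = _ := by rw [h1]

theorem ev_none (c : Idx d → κ) (a : Fin s) (i : Fin 2) :
    ev (form c a) (rep none) i = c ⟨a, (i, Fin.last (d a))⟩ := by
  rw [ev_form, Fin.sum_univ_castSucc]
  have h1 : ∑ j : Fin (d a), c ⟨a, (i, j.castSucc)⟩ * rep (none : Option κ) 0 ^ ((j.castSucc : Fin (d a + 1)) : ℕ) *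
      rep (none : Option κ) 1 ^ (d a - ((j.castSucc : Fin (d a + 1)) : ℕ)) = 0 := by
    refine Finset.sum_eq_zero fun j _ => ?_
    have h2 : d a - ((j.castSucc : Fin (d a + 1)) : ℕ) ≠ 0 := by
      have := j.2
      simp only [Fin.val_castSucc]
      omega
    have h3 : rep (none : Option κ) 1 = 0 := by simp [rep]
    rw [h3, zero_pow h2, mul_zero]
  rw [h1, zero_add]
  simp [rep]

theorem ev_some (c : Idx d → κ) (a : Fin s) (i : Fin 2) (t : κ) :
    ev (form c a) (rep (some t)) i = ∑ j : Fin (d a + 1), c ⟨a, (i, j)⟩ * t ^ (j : ℕ) := by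
  rw [ev_form]
  refine Finset.sum_congr rfl fun j _ => ?_
  simp [rep]

/-- a form has a zero -/
theorem exists_zero [IsAlgClosed κ] (c : Idx d → κ) (a : Fin s) (hd : 1 ≤ d a) (i : Fin 2) :
    ∃ q : Option κ, ev (form c a) (rep q) i = 0 := by
  by_cases h : c ⟨a, (i, Fin.last (d a))⟩ = 0
  · exact ⟨none, by rw [ev_none, h]⟩
  · have hdeg : (pl c a i).natDegree = d a := by
      apply le_antisymm
      · unfold pl
        refine Polynomial.natDegree_sum_le_of_forall_le _ _ fun j _ => ?_
        exact (Polynomial.natDegree_C_mul_X_pow_le _ _).trans (Nat.lt_succ_iff.1 j.2)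
      · apply Polynomial.le_natDegree_of_ne_zero
        unfold pl
        rw [Polynomial.finsetSum_coeff, Fin.sum_univ_castSucc]
        have h1 : ∑ j : Fin (d a), (Polynomial.C (c ⟨a, (i, j.castSucc)⟩) *
            Polynomial.X ^ ((j.castSucc : Fin (d a + 1)) : ℕ)).coeff (d a) = 0 := by
          refine Finset.sum_eq_zero fun j _ => ?_
          rw [Polynomial.coeff_C_mul_X_pow, if_neg]
          have := j.2
          simp only [Fin.val_castSucc]
          omega
        rw [h1, zero_add, Polynomial.coeff_C_mul_X_pow, if_pos (by simp)]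
        exact h
    have h2 : (pl c a i).degree ≠ 0 := by
      intro h3
      have := Polynomial.natDegree_eq_zero_iff_degree_le_zero.2 h3.le
      omega
    obtain ⟨t, ht⟩ := IsAlgClosed.exists_root _ h2
    refine ⟨some t, ?_⟩
    rw [ev_some]
    have h3 : Polynomial.eval t (pl c a i) = 0 := ht
    unfold pl at h3
    rw [Polynomial.eval_finsetSum] at h3
    simpa using h3

/-- the polynomial of the fibre over `u` -/
def fib (c : Idx d → κ) (a : Fin s) (u : Fin 2 → κ) : Polynomial κ :=
  ∑ j : Fin (d a + 1), Polynomial.C (c ⟨a, (0, j)⟩ * u 1 - u 0 * c ⟨a, (1, j)⟩) * Polynomial.X ^ (j : ℕ)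

theorem fib_coeff (c : Idx d → κ) (a : Fin s) (u : Fin 2 → κ) (j : Fin (d a + 1)) :
    (fib c a u).coeff j = c ⟨a, (0, j)⟩ * u 1 - u 0 * c ⟨a, (1, j)⟩ := by
  unfold fib
  rw [Polynomial.finsetSum_coeff, Finset.sum_eq_single j]
  · rw [Polynomial.coeff_C_mul_X_pow, if_pos rfl]
  · intro i _ hij
    rw [Polynomial.coeff_C_mul_X_pow, if_neg]
    intro h
    exact hij (Fin.ext h.symm)
  · intro h
    exact absurd (Finset.mem_univ _) h

theorem fib_eval (c : Idx d → κ) (a : Fin s) (u : Fin 2 → κ) (t : κ) :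
    (fib c a u).eval t = ev (form c a) (rep (some t)) 0 * u 1 - u 0 * ev (form c a) (rep (some t)) 1 := by
  unfold fib
  rw [Polynomial.eval_finsetSum, ev_some, ev_some, Finset.sum_mul, Finset.mul_sum, ← Finset.sum_sub_distrib]
  refine Finset.sum_congr rfl fun j _ => ?_
  simp only [Polynomial.eval_mul, Polynomial.eval_C, Polynomial.eval_pow, Polynomial.eval_X]
  ring

theorem fib_natDegree (c : Idx d → κ) (a : Fin s) (u : Fin 2 → κ) : (fib c a u).natDegree ≤ d a := by
  unfold fib
  refine Polynomial.natDegree_sum_le_of_forall_le _ _ fun j _ => ?_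
  exact (Polynomial.natDegree_C_mul_X_pow_le _ _).trans (Nat.lt_succ_iff.1 j.2)

theorem fib_ne [IsAlgClosed κ] (c : Idx d → κ) (a : Fin s) (hd : 1 ≤ d a)
    (hgood : ∀ x : Fin 2 → κ, x ≠ 0 → ev (form c a) x ≠ 0) {u : Fin 2 → κ} (hu : u ≠ 0) : fib c a u ≠ 0 := by
  intro h0
  have h1 : ∀ j : Fin (d a + 1), c ⟨a, (0, j)⟩ * u 1 = u 0 * c ⟨a, (1, j)⟩ := by
    intro j
    have := fib_coeff c a u j
    rw [h0, Polynomial.coeff_zero] at this
    exact (sub_eq_zero.1 this.symm)
  have h2 : ∀ x : Fin 2 → κ, ev (form c a) x 0 * u 1 = u 0 * ev (form c a) x 1 := by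
    intro x
    rw [ev_form, ev_form, Finset.sum_mul, Finset.mul_sum]
    refine Finset.sum_congr rfl fun j _ => ?_
    calc c ⟨a, (0, j)⟩ * x 0 ^ (j : ℕ) * x 1 ^ (d a - j) * u 1 =
          (c ⟨a, (0, j)⟩ * u 1) * x 0 ^ (j : ℕ) * x 1 ^ (d a - j) := by ring
      _ = _ := by rw [h1]; ring
  by_cases hu1 : u 1 = 0
  · have hu0 : u 0 ≠ 0 := by
      intro h
      apply hu
      funext i
      fin_cases i
      · exact h
      · exact hu1
    obtain ⟨q, hq⟩ := exists_zero c a hd 0
    apply hgood (rep q) (rep_ne q)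
    have h3 := h2 (rep q)
    rw [hu1, mul_zero] at h3
    funext i
    fin_cases i
    · exact hq
    · exact (mul_eq_zero.1 h3.symm).resolve_left hu0
  · obtain ⟨q, hq⟩ := exists_zero c a hd 1
    apply hgood (rep q) (rep_ne q)
    have h3 := h2 (rep q)
    rw [hq, mul_zero] at h3
    funext i
    fin_cases i
    · exact (mul_eq_zero.1 h3).resolve_right hu1
    · exact hq

/-- the fibre has at most `d a` points -/
theorem fibre [IsAlgClosed κ] (c : Idx d → κ) (a : Fin s) (hd : 1 ≤ d a)
    (hgood : ∀ x : Fin 2 → κ, x ≠ 0 → ev (form c a) x ≠ 0) {u : Fin 2 → κ} (hu : u ≠ 0) :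
    ∃ S : Finset (Option κ), S.card ≤ d a ∧ ∀ q, pr (ev (form c a) (rep q)) = pr u → q ∈ S := by
  classical
  have hne := fib_ne c a hd hgood hu
  have hsome : ∀ t : κ, pr (ev (form c a) (rep (some t))) = pr u → t ∈ (fib c a u).roots.toFinset := by
    intro t ht
    rw [pr_eq_iff (hgood _ (rep_ne _)) hu] at ht
    rw [Multiset.mem_toFinset, Polynomial.mem_roots hne, Polynomial.IsRoot.def, fib_eval, ht, sub_self]
  have hnone : pr (ev (form c a) (rep none)) = pr u → (fib c a u).coeff (d a) = 0 := by
    intro ht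
    rw [pr_eq_iff (hgood _ (rep_ne _)) hu, ev_none, ev_none] at ht
    have := fib_coeff c a u (Fin.last (d a))
    rw [Fin.val_last] at this
    rw [this, ht, sub_self]
  have hroots : (fib c a u).roots.toFinset.card ≤ (fib c a u).natDegree :=
    (Multiset.toFinset_card_le _).trans (Polynomial.card_roots' _)
  by_cases h : (fib c a u).coeff (d a) = 0
  · refine ⟨insert none ((fib c a u).roots.toFinset.image some), ?_, ?_⟩
    · have h1 : (fib c a u).natDegree < d a := by
        refine lt_of_le_of_ne (fib_natDegree c a u) fun h2 => hne ?_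
        rw [← h2, Polynomial.coeff_natDegree, Polynomial.leadingCoeff_eq_zero] at h
        exact h
      have h3 := Finset.card_insert_le (none : Option κ) ((fib c a u).roots.toFinset.image some)
      have h4 : ((fib c a u).roots.toFinset.image some).card ≤ (fib c a u).roots.toFinset.card := Finset.card_image_le
      omega
    · intro q hq
      cases q with
      | none => exact Finset.mem_insert_self _ _
      | some t => exact Finset.mem_insert_of_mem (Finset.mem_image_of_mem _ (hsome t hq))
  · refine ⟨(fib c a u).roots.toFinset.image some, ?_, ?_⟩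
    · have h4 : ((fib c a u).roots.toFinset.image some).card ≤ (fib c a u).roots.toFinset.card := Finset.card_image_le
      have h5 := fib_natDegree c a u
      omega
    · intro q hq
      cases q with
      | none => exact absurd (hnone hq) h
      | some t => exact Finset.mem_image_of_mem _ (hsome t hq)

/-- one letter -/
theorem letter [IsAlgClosed κ] (c : Idx d → κ) (a : Fin s) (hd : 1 ≤ d a) (σ : κ →+* κ) (hc : ∀ q, σ (c q) = c q)
    (hgood : ∀ x : Fin 2 → κ, x ≠ 0 → ev (form c a) x ≠ 0) {x : Fin 2 → κ} (hx : x ≠ 0) :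
    ∃ e, 1 ≤ e ∧ e ≤ d a ∧ ol σ x = e * ol σ (ev (form c a) x) := by
  set φ : Option κ → Option κ := fun q => pr (ev (form c a) (rep q)) with hφ
  have hpr : ∀ y : Fin 2 → κ, y ≠ 0 → φ (pr y) = pr (ev (form c a) y) := by
    intro y hy
    obtain ⟨l, hl, h1⟩ := eq_smul_rep hy
    have h2 : ev (form c a) y = fun i => l ^ d a * ev (form c a) (rep (pr y)) i := by
      conv_lhs => rw [h1]
      rw [ev_smul]
    have h3 : ev (form c a) (rep (pr y)) ≠ 0 := hgood _ (rep_ne _)
    show pr (ev (form c a) (rep (pr y))) = _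
    rw [pr_eq_iff h3 (hgood _ hy), h2]
    ring
  have hmap : ∀ y : Fin 2 → κ, ev (form c a) (fun i => σ (y i)) = fun i => σ (ev (form c a) y i) := by
    intro y
    funext i
    rw [ev_form, ev_form, map_sum]
    refine Finset.sum_congr rfl fun j _ => ?_
    rw [map_mul, map_mul, map_pow, map_pow, hc]
  have hcomm : ∀ q, φ (Option.map σ q) = Option.map σ (φ q) := by
    intro q
    have h1 : Option.map σ q = pr fun i => σ (rep q i) := by
      conv_lhs => rw [← pr_rep q]
      rw [pr_map]
    have h2 : (fun i => σ (rep q i)) ≠ 0 := by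
      intro h
      apply rep_ne q
      funext i
      exact (map_eq_zero σ).1 (congrFun h i)
    rw [h1, hpr _ h2, hmap]
    show _ = Option.map σ (pr (ev (form c a) (rep q)))
    rw [pr_map]
  have hinj : Function.Injective (Option.map σ) := Option.map_injective σ.injective
  obtain ⟨S, hSd, hS⟩ := fibre c a hd hgood (hgood x hx)
  obtain ⟨e, h1, h2, h3⟩ := dyn (Option.map σ) φ hinj hcomm (pr x) hd S (fun q' h => hS q' (by
    rw [hpr x hx] at h
    exact h)) hSd
  refine ⟨e, h1, h2, ?_⟩
  unfold ol
  rw [h3, hpr x hx]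

theorem ev_word_cons (c : Idx d → κ) (a : Fin s) (w : List (Fin s)) (x : Fin 2 → κ) :
    ev (word c (a :: w)) x = ev (form c a) (ev (word c w) x) := by
  funext i
  show MvPolynomial.eval x (MvPolynomial.bind₁ (word c w) (form c a i)) =
    MvPolynomial.eval (fun j => MvPolynomial.eval x (word c w j)) (form c a i)
  have := MvPolynomial.eval₂Hom_bind₁ (RingHom.id κ) x (word c w) (form c a i)
  exact this

theorem ev_word_nil (c : Idx d → κ) (x : Fin 2 → κ) : ev (word c ([] : List (Fin s))) x = x := by
  funext i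
  show MvPolynomial.eval x (MvPolynomial.X i) = x i
  rw [MvPolynomial.eval_X]

end Letter

/-- **F1**: residue degrees along an orbit over a finite field -/
theorem resdeg {κ : Type*} [Field κ] [IsAlgClosed κ] (p : ℕ) [Fact p.Prime] [CharP κ p] {s : ℕ} {d : Fin s → ℕ} (D : ℕ)
    (hd1 : ∀ a, 1 ≤ d a) (hD : ∀ a, d a ≤ D) (c : Idx d → κ) (hc : ∀ q, c q ^ p = c q)
    (hgood : ∀ a (x : Fin 2 → κ), x ≠ 0 → ev (form c a) x ≠ 0) (w : List (Fin s)) (x : Fin 2 → κ) (hx : x ≠ 0) :
    ∃ e, 1 ≤ e ∧ Smooth D e ∧ ol (frobenius κ p) x = e * ol (frobenius κ p) (ev (word c w) x) := by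
  have key : ev (word c w) x ≠ 0 ∧ ∃ e, 1 ≤ e ∧ Smooth D e ∧
      ol (frobenius κ p) x = e * ol (frobenius κ p) (ev (word c w) x) := by
    induction w with
    | nil =>
      rw [ev_word_nil]
      refine ⟨hx, 1, le_rfl, ?_, (one_mul _).symm⟩
      intro r hr h
      exact absurd (Nat.eq_one_of_dvd_one h) hr.ne_one
    | cons a w ih =>
      obtain ⟨h0, e, h1, h2, h3⟩ := ih
      rw [ev_word_cons]
      refine ⟨hgood a _ h0, ?_⟩
      obtain ⟨e', h4, h5, h6⟩ := letter c a (hd1 a) (frobenius κ p) (fun q => by rw [frobenius_def]; exact hc q) (hgood a) h0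
      refine ⟨e * e', Nat.mul_pos h1 h4, ?_, ?_⟩
      · intro r hr h
        rcases (Nat.Prime.dvd_mul hr).1 h with h7 | h7
        · exact h2 r hr h7
        · exact (Nat.le_of_dvd h4 h7).trans (h5.trans (hD a))
      · rw [h3, h6, mul_assoc]
  exact key.2

/-- the residue field of the algebraic closure of `ℚ_p` is algebraically closed -/
instance isAlgClosed_kk (p : ℕ) [Fact p.Prime] : IsAlgClosed (kk p) := by
  apply IsAlgClosed.of_exists_root
  intro P hP hirr
  have hsurj : Function.Surjective (Ideal.Quotient.mk (mm p)) := Ideal.Quotient.mk_surjective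
  have hlift : P ∈ Polynomial.lifts (Ideal.Quotient.mk (mm p)) := by
    rw [Polynomial.mem_lifts]
    exact Polynomial.map_surjective _ hsurj P
  obtain ⟨Q, hQ, hQd, hQm⟩ := Polynomial.lifts_and_natDegree_eq_and_monic hlift hP
  have hdeg : 0 < P.natDegree := hirr.natDegree_pos
  have h1 : (Q.map (algebraMap (Oc p) (PadicAlgCl p))).degree ≠ 0 := by
    intro h
    have h2 := Polynomial.natDegree_eq_zero_iff_degree_le_zero.2 h.le
    rw [hQm.natDegree_map, hQd] at h2
    omega
  obtain ⟨z, hz⟩ := IsAlgClosed.exists_root _ h1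
  have h2 : IsIntegral (Oc p) z := by
    refine ⟨Q, hQm, ?_⟩
    rw [← Polynomial.eval_map]
    exact hz
  have h3 : IsIntegral ℤ_[p] z := isIntegral_trans z h2
  have h4 : z ∈ Oc p := h3
  refine ⟨Ideal.Quotient.mk (mm p) ⟨z, h4⟩, ?_⟩
  rw [← hQ, Polynomial.eval_map, Polynomial.eval₂_hom]
  have h5 : Polynomial.eval (⟨z, h4⟩ : Oc p) Q = 0 := by
    apply Subtype.val_injective
    have h6 : (algebraMap (Oc p) (PadicAlgCl p)) (Polynomial.eval (⟨z, h4⟩ : Oc p) Q) = 0 := by
      rw [← Polynomial.eval₂_hom, ← Polynomial.eval_map]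
      exact hz
    exact h6
  rw [h5, map_zero]

end

end Pool.Agent.Helper87.OB
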